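import Pool.Agent.H282RU.Stm

set_option autoImplicit false


/-!
Universality on real segments by signed sums over primes: part J6 with prescribed signs at the
small primes.
-/


open Pool.Agent.H282RU
namespace Pool.Agent.H282RU.J6g

/-- every positive continuous function is approximated by a finite Euler product with signs, the
signs at the primes up to `z0` being prescribed -/
theorem job (h4 : J4) (h5 : J5) (a b : ℝ) (ha : 1 / 2 < a) (hab : a ≤ b) (hb : b < 1) (g : ℝ → ℝ)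
    (hg : ContinuousOn g (Set.Icc a b)) (hgpos : ∀ σ ∈ Set.Icc a b, 0 < g σ) (ε : ℝ) (hε : 0 < ε)
    (z0 : ℕ) (c0 : ℕ → ℤ) (hc0 : ∀ p, c0 p = 1 ∨ c0 p = -1) :
    ∃ (z : ℕ) (c : ℕ → ℤ), z0 ≤ z ∧ (∀ p, c p = 1 ∨ c p = -1) ∧ (∀ p, p ≤ z0 → c p = c0 p) ∧
    ∀ σ ∈ Set.Icc a b, |∏ p ∈ PR 1 z, (1 - (c p : ℝ) * (p : ℝ) ^ (-σ))⁻¹ - g σ| < ε := by
  obtain ⟨G, hG⟩ := isCompact_Icc.exists_bound_of_continuousOn hg
  have hG0 : 0 ≤ G := (norm_nonneg _).trans (hG a ⟨le_rfl, hab⟩)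
  -- the small parameter
  obtain ⟨e, he0, he1, he2⟩ : ∃ e : ℝ, 0 < e ∧ 3 * e ≤ 1 ∧ 6 * G * e < ε := by
    refine ⟨min (1 / 3) (ε / (6 * (G + 1))), by positivity, ?_, ?_⟩
    · have := min_le_left (1 / 3) (ε / (6 * (G + 1)))
      linarith
    · have h1 := min_le_right (1 / 3) (ε / (6 * (G + 1)))
      have h2 : 6 * G * min (1 / 3) (ε / (6 * (G + 1))) ≤ 6 * G * (ε / (6 * (G + 1))) :=
        mul_le_mul_of_nonneg_left h1 (by positivity)
      refine h2.trans_lt ?_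
      have : 6 * G * (ε / (6 * (G + 1))) = ε * (G / (G + 1)) := by
        field_simp
      rw [this]
      have h3 : G / (G + 1) < 1 := by
        rw [div_lt_one (by positivity)]; linarith
      nlinarith
  obtain ⟨Z, hZ⟩ := h5 a b ha hab e he0
  -- the tail
  have hsum : Summable (fun n : ℕ => (n : ℝ) ^ (-(2 * a))) :=
    Real.summable_nat_rpow.mpr (by linarith)
  obtain ⟨S, hS⟩ := summable_iff_vanishing_norm.mp hsum (e / 2) (by positivity)
  obtain ⟨Z1, hZ1⟩ : ∃ Z1 : ℕ, z0 ≤ Z1 ∧ 4 ≤ Z1 ∧ Z ≤ Z1 ∧ ∀ n ∈ S, n ≤ Z1 := by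
    refine ⟨z0 + 4 + Z + S.sup id, by omega, by omega, by omega, fun n hn => ?_⟩
    have : n ≤ S.sup id := Finset.le_sup (f := id) hn
    omega
  obtain ⟨hz0, h4Z, hZZ, hSZ⟩ := hZ1
  have hcont : ∀ p : ℕ, 1 < p →
      ContinuousOn (fun σ : ℝ => Real.log (1 - (c0 p : ℝ) * (p : ℝ) ^ (-σ))) (Set.Icc a b) := by
    intro p hp
    have hp' : (1 : ℝ) < p := by exact_mod_cast hp
    refine ContinuousOn.log ?_ ?_
    · refine continuousOn_const.sub (continuousOn_const.mul ?_)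
      refine (Continuous.rpow continuous_const continuous_neg ?_).continuousOn
      intro x
      left
      exact (by positivity : (p : ℝ) ≠ 0)
    · intro σ hσ
      have h1 : (p : ℝ) ^ (-σ) < 1 := Real.rpow_lt_one_of_one_lt_of_neg hp' (by linarith [hσ.1])
      have h2 : 0 < (p : ℝ) ^ (-σ) := by positivity
      have h3 : (0 : ℝ) < 1 - (c0 p : ℝ) * (p : ℝ) ^ (-σ) := by
        rcases hc0 p with h | h <;> rw [h] <;> push_cast <;> linarith
      exact h3.ne'
  have hf : ContinuousOn (fun σ : ℝ => Real.log (g σ) + ∑ p ∈ PR 1 Z1, Real.log (1 - (c0 p : ℝ) * (p : ℝ) ^ (-σ)))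
      (Set.Icc a b) := by
    refine (hg.log fun σ hσ => (hgpos σ hσ).ne').add ?_
    refine continuousOn_finsetSum _ fun p hp => hcont p ?_
    simp only [PR, Finset.mem_filter, Finset.mem_Ioc] at hp
    exact hp.1.1
  obtain ⟨z, l, hz, hl, hlf⟩ := h4 a b (by linarith) hab hb _ hf e he0 Z1
  obtain ⟨c', hc', hcl⟩ := hZ Z1 z l hZZ hl
  refine ⟨z, fun p => if p ≤ Z1 then c0 p else c' p, by omega, ?_, ?_, ?_⟩
  · intro p
    by_cases h : p ≤ Z1
    · simpa [h] using hc0 p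
    · simpa [h] using hc' p
  · intro p hp
    exact if_pos (by omega)
  intro σ hσ
  have hσ1 : 1 / 2 < σ := by linarith [hσ.1]
  have hunion : PR 1 z = PR 1 Z1 ∪ PR Z1 z := by
    ext p
    simp only [PR, Finset.mem_union, Finset.mem_filter, Finset.mem_Ioc]
    constructor
    · rintro ⟨⟨h1, h2⟩, h3⟩
      by_cases h : p ≤ Z1
      · exact Or.inl ⟨⟨h1, h⟩, h3⟩
      · exact Or.inr ⟨⟨by omega, h2⟩, h3⟩
    · rintro (⟨⟨h1, h2⟩, h3⟩ | ⟨⟨h1, h2⟩, h3⟩)
      · exact ⟨⟨h1, by omega⟩, h3⟩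
      · exact ⟨⟨by omega, h2⟩, h3⟩
  have hdisj : Disjoint (PR 1 Z1) (PR Z1 z) := by
    rw [Finset.disjoint_left]
    intro p hp hq
    simp only [PR, Finset.mem_filter, Finset.mem_Ioc] at hp hq
    omega
  -- size of the terms
  have hsmall : ∀ p ∈ PR Z1 z, 0 ≤ (p : ℝ) ^ (-σ) ∧ (p : ℝ) ^ (-σ) ≤ 1 / 2 := by
    intro p hp
    simp only [PR, Finset.mem_filter, Finset.mem_Ioc] at hp
    have hp4 : (4 : ℝ) ≤ p := by
      have : 4 ≤ p := by omega
      exact_mod_cast this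
    refine ⟨by positivity, ?_⟩
    calc (p : ℝ) ^ (-σ) ≤ (p : ℝ) ^ (-(1 / 2 : ℝ)) :=
          Real.rpow_le_rpow_of_exponent_le (by linarith) (by linarith)
      _ ≤ (4 : ℝ) ^ (-(1 / 2 : ℝ)) :=
          Real.rpow_le_rpow_of_nonpos (by norm_num) hp4 (by norm_num)
      _ = 1 / 2 := by
          rw [Real.rpow_neg (by norm_num), show (4 : ℝ) = 2 ^ (2 : ℝ) by norm_num,
            ← Real.rpow_mul (by norm_num)]
          norm_num
  have hsmall1 : ∀ p ∈ PR 1 Z1, 0 ≤ (p : ℝ) ^ (-σ) ∧ (p : ℝ) ^ (-σ) < 1 := by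
    intro p hp
    simp only [PR, Finset.mem_filter, Finset.mem_Ioc] at hp
    have hp1 : (1 : ℝ) < p := by exact_mod_cast hp.1.1
    exact ⟨by positivity, Real.rpow_lt_one_of_one_lt_of_neg hp1 (by linarith)⟩
  have hcabs : ∀ p, |(c' p : ℝ)| = 1 := by
    intro p
    rcases hc' p with h | h <;> simp [h]
  -- the remainder
  have hrem : ∀ p ∈ PR Z1 z,
      |(c' p : ℝ) * (p : ℝ) ^ (-σ) + Real.log (1 - (c' p : ℝ) * (p : ℝ) ^ (-σ))| ≤
        2 * (p : ℝ) ^ (-(2 * a)) := by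
    intro p hp
    obtain ⟨h0, h1⟩ := hsmall p hp
    have habs : |(c' p : ℝ) * (p : ℝ) ^ (-σ)| = (p : ℝ) ^ (-σ) := by
      rw [abs_mul, hcabs, one_mul, abs_of_nonneg h0]
    have hb1 := Real.abs_log_sub_add_sum_range_le (x := (c' p : ℝ) * (p : ℝ) ^ (-σ))
      (by rw [habs]; linarith) 1
    simp only [Finset.sum_range_one, zero_add, pow_one, Nat.cast_zero, div_one, habs] at hb1
    refine hb1.trans ?_
    have hp1 : (1 : ℝ) ≤ p := by
      simp only [PR, Finset.mem_filter, Finset.mem_Ioc] at hp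
      have : 1 ≤ p := by omega
      exact_mod_cast this
    have h2 : ((p : ℝ) ^ (-σ)) ^ 2 ≤ (p : ℝ) ^ (-(2 * a)) := by
      rw [← Real.rpow_natCast, ← Real.rpow_mul (by linarith)]
      refine Real.rpow_le_rpow_of_exponent_le hp1 ?_
      push_cast
      linarith [hσ.1]
    rw [div_le_iff₀ (by linarith)]
    norm_num
    have h3 : 0 ≤ (p : ℝ) ^ (-(2 * a)) := by positivity
    nlinarith
  have hremsum : |∑ p ∈ PR Z1 z, ((c' p : ℝ) * (p : ℝ) ^ (-σ) +
      Real.log (1 - (c' p : ℝ) * (p : ℝ) ^ (-σ)))| < e := by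
    refine (Finset.abs_sum_le_sum_abs _ _).trans_lt ?_
    refine (Finset.sum_le_sum hrem).trans_lt ?_
    rw [← Finset.mul_sum]
    have hd : Disjoint (PR Z1 z) S := by
      rw [Finset.disjoint_left]
      intro p hp hq
      simp only [PR, Finset.mem_filter, Finset.mem_Ioc] at hp
      have := hSZ p hq
      omega
    have := hS _ hd
    rw [Real.norm_eq_abs, abs_of_nonneg (Finset.sum_nonneg fun p _ => by positivity)] at this
    linarith
  -- the product
  set P : ℝ := ∏ p ∈ PR 1 z, (1 - ((if p ≤ Z1 then c0 p else c' p : ℤ) : ℝ) * (p : ℝ) ^ (-σ))⁻¹ with hP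
  have hfac : ∀ p ∈ PR 1 z, 0 < 1 - ((if p ≤ Z1 then c0 p else c' p : ℤ) : ℝ) * (p : ℝ) ^ (-σ) := by
    intro p hp
    rw [hunion, Finset.mem_union] at hp
    rcases hp with hp | hp
    · have h1 := hsmall1 p hp
      simp only [PR, Finset.mem_filter, Finset.mem_Ioc] at hp
      rw [if_pos hp.1.2]
      rcases hc0 p with h | h <;> rw [h] <;> push_cast <;> linarith [h1.1, h1.2]
    · have h1 := hsmall p hp
      simp only [PR, Finset.mem_filter, Finset.mem_Ioc] at hp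
      rw [if_neg (by omega)]
      have h2 : (c' p : ℝ) * (p : ℝ) ^ (-σ) ≤ |(c' p : ℝ) * (p : ℝ) ^ (-σ)| := le_abs_self _
      rw [abs_mul, hcabs, one_mul, abs_of_nonneg h1.1] at h2
      linarith [h1.2]
  have hPpos : 0 < P := Finset.prod_pos fun p hp => inv_pos.mpr (hfac p hp)
  have hlogP : Real.log P = - (∑ p ∈ PR 1 Z1, Real.log (1 - (c0 p : ℝ) * (p : ℝ) ^ (-σ))) -
      ∑ p ∈ PR Z1 z, Real.log (1 - (c' p : ℝ) * (p : ℝ) ^ (-σ)) := by
    rw [hP, Real.log_prod (fun p hp => (inv_pos.mpr (hfac p hp)).ne'), hunion,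
      Finset.sum_union hdisj, sub_eq_add_neg, ← Finset.sum_neg_distrib, ← Finset.sum_neg_distrib]
    congr 1
    · refine Finset.sum_congr rfl fun p hp => ?_
      simp only [PR, Finset.mem_filter, Finset.mem_Ioc] at hp
      rw [if_pos hp.1.2, Real.log_inv]
    · refine Finset.sum_congr rfl fun p hp => ?_
      simp only [PR, Finset.mem_filter, Finset.mem_Ioc] at hp
      rw [if_neg (by omega), Real.log_inv]
  have hg0 := hgpos σ hσ
  have hdiff : |Real.log P - Real.log (g σ)| < 3 * e := by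
    have h1 := hlf σ hσ
    have h2 := hcl σ hσ
    have h3 : ∑ p ∈ PR Z1 z, ((c' p : ℝ) - l p) * (p : ℝ) ^ (-σ) =
        ∑ p ∈ PR Z1 z, (c' p : ℝ) * (p : ℝ) ^ (-σ) - ∑ p ∈ PR Z1 z, l p * (p : ℝ) ^ (-σ) := by
      rw [← Finset.sum_sub_distrib]
      exact Finset.sum_congr rfl fun p _ => by ring
    rw [h3] at h2
    rw [Finset.sum_add_distrib] at hremsum
    rw [hlogP]
    rw [abs_lt] at h1 h2 hremsum ⊢
    constructor <;> linarith [h1.1, h1.2, h2.1, h2.2, hremsum.1, hremsum.2]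
  have hPg : P = g σ * Real.exp (Real.log P - Real.log (g σ)) := by
    rw [Real.exp_sub, Real.exp_log hPpos, Real.exp_log hg0]
    field_simp
  have hexp := Real.abs_exp_sub_one_le (x := Real.log P - Real.log (g σ)) (by linarith)
  have : P - g σ = g σ * (Real.exp (Real.log P - Real.log (g σ)) - 1) := by
    nth_rewrite 1 [hPg]
    ring
  rw [this, abs_mul, abs_of_pos hg0]
  have hgG : g σ ≤ G := (le_abs_self _).trans (hG σ hσ)
  calc g σ * |Real.exp (Real.log P - Real.log (g σ)) - 1|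
      ≤ G * (2 * (3 * e)) := by
        refine mul_le_mul hgG (hexp.trans ?_) (abs_nonneg _) hG0
        linarith
    _ < ε := by linarith

end Pool.Agent.H282RU.J6g
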