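import Pool.Agent.H282RU.FL
import Pool.Agent.H282RU.J6g
import Pool.Agent.W161.LF.Asm

set_option autoImplicit false

/-!
Universality on real segments and positivity of quadratic L-functions: assembly.
-/

namespace Pool.Agent.H282RU

open Finset Filter Topology MeasureTheory Pool.Agent.H306R2.RZ Pool.Agent.H306R2.RG
open Pool.Agent.W161.LF
open Pool.Agent.H463R2.RGFIN (ch ch_spec mem_FS FS mem_le r_bd)
open Pool.Agent.H306R2.RG.LnkC (RPC POS)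

noncomputable section

/-- approximation of `g` on `[a,b]` -/
def APX (a b : ℝ) (g : ℝ → ℝ) (ε : ℝ) (p : Σ N : ℕ, DirichletCharacter ℂ N) : Prop :=
  ∃ _ : NeZero p.1, ∀ σ : ℝ, a ≤ σ → σ ≤ b →
    |(DirichletCharacter.LFunction p.2 (σ : ℂ)).re - g σ| < ε

lemma PR_erase {z : ℕ} : (PR 1 z).erase 2 = PR 2 z := by
  ext p
  simp only [PR, Finset.mem_erase, Finset.mem_filter, Finset.mem_Ioc]
  constructor
  · rintro ⟨h1, ⟨h2, h3⟩, h4⟩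
    have := h4.two_le
    exact ⟨⟨by omega, h3⟩, h4⟩
  · rintro ⟨⟨h1, h2⟩, h3⟩
    exact ⟨by omega, ⟨by omega, h2⟩, h3⟩

lemma two_mem {z : ℕ} (hz : 2 ≤ z) : 2 ∈ PR 1 z := by
  simp only [PR, Finset.mem_filter, Finset.mem_Ioc]
  exact ⟨⟨by norm_num, hz⟩, Nat.prime_two⟩

lemma prod_split {z : ℕ} (hz : 2 ≤ z) (c : ℕ → ℤ) (σ : ℝ) :
    ∏ p ∈ PR 1 z, (1 - (c p : ℝ) * (p : ℝ) ^ (-σ))⁻¹ =
      (1 - (c 2 : ℝ) * (2 : ℝ) ^ (-σ))⁻¹ * EU (PR 2 z) c (σ - 1 / 2) := by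
  rw [← Finset.mul_prod_erase _ _ (two_mem hz), PR_erase]
  congr 1
  unfold EU
  refine Finset.prod_congr rfl fun p _ => ?_
  have e : -(1 / 2 + (σ - 1 / 2)) = -σ := by ring
  rw [e]

/-- closeness implies the approximation -/
lemma apx_of_close {a b : ℝ} (ha : 1 / 2 < a) (hb : b < 1) {g : ℝ → ℝ} {ε G : ℝ} (hε : 0 < ε)
    (hG0 : 0 ≤ G) (hG : ∀ σ ∈ Set.Icc a b, g σ ≤ G) {z : ℕ} (hz : 2 ≤ z) {c : ℕ → ℤ}
    (hc : ∀ p, c p = 1 ∨ c p = -1)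
    (happ : ∀ σ ∈ Set.Icc a b,
      |∏ p ∈ PR 1 z, (1 - (c p : ℝ) * (p : ℝ) ^ (-σ))⁻¹ - g σ| < ε / 2)
    {φ : FD} (hφ : Fam φ) (hη : φ.η = ((c 2 : ℤ) : ℝ)) {d : ℕ} (hd : d ∈ SFg φ)
    (h : Close a (ε / (4 * (G + ε))) φ (PR 2 z) c d) : APX a b g ε (ch φ d) := by
  obtain ⟨h1, h2, h3, h4⟩ := ch_spec hCGF hφ hd
  refine ⟨h3, fun σ hσ0 hσ1 => ?_⟩
  rw [h4 σ (by linarith), Complex.ofReal_re]
  have hσ := happ σ ⟨hσ0, hσ1⟩
  have hc1 := h σ hσ0 (by linarith)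
  rw [prod_split hz] at hσ
  have hE : 0 < EU (PR 2 z) c (σ - 1 / 2) := EU_pos hc (by linarith)
  set E := EU (PR 2 z) c (σ - 1 / 2) with hEdef
  have hq : 0 < 1 - φ.η * (2 : ℝ) ^ (-σ) := by
    have q1 : (2 : ℝ) ^ (-σ) < 1 :=
      Real.rpow_lt_one_of_one_lt_of_neg (by norm_num) (by linarith)
    have q2 : 0 < (2 : ℝ) ^ (-σ) := Real.rpow_pos_of_pos (by norm_num) _
    rw [hη]
    rcases hc 2 with h | h <;> rw [h] <;> push_cast <;> linarith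
  rw [← hη] at hσ
  set q := 1 - φ.η * (2 : ℝ) ^ (-σ) with hqdef
  set P := q⁻¹ * E with hP
  have hP0 : 0 < P := mul_pos (inv_pos.2 hq) hE
  have hqP : q * P = E := by
    rw [hP, ← mul_assoc, mul_inv_cancel₀ hq.ne', one_mul]
  have h5 : |LLg φ d σ - P| ≤ ε / (4 * (G + ε)) * P := by
    have e : q * |LLg φ d σ - P| ≤ q * (ε / (4 * (G + ε)) * P) := by
      calc q * |LLg φ d σ - P| = |q * LLg φ d σ - E| := by
            rw [← hqP, ← mul_sub, abs_mul, abs_of_pos hq]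
        _ ≤ ε / (4 * (G + ε)) * E := hc1
        _ = q * (ε / (4 * (G + ε)) * P) := by
            rw [← hqP]
            ring
    exact le_of_mul_le_mul_left e hq
  have h6 : P ≤ G + ε := by
    have := (abs_lt.1 hσ).2
    have := hG σ ⟨hσ0, hσ1⟩
    linarith
  have h7 : ε / (4 * (G + ε)) * P ≤ ε / 4 := by
    have hGε : 0 < G + ε := by linarith
    calc ε / (4 * (G + ε)) * P ≤ ε / (4 * (G + ε)) * (G + ε) :=
          mul_le_mul_of_nonneg_left h6 (by positivity)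
      _ = ε / 4 := by field_simp
  calc |LLg φ d σ - g σ| = |(LLg φ d σ - P) + (P - g σ)| := by ring_nf
    _ ≤ |LLg φ d σ - P| + |P - g σ| := abs_add_le _ _
    _ < ε := by linarith

/-- proportion in one family -/
lemma fam_prop (hPC : PC) (hPM : PM) (hPD : PD) {a : ℝ} (ha : 1 / 2 < a) (ha1 : a ≤ 1) {τ : ℝ}
    (hτ : 0 < τ) : ∃ z0 : ℕ, ∀ z : ℕ, z0 ≤ z → ∀ c : ℕ → ℤ,
    (∀ p, c p = 1 ∨ c p = -1) → ∀ φ, Fam φ → ∃ N : ℕ, ∀ X : ℕ, N ≤ X →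
      (864 / 1000 : ℝ) * ((SFg (loc φ (PR 2 z) c) ∩ {d | d ≤ X}).ncard : ℝ) ≤
        (((SFg (loc φ (PR 2 z) c) ∩ {d | d ≤ X}) ∩
          ({d | ∀ σ : ℝ, 0 < σ → σ < 1 → 0 < LLg φ d σ} ∩
            {d | Close a τ φ (PR 2 z) c d})).ncard : ℝ) := by
  obtain ⟨z0, hz0⟩ := famU hPC hPM hPD a ha ha1 τ (1 / 4000) hτ (by norm_num)
  refine ⟨z0, fun z hz c hc φ hφ => ?_⟩
  have hSodd : ∀ p ∈ PR 2 z, p.Prime ∧ Odd p := fun p hp => PR_odd hp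
  have hc' : ∀ p ∈ PR 2 z, c p = 0 ∨ c p = 1 ∨ c p = -1 := fun p _ => Or.inr (hc p)
  obtain ⟨N1, h1⟩ := hz0 z hz c hc φ hφ
  obtain ⟨N2, h2⟩ := prop_loc φ hφ (PR 2 z) hSodd c hc'
  have hden := DEN_loc φ hφ (PR 2 z) hSodd c hc'
  set ψ := loc φ (PR 2 z) c with hψ
  have hδ : 0 < ψ.δ := (FG_loc φ hφ (PR 2 z) hSodd c hc').hδ
  have hpi : (1 / 2 : ℝ) < 8 / Real.pi ^ 2 := by
    have h3 := Real.pi_lt_four
    have h4 := Real.pi_pos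
    rw [lt_div_iff₀ (by positivity)]
    nlinarith
  have hlt : ψ.δ * (1 / 2) < ψ.δ * (8 / Real.pi ^ 2) := mul_lt_mul_of_pos_left hpi hδ
  obtain ⟨N3, h3⟩ := eventually_atTop.1 (hden.eventually (lt_mem_nhds hlt))
  refine ⟨max (max N1 N2) (max N3 1), fun X hX => ?_⟩
  have hX1 : N1 ≤ X := ((le_max_left _ _).trans (le_max_left _ _)).trans hX
  have hX2 : N2 ≤ X := ((le_max_right _ _).trans (le_max_left _ _)).trans hX
  have hX3 : N3 ≤ X := ((le_max_left _ _).trans (le_max_right _ _)).trans hX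
  have hX4 : 1 ≤ X := ((le_max_right _ _).trans (le_max_right _ _)).trans hX
  have hXp : (0 : ℝ) < X := by exact_mod_cast hX4
  have k1 := h1 X hX1
  have k2 := h2 X hX2
  have k3 := h3 X hX3
  rw [lt_div_iff₀ hXp] at k3
  set A : Set ℕ := SFg ψ ∩ {d | d ≤ X} with hA
  set P : Set ℕ := {d | ∀ σ : ℝ, 0 < σ → σ < 1 → 0 < LLg φ d σ} with hP
  set Q : Set ℕ := {d | Close a τ φ (PR 2 z) c d} with hQ
  have hAf : A.Finite := (Set.finite_Iic X).subset fun _ h => h.2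
  have hAP : (A ∩ P).Finite := hAf.subset Set.inter_subset_left
  have hAQ : (A ∩ Q).Finite := hAf.subset Set.inter_subset_left
  have hsum := Set.ncard_inter_add_ncard_union (A ∩ P) (A ∩ Q) hAP hAQ
  have hun : ((A ∩ P) ∪ (A ∩ Q)).ncard ≤ A.ncard :=
    Set.ncard_le_ncard (Set.union_subset Set.inter_subset_left Set.inter_subset_left) hAf
  have hin : (A ∩ P) ∩ (A ∩ Q) = A ∩ (P ∩ Q) := by
    ext d
    simp only [Set.mem_inter_iff]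
    tauto
  rw [hin] at hsum
  have e1 : (((A ∩ P).ncard : ℕ) : ℝ) + ((A ∩ Q).ncard : ℝ) ≤
      ((A ∩ (P ∩ Q)).ncard : ℝ) + (A.ncard : ℝ) := by
    have : (A ∩ P).ncard + (A ∩ Q).ncard ≤ (A ∩ (P ∩ Q)).ncard + A.ncard := by omega
    exact_mod_cast this
  linarith

theorem mainU (hPC : PC) (hPM : PM) (hPD : PD) (h4 : J4) (h5 : J5) (a b : ℝ) (ha : 1 / 2 < a)
    (hab : a ≤ b) (hb : b < 1) (g : ℝ → ℝ) (hg : ContinuousOn g (Set.Icc a b))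
    (hpos : ∀ σ ∈ Set.Icc a b, 0 < g σ) (ε : ℝ) (hε : 0 < ε) (s : ℤ) (y : ℕ) (c0 : ℕ → ℤ)
    (hc0 : ∀ p, c0 p = 1 ∨ c0 p = -1) :
    ∃ (z : ℕ) (c : ℕ → ℤ), y ≤ z ∧ (∀ p, c p = 1 ∨ c p = -1) ∧ (∀ p, p ≤ y → c p = c0 p) ∧
    (∃ N : ℕ, ∀ X : ℕ, N ≤ X →
      (864 / 1000 : ℝ) * ((RPC ∩ (CL (PR 1 z) c s ∩ {p | p.1 ≤ X})).ncard : ℝ) ≤
        ((RPC ∩ ((CL (PR 1 z) c s ∩ {p | p.1 ≤ X}) ∩
          {p | POS p ∧ APX a b g ε p})).ncard : ℝ)) := by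
  classical
  obtain ⟨G0, hG0⟩ := isCompact_Icc.exists_bound_of_continuousOn hg
  set G : ℝ := max G0 0 with hGdef
  have hG00 : 0 ≤ G := le_max_right _ _
  have hG : ∀ σ ∈ Set.Icc a b, g σ ≤ G := fun σ hσ =>
    ((le_abs_self _).trans (hG0 σ hσ)).trans (le_max_left _ _)
  have hτ : 0 < ε / (4 * (G + ε)) := by positivity
  obtain ⟨z0, hz0⟩ := fam_prop hPC hPM hPD ha (by linarith : a ≤ 1) hτ
  obtain ⟨z, c, hz, hc, hcc, happ⟩ := J6g.job h4 h5 a b ha hab hb g hg hpos (ε / 2)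
    (by positivity) (max y (max z0 2)) c0 hc0
  have hz0' : y ≤ z := (le_max_left _ _).trans hz
  have hz1 : z0 ≤ z := ((le_max_left _ _).trans (le_max_right _ _)).trans hz
  have hz2 : 2 ≤ z := ((le_max_right _ _).trans (le_max_right _ _)).trans hz
  refine ⟨z, c, hz0', hc, fun p hp => hcc p (hp.trans (le_max_left _ _)), ?_⟩
  have hS : ∀ p ∈ PR 1 z, p.Prime := fun p hp => (Finset.mem_filter.1 hp).2
  have hfin1 : ∀ (φ : FD) (X : ℕ), {d | FM (PR 1 z) c s φ ∧ d ∈ SFg (loc φ ((PR 1 z).erase 2) c) ∩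
      {d | d ≤ X / φ.r}}.Finite := fun φ X =>
    (Set.finite_Iic (X / φ.r)).subset fun _ h => h.2.2
  have hfin2 : ∀ (φ : FD) (hφ : Fam φ) (X : ℕ), {d | d ∈ SFg φ ∧
      ch φ d ∈ ((CL (PR 1 z) c s ∩ {p | p.1 ≤ X}) ∩ {p | POS p ∧ APX a b g ε p})}.Finite :=
    fun φ hφ X => (set_eq φ hφ (PR 1 z) hS c s X ▸ hfin1 φ X :
      {d | d ∈ SFg φ ∧ ch φ d ∈ CL (PR 1 z) c s ∩ {p | p.1 ≤ X}}.Finite).subset
        fun _ h => ⟨h.1, h.2.1⟩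
  have A1 : ∀ X : ℕ, _ := fun X => sum_fam (CL (PR 1 z) c s ∩ {p | p.1 ≤ X}) (fun φ hφ => by
    rw [set_eq φ hφ (PR 1 z) hS c s X]
    exact hfin1 φ X)
  have A2 : ∀ X : ℕ, _ := fun X => sum_fam ((CL (PR 1 z) c s ∩ {p | p.1 ≤ X}) ∩
    {p | POS p ∧ APX a b g ε p}) (fun φ hφ => hfin2 φ hφ X)
  have h' : ∀ φ : FD, ∃ N : ℕ, Fam φ → ∀ X : ℕ, N ≤ X →
      (864 / 1000 : ℝ) * ((SFg (loc φ (PR 2 z) c) ∩ {d | d ≤ X}).ncard : ℝ) ≤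
        (((SFg (loc φ (PR 2 z) c) ∩ {d | d ≤ X}) ∩
          ({d | ∀ σ : ℝ, 0 < σ → σ < 1 → 0 < LLg φ d σ} ∩
            {d | Close a (ε / (4 * (G + ε))) φ (PR 2 z) c d})).ncard : ℝ) := by
    intro φ
    by_cases hφ : Fam φ
    · obtain ⟨N, hN⟩ := hz0 z hz1 c hc φ hφ
      exact ⟨N, fun _ => hN⟩
    · exact ⟨0, fun hh => absurd hh hφ⟩
  choose Nf hNf using h'
  refine ⟨∑ φ ∈ FS, 8 * Nf φ, fun X hX => ?_⟩
  rw [(A1 X).2, (A2 X).2]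
  push_cast
  rw [Finset.mul_sum]
  refine Finset.sum_le_sum fun φ hφ => ?_
  have hφ' := (mem_FS φ).1 hφ
  rw [set_eq φ hφ' (PR 1 z) hS c s X, PR_erase]
  by_cases hFM : FM (PR 1 z) c s φ
  · simp only [hFM, true_and, Set.ofPred_mem_eq]
    have h8 : 8 * Nf φ ≤ X :=
      (Finset.single_le_sum (f := fun φ => 8 * Nf φ) (fun _ _ => Nat.zero_le _) hφ).trans hX
    have hNX : Nf φ ≤ X / φ.r := by
      rw [Nat.le_div_iff_mul_le (r_bd hφ').1]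
      have := (r_bd hφ').2
      nlinarith
    refine (hNf φ hφ' (X / φ.r) hNX).trans ?_
    have hsub : (SFg (loc φ (PR 2 z) c) ∩ {d | d ≤ X / φ.r}) ∩
          ({d | ∀ σ : ℝ, 0 < σ → σ < 1 → 0 < LLg φ d σ} ∩
            {d | Close a (ε / (4 * (G + ε))) φ (PR 2 z) c d}) ⊆
        {d | d ∈ SFg φ ∧ ch φ d ∈ ((CL (PR 1 z) c s ∩ {p | p.1 ≤ X}) ∩
          {p | POS p ∧ APX a b g ε p})} := by
      rintro d ⟨hd1, hd2, hd3⟩
      have hmem : d ∈ {d | d ∈ SFg φ ∧ ch φ d ∈ CL (PR 1 z) c s ∩ {p | p.1 ≤ X}} := by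
        rw [set_eq φ hφ' (PR 1 z) hS c s X, PR_erase]
        exact ⟨hFM, hd1⟩
      obtain ⟨hdS, hdC⟩ := hmem
      exact ⟨hdS, hdC, (ch_pos φ hφ' hdS).2 hd2,
        apx_of_close ha hb hε hG00 hG hz2 hc happ hφ' (hFM.2 (two_mem hz2)) hdS hd3⟩
    exact_mod_cast Set.ncard_le_ncard hsub (hfin2 φ hφ' X)
  · simp [hFM]

end

end Pool.Agent.H282RU
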