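import Mathlib

/-!
Elementary facts on the L-function of an elliptic curve given by its Euler product, and an argument
with the maximum principle.
-/

set_option autoImplicit false

namespace Pool.Agent.H282RU.EL

open Filter Topology

noncomputable section

/-- the good primes -/
abbrev Pr (a b : ℤ) : Type := {p : ℕ // p.Prime ∧ ¬ ((p : ℤ) ∣ 2 * (4 * a ^ 3 + 27 * b ^ 2))}

/-- `a_p` -/
def ap (a b : ℤ) (p : ℕ) : ℤ :=
  (p : ℤ) - ((((Finset.range p) ×ˢ (Finset.range p)).filter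
    (fun xy : ℕ × ℕ => (p : ℤ) ∣ (xy.2 : ℤ) ^ 2 - ((xy.1 : ℤ) ^ 3 + a * (xy.1 : ℤ) + b))).card : ℤ)

/-- the Euler factor -/
def fac (A : ℤ) (p : ℕ) (s : ℂ) : ℂ :=
  (1 - ((A : ℤ) : ℂ) * (p : ℂ) ^ (-s) + (p : ℂ) * (p : ℂ) ^ (-2 * s))⁻¹

lemma ap_bound (a b : ℤ) (p : ℕ) (_hp : 1 ≤ p) : |(ap a b p : ℝ)| ≤ (p : ℝ) ^ 2 := by
  unfold ap
  set C := (((Finset.range p) ×ˢ (Finset.range p)).filter
    (fun xy : ℕ × ℕ => (p : ℤ) ∣ (xy.2 : ℤ) ^ 2 - ((xy.1 : ℤ) ^ 3 + a * (xy.1 : ℤ) + b))).card with hC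
  have h1 : C ≤ p ^ 2 := by
    rw [hC]
    refine (Finset.card_filter_le _ _).trans ?_
    rw [Finset.card_product, Finset.card_range, sq]
  have h2 : (C : ℝ) ≤ (p : ℝ) ^ 2 := by exact_mod_cast h1
  have h3 : (p : ℝ) ≤ (p : ℝ) ^ 2 := by
    have : (1 : ℝ) ≤ p := by exact_mod_cast _hp
    nlinarith
  push_cast
  rw [abs_le]
  have h4 : (0 : ℝ) ≤ (C : ℝ) := Nat.cast_nonneg _
  have h5 : (0 : ℝ) ≤ (p : ℝ) := Nat.cast_nonneg _
  constructor <;> linarith

lemma fac_conj (A : ℤ) {p : ℕ} (_hp : p.Prime) (s : ℂ) :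
    fac A p ((starRingEnd ℂ) s) = (starRingEnd ℂ) (fac A p s) := by
  have harg : ((p : ℕ) : ℂ).arg ≠ Real.pi := by
    rw [Complex.natCast_arg]
    exact Real.pi_pos.ne
  have h1 : ∀ w : ℂ, (p : ℂ) ^ ((starRingEnd ℂ) w) = (starRingEnd ℂ) ((p : ℂ) ^ w) := by
    intro w
    rw [Complex.cpow_conj _ _ harg, Complex.conj_natCast]
  unfold fac
  have e1 : -(starRingEnd ℂ) s = (starRingEnd ℂ) (-s) := (map_neg _ _).symm
  have e2 : -2 * (starRingEnd ℂ) s = (starRingEnd ℂ) (-2 * s) := by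
    rw [map_mul, map_neg]
    congr 2
    exact (Complex.conj_ofNat 2).symm
  rw [e1, e2, h1, h1]
  simp only [map_inv₀, map_add, map_sub, map_one, map_mul, Complex.conj_natCast, map_intCast]

/-- the product is real-symmetric -/
theorem real_symm {a b : ℤ} {F : ℂ → ℂ} (hF : Differentiable ℂ F)
    (hE : ∀ s : ℂ, 3 / 2 < s.re → F s = ∏' p : Pr a b, fac (ap a b p.1) p.1 s) (s : ℂ) :
    F ((starRingEnd ℂ) s) = (starRingEnd ℂ) (F s) := by
  have hG : Differentiable ℂ (fun s => (starRingEnd ℂ) (F ((starRingEnd ℂ) s))) := by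
    intro z
    have := (hF ((starRingEnd ℂ) z)).conj_conj
    rw [Complex.conj_conj] at this
    exact this
  have h1 : (fun s => (starRingEnd ℂ) (F ((starRingEnd ℂ) s))) = F := by
    have a1 : AnalyticOnNhd ℂ (fun s => (starRingEnd ℂ) (F ((starRingEnd ℂ) s))) Set.univ :=
      fun z _ => hG.analyticAt z
    have a2 : AnalyticOnNhd ℂ F Set.univ := fun z _ => hF.analyticAt z
    refine a1.eq_of_eventuallyEq a2 (z₀ := 2) ?_
    have hopen : IsOpen {z : ℂ | 3 / 2 < z.re} := isOpen_lt continuous_const Complex.continuous_re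
    filter_upwards [hopen.mem_nhds (show (2 : ℂ) ∈ {z : ℂ | 3 / 2 < z.re} by
      simp only [Set.mem_ofPred_eq, Complex.re_ofNat]; norm_num)] with z hz
    have hz' : 3 / 2 < ((starRingEnd ℂ) z).re := by rwa [Complex.conj_re]
    have hz'' : 3 / 2 < z.re := hz
    rw [hE _ hz', hE _ hz'']
    have e : ∀ p : Pr a b, fac (ap a b p.1) p.1 ((starRingEnd ℂ) z) =
        (starRingEnd ℂ) (fac (ap a b p.1) p.1 z) := fun p => fac_conj _ p.2.1 z
    simp_rw [e]
    rw [← Function.LeftInverse.map_tprod (g := starRingEnd ℂ) (g' := starRingEnd ℂ)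
      (f := fun p : Pr a b => fac (ap a b p.1) p.1 z) Complex.continuous_conj
      Complex.continuous_conj (fun w => Complex.conj_conj w), Complex.conj_conj]
  have h2 := congrFun h1 s
  have h3 : (starRingEnd ℂ) ((starRingEnd ℂ) (F ((starRingEnd ℂ) s))) = (starRingEnd ℂ) (F s) := by
    rw [← h2]
  rwa [Complex.conj_conj] at h3

/-- the product does not vanish identically -/
theorem ne_zero {a b : ℤ} {F : ℂ → ℂ}
    (hE : ∀ s : ℂ, 3 / 2 < s.re → F s = ∏' p : Pr a b, fac (ap a b p.1) p.1 s) : F 6 ≠ 0 := by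
  have h6 : (3 : ℝ) / 2 < (6 : ℂ).re := by
    rw [Complex.re_ofNat]; norm_num
  rw [hE 6 h6]
  set u : Pr a b → ℂ := fun p => -((ap a b p.1 : ℤ) : ℂ) * (p.1 : ℂ) ^ (-(6 : ℂ)) +
    (p.1 : ℂ) * (p.1 : ℂ) ^ (-2 * (6 : ℂ)) with hu
  have hub : ∀ p : Pr a b, ‖u p‖ ≤ 2 * ((p.1 : ℝ) ^ 4)⁻¹ := by
    intro p
    have hp : 1 ≤ p.1 := p.2.1.one_lt.le
    have hp' : (1 : ℝ) ≤ (p.1 : ℝ) := by exact_mod_cast hp
    have hpos : (0 : ℝ) < (p.1 : ℝ) := by linarith
    have n1 : ‖(p.1 : ℂ) ^ (-(6 : ℂ))‖ = ((p.1 : ℝ) ^ 6)⁻¹ := by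
      rw [Complex.norm_natCast_cpow_of_pos (by omega), Complex.neg_re, Complex.re_ofNat,
        Real.rpow_neg hpos.le]
      congr 1
      exact_mod_cast Real.rpow_natCast (p.1 : ℝ) 6
    have n2 : ‖(p.1 : ℂ) ^ (-2 * (6 : ℂ))‖ = ((p.1 : ℝ) ^ 12)⁻¹ := by
      rw [Complex.norm_natCast_cpow_of_pos (by omega)]
      have : (-2 * (6 : ℂ)).re = -(12 : ℝ) := by
        rw [show (-2 * (6 : ℂ)) = ((-12 : ℝ) : ℂ) by push_cast; norm_num, Complex.ofReal_re]
      rw [this, Real.rpow_neg hpos.le]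
      congr 1
      exact_mod_cast Real.rpow_natCast (p.1 : ℝ) 12
    have n3 : ‖((ap a b p.1 : ℤ) : ℂ)‖ ≤ (p.1 : ℝ) ^ 2 := by
      rw [Complex.norm_intCast]
      exact ap_bound a b p.1 hp
    calc ‖u p‖ ≤ ‖-((ap a b p.1 : ℤ) : ℂ) * (p.1 : ℂ) ^ (-(6 : ℂ))‖ +
          ‖(p.1 : ℂ) * (p.1 : ℂ) ^ (-2 * (6 : ℂ))‖ := norm_add_le _ _
      _ ≤ (p.1 : ℝ) ^ 2 * ((p.1 : ℝ) ^ 6)⁻¹ + (p.1 : ℝ) * ((p.1 : ℝ) ^ 12)⁻¹ := by
          rw [norm_mul, norm_mul, norm_neg, n1, n2, Complex.norm_natCast]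
          gcongr
      _ ≤ ((p.1 : ℝ) ^ 4)⁻¹ + ((p.1 : ℝ) ^ 4)⁻¹ := by
          refine add_le_add (le_of_eq ?_) ?_
          · field_simp
          · have : (p.1 : ℝ) * ((p.1 : ℝ) ^ 12)⁻¹ = ((p.1 : ℝ) ^ 11)⁻¹ := by
              field_simp
            rw [this]
            exact inv_anti₀ (by positivity) (pow_le_pow_right₀ hp' (by norm_num))
      _ = 2 * ((p.1 : ℝ) ^ 4)⁻¹ := by ring
  have hlt : ∀ p : Pr a b, ‖u p‖ < 1 := by
    intro p
    refine (hub p).trans_lt ?_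
    have hp : (2 : ℝ) ≤ (p.1 : ℝ) := by exact_mod_cast p.2.1.two_le
    have h2 : (2 : ℝ) ^ 4 ≤ (p.1 : ℝ) ^ 4 := pow_le_pow_left₀ (by norm_num) hp 4
    have h3 : ((p.1 : ℝ) ^ 4)⁻¹ ≤ ((2 : ℝ) ^ 4)⁻¹ := inv_anti₀ (by norm_num) h2
    calc 2 * ((p.1 : ℝ) ^ 4)⁻¹ ≤ 2 * ((2 : ℝ) ^ 4)⁻¹ := by linarith
      _ < 1 := by norm_num
  have hsum : Summable u := by
    refine Summable.of_norm_bounded (g := fun p : Pr a b => 2 * ((p.1 : ℝ) ^ 4)⁻¹) ?_ hub
    refine Summable.mul_left 2 ?_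
    have h1 : Summable (fun n : ℕ => ((n : ℝ) ^ 4)⁻¹) :=
      Real.summable_nat_pow_inv.2 (by norm_num)
    exact h1.comp_injective (i := fun p : Pr a b => p.1) Subtype.val_injective
  have hne : ∀ p : Pr a b, 1 + u p ≠ 0 := by
    intro p h0
    have h1 : u p = -1 := by
      rw [eq_neg_iff_add_eq_zero, add_comm]
      exact h0
    have h2 := hlt p
    rw [h1, norm_neg, norm_one] at h2
    exact lt_irrefl _ h2
  have hfac : ∀ p : Pr a b, fac (ap a b p.1) p.1 6 = (1 + u p)⁻¹ := by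
    intro p
    rw [fac, hu]
    congr 1
    ring
  simp_rw [hfac]
  have hlog : Summable fun p : Pr a b => Complex.log ((1 + u p)⁻¹) := by
    have h1 := (Complex.summable_log_one_add_of_summable hsum).neg
    refine h1.congr fun p => ?_
    rw [Complex.log_inv]
    intro harg
    rw [Complex.arg_eq_pi_iff] at harg
    have h2 := (Complex.abs_re_le_norm (u p)).trans_lt (hlt p)
    rw [abs_lt] at h2
    have h3 := harg.1
    rw [Complex.add_re, Complex.one_re] at h3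
    linarith
  rw [← Complex.cexp_tsum_eq_tprod (fun p => inv_ne_zero (hne p)) hlog]
  exact Complex.exp_ne_zero _

/-- a function near `f` on a circle around a zero of `f` has a zero inside -/
theorem has_zero {f L : ℂ → ℂ} (hL : Differentiable ℂ L) {ρ : ℂ} {r m : ℝ} (hr : 0 < r)
    (hm : 0 < m) (hf0 : f ρ = 0) (hf : ∀ w ∈ Metric.sphere ρ r, m ≤ ‖f w‖)
    (hn : ∀ w ∈ Metric.closedBall ρ r, ‖L w - f w‖ < m / 2)
    (hnz : ∀ w ∈ Metric.closedBall ρ r, L w ≠ 0) : False := by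
  have hcl : closure (Metric.ball ρ r) = Metric.closedBall ρ r := closure_ball ρ hr.ne'
  have hd : DiffContOnCl ℂ (fun w => (L w)⁻¹) (Metric.ball ρ r) := by
    constructor
    · intro w hw
      exact ((hL w).inv (hnz w (Metric.ball_subset_closedBall hw))).differentiableWithinAt
    · rw [hcl]
      exact hL.continuous.continuousOn.inv₀ hnz
  have h1 := Complex.norm_le_of_forall_mem_frontier_norm_le (Metric.isBounded_ball) hd
    (C := (m / 2)⁻¹) (z := ρ) (fun w hw => ?_) (by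
      rw [hcl]
      exact Metric.mem_closedBall_self hr.le)
  · have h2 := hn ρ (Metric.mem_closedBall_self hr.le)
    rw [hf0, sub_zero] at h2
    have h3 := hnz ρ (Metric.mem_closedBall_self hr.le)
    rw [norm_inv] at h1
    have h4 : m / 2 ≤ ‖L ρ‖ := (inv_le_inv₀ (norm_pos_iff.2 h3) (by positivity)).1 h1
    linarith
  · rw [frontier_ball ρ hr.ne'] at hw
    have h2 := hn w (Metric.sphere_subset_closedBall hw)
    have h3 := hf w hw
    have h4 : m / 2 ≤ ‖L w‖ := by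
      have h5 := norm_sub_norm_le (f w) (L w)
      rw [norm_sub_rev] at h2
      linarith
    rw [norm_inv]
    exact inv_anti₀ (by positivity) h4

end

end Pool.Agent.H282RU.EL
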