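import Pool.Agent.H282RU.Stm3
import Pool.Agent.H307R2.LU
import Pool.Agent.H343R2.PV

set_option autoImplicit false

open Finset Filter Topology MeasureTheory Pool.Agent.H306R2.RZ Pool.Agent.H306R2.RG Pool.Agent.H282RU

namespace Pool.Agent.H282RU.E1p

open Pool.Agent.H307R2 in
theorem job : E1 := by
  intro q hqz χ m N s hq hm hN hχ hs
  have hq0 : q ≠ 0 := by omega
  have hm0 : m ≠ 0 := by omega
  have : NeZero (q * m) := ⟨Nat.mul_ne_zero hq0 hm0⟩
  have hχ1 : χ ≠ 1 := by
    intro h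
    have h1 := hχ
    rw [DirichletCharacter.isPrimitive_def, h, DirichletCharacter.conductor_one] at h1
    omega
  set χ' : DirichletCharacter ℂ (q * m) :=
    DirichletCharacter.changeLevel (Nat.dvd_mul_right q m) χ with hdef
  have hχ'1 : χ' ≠ 1 := fun h => hχ1 ((DirichletCharacter.changeLevel_eq_one_iff _).1 h)
  have hval : ∀ n : ℕ, χ' (n : ZMod (q * m)) = if n.Coprime m then χ (n : ZMod q) else 0 := by
    intro n
    by_cases h : n.Coprime (q * m)
    · have h1 : IsCoprime (n : ℤ) ((q * m : ℕ) : ℤ) := Nat.isCoprime_iff_coprime.2 h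
      have h2 := DirichletCharacter.changeLevel_eq_cast_of_dvd' χ (Nat.dvd_mul_right q m) h1
      have h3 : n.Coprime m := Nat.Coprime.coprime_mul_left_right h
      rw [if_pos h3]
      simpa using h2
    · rw [MulChar.map_nonunit χ' (by rw [ZMod.isUnit_iff_coprime]; exact h)]
      split_ifs with h3
      · have h4 : ¬ n.Coprime q := fun h5 => h (Nat.Coprime.mul_right h5 h3)
        rw [MulChar.map_nonunit χ (by rw [ZMod.isUnit_iff_coprime]; exact h4)]
      · rfl
  have hL := DirichletCharacter.LFunction_changeLevel (Nat.dvd_mul_right q m) χ (s := s)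
    (Or.inl hχ1)
  have hprod : ∏ p ∈ (q * m).primeFactors, (1 - χ (p : ZMod q) * (p : ℂ) ^ (-s)) =
      ∏ p ∈ m.primeFactors, (1 - χ (p : ZMod q) * (p : ℂ) ^ (-s)) := by
    symm
    apply Finset.prod_subset
    · rw [Nat.primeFactors_mul hq0 hm0]
      exact Finset.subset_union_right
    · intro p hp hpm
      rw [Nat.primeFactors_mul hq0 hm0, Finset.mem_union] at hp
      have hpq : p ∈ q.primeFactors := hp.resolve_right hpm
      have hpp := Nat.prime_of_mem_primeFactors hpq
      have hpd := Nat.dvd_of_mem_primeFactors hpq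
      have hnc : ¬ p.Coprime q := by
        intro h
        rw [Nat.Prime.coprime_iff_not_dvd hpp] at h
        exact h hpd
      rw [MulChar.map_nonunit χ (by rw [ZMod.isUnit_iff_coprime]; exact hnc)]
      simp
  rw [hprod] at hL
  rw [← hL, ← hdef, LFunction_eq hχ'1 hN hs]
  have hsum : ∑ n ∈ Finset.Icc 1 N, χ' (n : ZMod (q * m)) * (n : ℂ) ^ (-s) =
      ∑ n ∈ (Finset.Icc 1 N).filter (fun n => n.Coprime m), χ (n : ZMod q) * (n : ℂ) ^ (-s) := by
    rw [Finset.sum_filter]
    refine Finset.sum_congr rfl fun n _ => ?_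
    rw [hval]
    split_ifs <;> simp
  rw [hsum, add_sub_cancel_left]
  set M : ℝ := (m.divisors.card : ℝ) * (2 * Real.sqrt q * (1 + Real.log q)) with hM
  have hlog : 0 ≤ Real.log q := Real.log_natCast_nonneg q
  have hM0 : 0 ≤ M := by positivity
  have hI : ∀ K : ℕ, ‖∑ n ∈ Finset.Icc 1 K, χ' (n : ZMod (q * m))‖ ≤ M := by
    intro K
    have e : ∑ n ∈ Finset.Icc 1 K, χ' (n : ZMod (q * m)) =
        ∑ a ∈ (Finset.Icc 1 K).filter (fun a => a.Coprime m), χ (a : ZMod q) := by
      rw [Finset.sum_filter]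
      exact Finset.sum_congr rfl fun n _ => hval n
    rw [e]
    exact H343.PV q m K hq hm χ hχ
  have hE : ∀ t : ℝ, ‖Ech χ' N t‖ ≤ 2 * M := by
    intro t
    unfold Ech
    rcases le_total N ⌊t⌋₊ with h | h
    · have e : ∑ k ∈ Finset.Ioc N ⌊t⌋₊, χ' (k : ZMod (q * m)) =
          ∑ n ∈ Finset.Icc 1 ⌊t⌋₊, χ' (n : ZMod (q * m)) -
            ∑ n ∈ Finset.Icc 1 N, χ' (n : ZMod (q * m)) := by
        have h1 : ∀ K : ℕ, Finset.Icc 1 K = Finset.Ioc 0 K := by
          intro K; ext x; simp [Nat.succ_le_iff]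
        rw [h1, h1, eq_sub_iff_add_eq, add_comm]
        exact Finset.sum_Ioc_consecutive _ (Nat.zero_le _) h
      rw [e]
      refine (norm_sub_le _ _).trans ?_
      linarith [hI ⌊t⌋₊, hI N]
    · rw [Finset.Ioc_eq_empty_of_le h, Finset.sum_empty, norm_zero]
      positivity
  have hT := TM_norm_le hN hE hs
  rw [norm_mul]
  calc ‖s‖ * ‖TM N (Ech χ' N) s‖ ≤ ‖s‖ * (2 * M * ((N : ℝ) ^ (-s.re) / s.re)) := by gcongr
    _ = _ := by
      rw [hM]
      field_simp
      ring

end Pool.Agent.H282RU.E1p
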