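import Pool.Agent.H282RU.Stm3
import Pool.Agent.H423R2.RZL.HBLS

set_option autoImplicit false

open Finset Filter Topology MeasureTheory Pool.Agent.H306R2.RZ Pool.Agent.H306R2.RG Pool.Agent.H282RU

namespace Pool.Agent.H282RU.E2p

theorem js_sq_le (k : ℤ) (n : ℕ) : ‖((js k n : ℝ) : ℂ)‖ ≤ 1 := by
  rw [Complex.norm_real, Real.norm_eq_abs]
  unfold js
  rcases jacobiSym.trichotomy k n with h | h | h <;> rw [h] <;> norm_num

theorem js_mul' (e : ℤ) (d n : ℕ) : js (e * (d : ℤ)) n = js e n * js (d : ℤ) n := by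
  unfold js
  rw [jacobiSym.mul_left]
  push_cast
  ring

/-- one term -/
theorem term_le {a κ L : ℝ} (hκ : 2 * κ = 2 * a - 1) (hκ0 : 0 < κ) (e : ℤ) {n : ℕ}
    (hn : 1 ≤ n) (hnL : Real.exp (L / 20) < (n : ℝ)) {s : ℂ} (hs : a ≤ s.re) :
    ‖(js e n : ℂ) * (n : ℂ) ^ (-s)‖ ^ 2 ≤
      (n : ℝ) ^ (-(1 + κ)) * Real.exp (-(κ * L / 20)) := by
  have hn1 : (1 : ℝ) ≤ n := by exact_mod_cast hn
  have hn0 : (0 : ℝ) < n := by linarith
  have h1 : ‖(n : ℂ) ^ (-s)‖ = (n : ℝ) ^ (-s.re) := by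
    rw [Complex.norm_natCast_cpow_of_pos (by omega), Complex.neg_re]
  have h2 : ‖(js e n : ℂ) * (n : ℂ) ^ (-s)‖ ≤ (n : ℝ) ^ (-a) := by
    rw [norm_mul, h1]
    have h3 : (n : ℝ) ^ (-s.re) ≤ (n : ℝ) ^ (-a) :=
      Real.rpow_le_rpow_of_exponent_le hn1 (by linarith)
    calc ‖((js e n : ℝ) : ℂ)‖ * (n : ℝ) ^ (-s.re) ≤ 1 * (n : ℝ) ^ (-a) :=
          mul_le_mul (js_sq_le e n) h3 (Real.rpow_nonneg hn0.le _) zero_le_one
      _ = (n : ℝ) ^ (-a) := one_mul _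
  have h4 : ((n : ℝ) ^ (-a)) ^ 2 = (n : ℝ) ^ (-(1 + κ)) * (n : ℝ) ^ (-κ) := by
    rw [← Real.rpow_natCast, ← Real.rpow_mul hn0.le, ← Real.rpow_add hn0]
    congr 1
    push_cast
    linarith
  have h5 : (n : ℝ) ^ (-κ) ≤ Real.exp (-(κ * L / 20)) := by
    have h6 : (n : ℝ) ^ (-κ) ≤ (Real.exp (L / 20)) ^ (-κ) :=
      Real.rpow_le_rpow_of_nonpos (Real.exp_pos _) hnL.le (by linarith)
    refine h6.trans (le_of_eq ?_)
    rw [← Real.exp_mul]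
    congr 1
    ring
  calc ‖(js e n : ℂ) * (n : ℂ) ^ (-s)‖ ^ 2 ≤ ((n : ℝ) ^ (-a)) ^ 2 :=
        pow_le_pow_left₀ (norm_nonneg _) h2 2
    _ = (n : ℝ) ^ (-(1 + κ)) * (n : ℝ) ^ (-κ) := h4
    _ ≤ (n : ℝ) ^ (-(1 + κ)) * Real.exp (-(κ * L / 20)) :=
        mul_le_mul_of_nonneg_left h5 (Real.rpow_nonneg hn0.le _)

theorem job_of (hb : ∀ ε : ℝ, 0 < ε → ∃ C : ℝ, 0 < C ∧ ∀ M N : ℕ, 1 ≤ M → 1 ≤ N →
    LSB M N (C * ((M : ℝ) * N) ^ ε * (M + N))) : E2 := by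
  intro a R δ ha hR hδ e _
  obtain ⟨κ, hκd⟩ : ∃ κ : ℝ, κ = (2 * a - 1) / 2 := ⟨_, rfl⟩
  have hκ : 2 * κ = 2 * a - 1 := by rw [hκd]; ring
  have hκ0 : 0 < κ := by linarith
  obtain ⟨C, hC, hH⟩ := hb (κ / 80) (by positivity)
  have hsum : Summable fun n : ℕ => (n : ℝ) ^ (-(1 + κ)) :=
    Real.summable_nat_rpow.2 (by linarith)
  have hnn : ∀ n : ℕ, 0 ≤ (n : ℝ) ^ (-(1 + κ)) := fun n => Real.rpow_nonneg (Nat.cast_nonneg n) _
  obtain ⟨C', hC'⟩ : ∃ C' : ℝ, C' = ∑' n : ℕ, (n : ℝ) ^ (-(1 + κ)) := ⟨_, rfl⟩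
  have hC'0 : 0 ≤ C' := by rw [hC']; exact tsum_nonneg hnn
  obtain ⟨D, hD⟩ : ∃ D : ℝ, D = C * R ^ (κ / 80) * (R + 1) * (C' + 1) := ⟨_, rfl⟩
  have hR80 : 0 < R ^ (κ / 80) := Real.rpow_pos_of_pos hR _
  have hD0 : 0 < D := by rw [hD]; positivity
  refine ⟨max 0 (40 / κ * Real.log (D / δ)), ?_⟩
  intro L hL T hT s hs
  have hL0 : 0 ≤ L := (le_max_left _ _).trans hL
  have hL1 : 40 / κ * Real.log (D / δ) ≤ L := (le_max_right _ _).trans hL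
  have hexpL : 1 ≤ Real.exp L := Real.one_le_exp hL0
  have hDδ : D * Real.exp (-(κ * L / 40)) ≤ δ := by
    have h1 : Real.log (D / δ) ≤ κ * L / 40 := by
      have h2 : 40 / κ * Real.log (D / δ) * (κ / 40) ≤ L * (κ / 40) :=
        mul_le_mul_of_nonneg_right hL1 (by positivity)
      have h3 : 40 / κ * Real.log (D / δ) * (κ / 40) = Real.log (D / δ) := by
        field_simp
      rw [h3] at h2
      linarith
    have h2 : D / δ ≤ Real.exp (κ * L / 40) := by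
      rw [← Real.log_le_iff_le_exp (by positivity)]
      exact h1
    rw [Real.exp_neg, ← div_eq_mul_inv, div_le_iff₀ (Real.exp_pos _)]
    rw [div_le_iff₀ hδ] at h2
    linarith
  obtain ⟨M, hM⟩ : ∃ M : ℕ, M = ⌊R * Real.exp L⌋₊ := ⟨_, rfl⟩
  obtain ⟨N, hN⟩ : ∃ N : ℕ, N = ⌊Real.exp L⌋₊ := ⟨_, rfl⟩
  rw [← hM]
  rcases Nat.eq_zero_or_pos M with hM0 | hM1
  · have h0 : sqf M = ∅ := by
      rw [hM0]
      unfold sqf
      simp
    rw [h0, Finset.sum_empty]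
    positivity
  have hN1 : 1 ≤ N := by
    rw [hN]
    exact Nat.le_floor (by exact_mod_cast hexpL)
  have hMr : (M : ℝ) ≤ R * Real.exp L := by
    rw [hM]
    exact Nat.floor_le (by positivity)
  have hNr : (N : ℝ) ≤ Real.exp L := by
    rw [hN]
    exact Nat.floor_le (by positivity)
  have hM1' : (1 : ℝ) ≤ M := by exact_mod_cast hM1
  have hN1' : (1 : ℝ) ≤ N := by exact_mod_cast hN1
  classical
  have hTpos : ∀ n ∈ T, 1 ≤ n := fun n hn => (hT n hn).1.pos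
  have hTN : T ⊆ osf N := by
    intro n hn
    obtain ⟨h1, h2, h3, h4⟩ := hT n hn
    unfold osf
    rw [Finset.mem_filter, Finset.mem_Icc]
    refine ⟨⟨hTpos n hn, ?_⟩, h1, h2⟩
    rw [hN]
    exact Nat.le_floor h4
  have hls := hH M N hM1 hN1 (fun n => if n ∈ T then (js e n : ℂ) * (n : ℂ) ^ (-s) else 0)
  have hl1 : ∀ d : ℕ, ∑ n ∈ osf N, (if n ∈ T then (js e n : ℂ) * (n : ℂ) ^ (-s) else 0) *
      (js d n : ℂ) = ∑ n ∈ T, (js (e * (d : ℤ)) n : ℂ) * (n : ℂ) ^ (-s) := by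
    intro d
    have h1 : ∀ n ∈ osf N, (if n ∈ T then (js e n : ℂ) * (n : ℂ) ^ (-s) else 0) * (js d n : ℂ) =
        if n ∈ T then (js (e * (d : ℤ)) n : ℂ) * (n : ℂ) ^ (-s) else 0 := by
      intro n _
      by_cases h : n ∈ T
      · rw [if_pos h, if_pos h, js_mul']
        push_cast
        ring
      · rw [if_neg h, if_neg h, zero_mul]
    rw [Finset.sum_congr rfl h1, ← Finset.sum_filter]
    congr 1
    ext n
    rw [Finset.mem_filter]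
    exact ⟨fun h => h.2, fun h => ⟨hTN h, h⟩⟩
  have hl2 : ∑ n ∈ osf N, ‖(if n ∈ T then (js e n : ℂ) * (n : ℂ) ^ (-s) else 0)‖ ^ 2 ≤
      C' * Real.exp (-(κ * L / 20)) := by
    have h1 : ∀ n ∈ osf N, ‖(if n ∈ T then (js e n : ℂ) * (n : ℂ) ^ (-s) else 0)‖ ^ 2 ≤
        (n : ℝ) ^ (-(1 + κ)) * Real.exp (-(κ * L / 20)) := by
      intro n _
      by_cases h : n ∈ T
      · rw [if_pos h]
        exact term_le hκ hκ0 e (hTpos n h) (hT n h).2.2.1 hs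
      · rw [if_neg h, norm_zero, zero_pow two_ne_zero]
        exact mul_nonneg (hnn n) (Real.exp_pos _).le
    refine (Finset.sum_le_sum h1).trans ?_
    rw [← Finset.sum_mul, hC']
    exact mul_le_mul_of_nonneg_right (hsum.sum_le_tsum _ fun n _ => hnn n) (Real.exp_pos _).le
  have hl3 : ∑ d ∈ sqf M, ‖∑ n ∈ T, (js (e * (d : ℤ)) n : ℂ) * (n : ℂ) ^ (-s)‖ ^ 2 ≤
      C * ((M : ℝ) * N) ^ (κ / 80) * (M + N) *
        ∑ n ∈ osf N, ‖(if n ∈ T then (js e n : ℂ) * (n : ℂ) ^ (-s) else 0)‖ ^ 2 := by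
    refine le_trans (le_of_eq ?_) hls
    refine Finset.sum_congr rfl fun d _ => ?_
    rw [hl1 d]
  have hMN : ((M : ℝ) * N) ^ (κ / 80) ≤ R ^ (κ / 80) * Real.exp (κ * L / 40) := by
    have h1 : (M : ℝ) * N ≤ R * Real.exp (2 * L) := by
      have h2 : Real.exp (2 * L) = Real.exp L * Real.exp L := by
        rw [← Real.exp_add]; congr 1; ring
      rw [h2, ← mul_assoc]
      exact mul_le_mul hMr hNr (by linarith) (by positivity)
    have h3 : ((M : ℝ) * N) ^ (κ / 80) ≤ (R * Real.exp (2 * L)) ^ (κ / 80) :=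
      Real.rpow_le_rpow (by positivity) h1 (by positivity)
    refine h3.trans (le_of_eq ?_)
    rw [Real.mul_rpow hR.le (Real.exp_pos _).le, ← Real.exp_mul]
    congr 2
    ring
  have hMN2 : (M : ℝ) + N ≤ (R + 1) * Real.exp L := by linarith
  have hS0 : 0 ≤ ∑ n ∈ osf N, ‖(if n ∈ T then (js e n : ℂ) * (n : ℂ) ^ (-s) else 0)‖ ^ 2 :=
    Finset.sum_nonneg fun _ _ => by positivity
  calc ∑ d ∈ sqf M, ‖∑ n ∈ T, (js (e * (d : ℤ)) n : ℂ) * (n : ℂ) ^ (-s)‖ ^ 2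
      ≤ C * ((M : ℝ) * N) ^ (κ / 80) * (M + N) *
        ∑ n ∈ osf N, ‖(if n ∈ T then (js e n : ℂ) * (n : ℂ) ^ (-s) else 0)‖ ^ 2 := hl3
    _ ≤ C * (R ^ (κ / 80) * Real.exp (κ * L / 40)) * ((R + 1) * Real.exp L) *
        (C' * Real.exp (-(κ * L / 20))) := by
        gcongr
    _ ≤ C * (R ^ (κ / 80) * Real.exp (κ * L / 40)) * ((R + 1) * Real.exp L) *
        ((C' + 1) * Real.exp (-(κ * L / 20))) := by
        gcongr
        linarith
    _ = D * (Real.exp (κ * L / 40) * Real.exp (-(κ * L / 20))) * Real.exp L := by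
        rw [hD]; ring
    _ = D * Real.exp (-(κ * L / 40)) * Real.exp L := by
        rw [← Real.exp_add]
        congr 3
        ring
    _ ≤ δ * Real.exp L := mul_le_mul_of_nonneg_right hDδ (Real.exp_pos _).le

theorem job : E2 := job_of fun ε hε => Pool.Agent.H423R2.RZL.HBLSn.HBLS ε hε

end Pool.Agent.H282RU.E2p
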