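import Pool.Agent.H282RU.Stm2

/-!
Universality on real segments and positivity of quadratic L-functions: part PD2.
-/


set_option autoImplicit false

open Finset Filter Topology MeasureTheory Pool.Agent.H306R2.RZ Pool.Agent.H306R2.RG Pool.Agent.H282RU
open Pool.Agent.W169.QP (Na Mf)

namespace Pool.Agent.H282RU.PD2p

noncomputable section

lemma hPR (z : ℕ) : ∀ p ∈ PR 2 z, p.Prime ∧ Odd p := by
  intro p hp
  unfold PR at hp
  obtain ⟨h1, h2⟩ := Finset.mem_filter.1 hp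
  exact ⟨h2, h2.odd_of_ne_two (by have := (Finset.mem_Ioc.1 h1).1; omega)⟩

lemma big {z n : ℕ} (hn : Odd n) (h1 : n ≠ 1) (hS : ∀ p ∈ PR 2 z, ¬ p ∣ n) : z < n := by
  have hp := Nat.minFac_prime h1
  have hd := Nat.minFac_dvd n
  have h2 : n.minFac ≠ 2 := by
    intro h
    rw [h] at hd
    exact (Nat.not_even_iff_odd.2 hn) (even_iff_two_dvd.2 hd)
  have h3 : z < n.minFac := by
    by_contra h4
    push Not at h4
    exact hS _ (Finset.mem_filter.2 ⟨Finset.mem_Ioc.2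
      ⟨lt_of_le_of_ne hp.two_le (Ne.symm h2), h4⟩, hp⟩) hd
  exact h3.trans_le (Nat.minFac_le hn.pos)

lemma w_idem (φ : FD) {S : Finset ℕ} (hS : ∀ p ∈ S, p.Prime ∧ Odd p) {c : ℕ → ℤ}
    (hc : ∀ p ∈ S, c p = 1 ∨ c p = -1) (d : ℕ) : wS φ S c d * wS φ S c d = wS φ S c d := by
  unfold wS
  rw [← Finset.prod_mul_distrib]
  refine Finset.prod_congr rfl fun p hp => ?_
  rw [wS_factor φ hS hc d hp]
  split_ifs <;> norm_num

/-- the index set -/
def sL (z : ℕ) (L : ℝ) : Finset ℕ :=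
  (range (⌊Real.exp (L / 20)⌋₊ + 1)).filter (fun n => Odd n ∧ ∀ p ∈ PR 2 z, ¬ p ∣ n)

lemma moment (φ : FD) (hφ : Fam φ) (F : ℝ → ℝ) (hF : TF F) (hF0 : ∀ x, 0 ≤ F x) (z : ℕ)
    (c : ℕ → ℤ) (hc : ∀ p, c p = 1 ∨ c p = -1) (g : ℕ → ℝ) (ε : ℝ)
    (hε : ∀ T : Finset ℕ, (∀ n ∈ T, z < n) → ∑ n ∈ T, g n ≤ ε) (B D η : ℝ) (hη : 0 < η)
    (hB : ∃ L1 : ℝ, ∀ L : ℝ, L1 ≤ L → EAg φ F (Real.exp L) (wS φ (PR 2 z) c) ≤ D * B) :
    ∃ L0 : ℝ, 0 ≤ L0 ∧ ∀ L : ℝ, L0 ≤ L → ∀ b : ℕ → ℝ, (∀ n, b n ≠ 0 → n ≠ 1 ∧ Squarefree n) →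
      (∀ n, b n ^ 2 ≤ g n) → (∀ n, |b n| ≤ n) →
      EAg φ F (Real.exp L) (fun d => (wS φ (PR 2 z) c d * ∑ n ∈ sL z L, b n * jo φ d n) ^ 2) ≤
        ε * (D * B) + η := by
  obtain ⟨C, hC, hm⟩ := wmoment φ hφ F hF hF0 (PR 2 z) (hPR z) c (fun p _ => hc p)
  obtain ⟨L1, hL1⟩ := hB
  refine ⟨max (max L1 0) (5 * Real.log (4 * C / η)), le_max_of_le_left (le_max_right _ _), ?_⟩
  intro L hL b hb1 hb2 hb3
  have hLL1 : L1 ≤ L := (le_max_left _ _).trans ((le_max_left _ _).trans hL)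
  have hL0 : 0 ≤ L := (le_max_right _ _).trans ((le_max_left _ _).trans hL)
  have hL2 : 5 * Real.log (4 * C / η) ≤ L := (le_max_right _ _).trans hL
  have e1 : (fun d => (wS φ (PR 2 z) c d * ∑ n ∈ sL z L, b n * jo φ d n) ^ 2) =
      fun d => wS φ (PR 2 z) c d * (∑ n ∈ sL z L, b n * jo φ d n) ^ 2 := by
    funext d
    rw [mul_pow, sq (wS φ (PR 2 z) c d), w_idem φ (hPR z) (fun p _ => hc p) d]
  rw [e1]
  refine (hm L hL0 (sL z L) b ?_).trans (add_le_add ?_ ?_)
  · intro n hn hn0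
    obtain ⟨-, h2, h3⟩ := Finset.mem_filter.1 hn
    exact ⟨h2, (hb1 n hn0).2, h3⟩
  · have hW0 : 0 ≤ EAg φ F (Real.exp L) (wS φ (PR 2 z) c) := by
      unfold EAg
      refine div_nonneg (tsum_nonneg fun d => ?_) (Real.exp_pos L).le
      split_ifs
      · exact mul_nonneg (hF0 _) (wS_nonneg φ (hPR z) (fun p _ => hc p) d)
      · exact le_rfl
    have h1 : ∑ n ∈ sL z L, b n ^ 2 ≤ ε := by
      have h2 : ∑ n ∈ (sL z L).filter (fun n => b n ≠ 0), b n ^ 2 = ∑ n ∈ sL z L, b n ^ 2 := by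
        refine Finset.sum_filter_of_ne fun n _ hn => ?_
        intro h0
        apply hn
        rw [h0]
        ring
      rw [← h2]
      refine (Finset.sum_le_sum fun n _ => hb2 n).trans (hε _ ?_)
      intro n hn
      obtain ⟨h3, h4⟩ := Finset.mem_filter.1 hn
      obtain ⟨-, h5, h6⟩ := Finset.mem_filter.1 h3
      exact big h5 (hb1 n h4).1 h6
    have hε0 : 0 ≤ ε := by
      have := hε ∅ (by simp)
      simpa using this
    exact mul_le_mul h1 (hL1 L hLL1) hW0 hε0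
  · set Y := Real.exp (L / 20) with hY
    have hY1 : 1 ≤ Y := Real.one_le_exp (by positivity)
    have hfl : ((⌊Y⌋₊ : ℕ) : ℝ) ≤ Y := Nat.floor_le (by positivity)
    have h1 : ∑ n ∈ sL z L, |b n| * (n : ℝ) ≤ 2 * Y ^ 3 := by
      calc ∑ n ∈ sL z L, |b n| * (n : ℝ) ≤ ∑ _n ∈ sL z L, Y ^ 2 := by
            refine Finset.sum_le_sum fun n hn => ?_
            obtain ⟨h2, -⟩ := Finset.mem_filter.1 hn
            have h3 : (n : ℝ) ≤ Y := by
              have h4 : n ≤ ⌊Y⌋₊ := Nat.lt_succ_iff.1 (Finset.mem_range.1 h2)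
              exact le_trans (by exact_mod_cast h4) hfl
            have h5 : (0 : ℝ) ≤ n := Nat.cast_nonneg n
            calc |b n| * (n : ℝ) ≤ n * n := mul_le_mul_of_nonneg_right (hb3 n) h5
              _ ≤ Y * Y := mul_le_mul h3 h3 h5 (by positivity)
              _ = Y ^ 2 := by ring
        _ = ((sL z L).card : ℝ) * Y ^ 2 := by rw [Finset.sum_const, nsmul_eq_mul]
        _ ≤ (2 * Y) * Y ^ 2 := by
            refine mul_le_mul_of_nonneg_right ?_ (by positivity)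
            have h2 : (sL z L).card ≤ ⌊Y⌋₊ + 1 := by
              refine (Finset.card_filter_le _ _).trans ?_
              rw [Finset.card_range]
            have h3 : ((sL z L).card : ℝ) ≤ (⌊Y⌋₊ : ℝ) + 1 := by exact_mod_cast h2
            linarith
        _ = 2 * Y ^ 3 := by ring
    have h0 : 0 ≤ ∑ n ∈ sL z L, |b n| * (n : ℝ) :=
      Finset.sum_nonneg fun n _ => mul_nonneg (abs_nonneg _) (Nat.cast_nonneg n)
    have h2 : (∑ n ∈ sL z L, |b n| * (n : ℝ)) ^ 2 ≤ (2 * Y ^ 3) ^ 2 :=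
      pow_le_pow_left₀ h0 h1 2
    have h3 : Real.exp (-(L / 2)) * (2 * Y ^ 3) ^ 2 = 4 * Real.exp (-(L / 5)) := by
      have h4 : (2 * Y ^ 3) ^ 2 = 4 * Real.exp (3 * L / 10) := by
        have h5 : Y ^ 6 = Real.exp (3 * L / 10) := by
          rw [hY, ← Real.exp_nat_mul]
          congr 1
          push_cast
          ring
        rw [← h5]
        ring
      rw [h4, mul_left_comm, ← Real.exp_add]
      congr 2
      ring
    have h4 : C * (4 * Real.exp (-(L / 5))) ≤ η := by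
      have h5 : Real.exp (-(L / 5)) ≤ η / (4 * C) := by
        have h6 : -(L / 5) ≤ Real.log (η / (4 * C)) := by
          have h7 : Real.log (η / (4 * C)) = -Real.log (4 * C / η) := by
            rw [← Real.log_inv, inv_div]
          rw [h7]
          linarith
        calc Real.exp (-(L / 5)) ≤ Real.exp (Real.log (η / (4 * C))) := Real.exp_le_exp.2 h6
          _ = η / (4 * C) := Real.exp_log (by positivity)
      calc C * (4 * Real.exp (-(L / 5))) ≤ C * (4 * (η / (4 * C))) := by gcongr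
        _ = η := by field_simp
    calc C * (Real.exp (-(L / 2)) * (∑ n ∈ sL z L, |b n| * (n : ℝ)) ^ 2) ≤
          C * (Real.exp (-(L / 2)) * (2 * Y ^ 3) ^ 2) := by gcongr
      _ = C * (4 * Real.exp (-(L / 5))) := by rw [h3]
      _ ≤ η := h4

/-- the coefficients -/
def co (W : ℝ → ℝ) (L x : ℝ) (n : ℕ) : ℝ :=
  ((ArithmeticFunction.moebius n : ℤ) : ℝ) / Real.sqrt n * W (Real.log n / L) *
    Real.exp (-(x * Real.log n))

lemma co_sq {W : ℝ → ℝ} {K : ℝ} (hW : WT W K) {u1 : ℝ} (hu1 : 0 < u1) (L x : ℝ) (hx : u1 ≤ x)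
    {n : ℕ} (hn : 0 < n) : co W L x n ^ 2 ≤ (n : ℝ)⁻¹ * Real.exp (-(2 * u1 * Real.log n)) := by
  have hn' : (1 : ℝ) ≤ n := by exact_mod_cast hn
  have hlog : 0 ≤ Real.log n := Real.log_nonneg hn'
  unfold co
  have h1 : (((ArithmeticFunction.moebius n : ℤ) : ℝ)) ^ 2 ≤ 1 := by
    have h2 : |ArithmeticFunction.moebius n| ≤ 1 := ArithmeticFunction.abs_moebius_le_one
    have h3 : |((ArithmeticFunction.moebius n : ℤ) : ℝ)| ≤ 1 := by exact_mod_cast h2
    exact (sq_le_one_iff_abs_le_one _).2 h3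
  have h2 : W (Real.log n / L) ^ 2 ≤ 1 := (sq_le_one_iff_abs_le_one _).2 (hW.bd _)
  have h3 : Real.exp (-(x * Real.log n)) ^ 2 ≤ Real.exp (-(2 * u1 * Real.log n)) := by
    rw [← Real.exp_nat_mul]
    apply Real.exp_le_exp.2
    push_cast
    nlinarith
  have h4 : (((ArithmeticFunction.moebius n : ℤ) : ℝ) / Real.sqrt n * W (Real.log n / L) *
      Real.exp (-(x * Real.log n))) ^ 2 = (((ArithmeticFunction.moebius n : ℤ) : ℝ)) ^ 2 *
        (W (Real.log n / L) ^ 2) * ((n : ℝ)⁻¹ * Real.exp (-(x * Real.log n)) ^ 2) := by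
    rw [mul_pow, mul_pow, div_pow, Real.sq_sqrt (Nat.cast_nonneg n)]
    ring
  rw [h4]
  have h5 : (((ArithmeticFunction.moebius n : ℤ) : ℝ)) ^ 2 * (W (Real.log n / L) ^ 2) ≤ 1 :=
    mul_le_one₀ h1 (sq_nonneg _) h2
  have h6 : (n : ℝ)⁻¹ * Real.exp (-(x * Real.log n)) ^ 2 ≤
      (n : ℝ)⁻¹ * Real.exp (-(2 * u1 * Real.log n)) :=
    mul_le_mul_of_nonneg_left h3 (by positivity)
  calc _ ≤ 1 * ((n : ℝ)⁻¹ * Real.exp (-(2 * u1 * Real.log n))) :=
        mul_le_mul h5 h6 (by positivity) zero_le_one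
    _ = _ := one_mul _

/-- the majorant -/
def gm (u1 : ℝ) (n : ℕ) : ℝ := (1 + (2 / u1) ^ 2) * ((n : ℝ) ^ (-(1 + u1)))

lemma gm_eq (u1 : ℝ) {n : ℕ} (hn : 0 < n) :
    gm u1 n = (1 + (2 / u1) ^ 2) * ((n : ℝ)⁻¹ * Real.exp (-(u1 * Real.log n))) := by
  have hn' : (0 : ℝ) < n := by exact_mod_cast hn
  unfold gm
  rw [Real.rpow_def_of_pos hn', ← Real.exp_log (inv_pos.2 hn'), Real.log_inv, ← Real.exp_add]
  congr 2
  ring

lemma gm_nonneg (u1 : ℝ) (n : ℕ) : 0 ≤ gm u1 n := by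
  unfold gm
  positivity

lemma gm_vanish {u1 : ℝ} (hu1 : 0 < u1) {ε : ℝ} (hε : 0 < ε) :
    ∃ z0 : ℕ, ∀ z : ℕ, z0 ≤ z → ∀ T : Finset ℕ, (∀ n ∈ T, z < n) → ∑ n ∈ T, gm u1 n ≤ ε := by
  have hs : Summable (gm u1) := by
    unfold gm
    refine Summable.mul_left _ ?_
    exact Real.summable_nat_rpow.2 (by linarith)
  obtain ⟨s, hs2⟩ := summable_iff_vanishing_norm.1 hs ε hε
  refine ⟨s.sup id, fun z hz T hT => ?_⟩
  have h1 : Disjoint T s := by
    rw [Finset.disjoint_left]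
    intro n hn hns
    have h2 := hT n hn
    have h3 : n ≤ s.sup id := Finset.le_sup (f := id) hns
    omega
  exact (le_abs_self _).trans (hs2 T h1).le

lemma co_le {W : ℝ → ℝ} {K : ℝ} (hW : WT W K) {u1 : ℝ} (hu1 : 0 < u1) (L x : ℝ) (hx : u1 ≤ x)
    {n : ℕ} (hn : 0 < n) : co W L x n ^ 2 ≤ gm u1 n ∧
      (-Real.log n * co W L x n) ^ 2 ≤ gm u1 n ∧ |co W L x n| ≤ 1 := by
  have hn' : (1 : ℝ) ≤ n := by exact_mod_cast hn
  have hlog : 0 ≤ Real.log n := Real.log_nonneg hn'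
  have h1 := co_sq hW hu1 L x hx hn
  have hni : (0 : ℝ) < (n : ℝ)⁻¹ := by positivity
  have e1 : Real.exp (-(2 * u1 * Real.log n)) ≤ Real.exp (-(u1 * Real.log n)) := by
    apply Real.exp_le_exp.2
    nlinarith
  refine ⟨?_, ?_, ?_⟩
  · rw [gm_eq u1 hn]
    calc co W L x n ^ 2 ≤ (n : ℝ)⁻¹ * Real.exp (-(2 * u1 * Real.log n)) := h1
      _ ≤ (n : ℝ)⁻¹ * Real.exp (-(u1 * Real.log n)) := mul_le_mul_of_nonneg_left e1 hni.le
      _ ≤ (1 + (2 / u1) ^ 2) * ((n : ℝ)⁻¹ * Real.exp (-(u1 * Real.log n))) := by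
          have h2 : 0 ≤ (n : ℝ)⁻¹ * Real.exp (-(u1 * Real.log n)) := by positivity
          nlinarith [sq_nonneg (2 / u1)]
  · rw [gm_eq u1 hn]
    have h2 : Real.log n ≤ 2 / u1 * Real.exp (u1 / 2 * Real.log n) := by
      have h3 := Real.add_one_le_exp (u1 / 2 * Real.log n)
      have h4 : u1 / 2 * Real.log n ≤ Real.exp (u1 / 2 * Real.log n) := by linarith
      calc Real.log n = 2 / u1 * (u1 / 2 * Real.log n) := by field_simp
        _ ≤ _ := mul_le_mul_of_nonneg_left h4 (by positivity)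
    have h3 : Real.log n ^ 2 ≤ (2 / u1) ^ 2 * Real.exp (u1 * Real.log n) := by
      calc Real.log n ^ 2 ≤ (2 / u1 * Real.exp (u1 / 2 * Real.log n)) ^ 2 :=
            pow_le_pow_left₀ hlog h2 2
        _ = (2 / u1) ^ 2 * Real.exp (u1 * Real.log n) := by
            rw [mul_pow, ← Real.exp_nat_mul]
            congr 2
            push_cast
            ring
    have h4 : (-Real.log n * co W L x n) ^ 2 = Real.log n ^ 2 * co W L x n ^ 2 := by ring
    rw [h4]
    calc Real.log n ^ 2 * co W L x n ^ 2 ≤ ((2 / u1) ^ 2 * Real.exp (u1 * Real.log n)) *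
          ((n : ℝ)⁻¹ * Real.exp (-(2 * u1 * Real.log n))) :=
          mul_le_mul h3 h1 (sq_nonneg _) (by positivity)
      _ = (2 / u1) ^ 2 * ((n : ℝ)⁻¹ * Real.exp (-(u1 * Real.log n))) := by
          have h5 : Real.exp (u1 * Real.log n) * Real.exp (-(2 * u1 * Real.log n)) =
              Real.exp (-(u1 * Real.log n)) := by
            rw [← Real.exp_add]
            congr 1
            ring
          rw [← h5]
          ring
      _ ≤ _ := by
          have h2 : 0 ≤ (n : ℝ)⁻¹ * Real.exp (-(u1 * Real.log n)) := by positivity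
          nlinarith [sq_nonneg (2 / u1)]
  · rw [← sq_le_one_iff_abs_le_one]
    refine h1.trans ?_
    have h2 : (n : ℝ)⁻¹ ≤ 1 := inv_le_one_of_one_le₀ hn'
    have h3 : Real.exp (-(2 * u1 * Real.log n)) ≤ 1 := by
      rw [Real.exp_le_one_iff]
      nlinarith [mul_nonneg hu1.le hlog]
    exact mul_le_one₀ h2 (Real.exp_pos _).le h3

lemma co_zero (W : ℝ → ℝ) (L x : ℝ) : co W L x 0 = 0 := by
  unfold co
  simp

lemma Rg_eq (φ : FD) (z : ℕ) (L : ℝ) (W : ℝ → ℝ) (d : ℕ) (x : ℝ) :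
    Rg φ (PR 2 z) L W d x = ∑ n ∈ sL z L, co W L x n * jo φ d n := rfl

lemma Rg_sub (φ : FD) (z : ℕ) {L : ℝ} (hL : 0 ≤ L) {W : ℝ → ℝ} {K : ℝ} (hW : WT W K) (d : ℕ)
    (x : ℝ) : ∑ n ∈ sL z L, (if n = 1 then 0 else co W L x n) * jo φ d n =
      Rg φ (PR 2 z) L W d x - 1 := by
  have h1 : 1 ∈ sL z L := by
    refine Finset.mem_filter.2 ⟨?_, odd_one, ?_⟩
    · rw [Finset.mem_range]
      have h2 : 1 ≤ ⌊Real.exp (L / 20)⌋₊ := by
        rw [Nat.one_le_floor_iff]
        exact Real.one_le_exp (by positivity)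
      omega
    · intro p hp hd
      exact (hPR z p hp).1.one_lt.ne' (Nat.dvd_one.1 hd)
  rw [Rg_eq, ← Finset.add_sum_erase _ _ h1, ← Finset.add_sum_erase _ (fun n => co W L x n * jo φ d n) h1]
  have h2 : co W L x 1 * jo φ d 1 = 1 := by
    unfold co jo js
    simp [hW.zero]
  rw [h2, if_pos rfl, zero_mul, zero_add, add_sub_cancel_left]
  refine Finset.sum_congr rfl fun n hn => ?_
  rw [if_neg (Finset.ne_of_mem_erase hn)]

lemma Rg_deriv (φ : FD) (z : ℕ) (L : ℝ) (W : ℝ → ℝ) (d : ℕ) (x : ℝ) :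
    HasDerivAt (fun y => Rg φ (PR 2 z) L W d y)
      (∑ n ∈ sL z L, (-Real.log n * co W L x n) * jo φ d n) x := by
  have h : ∀ n ∈ sL z L, HasDerivAt (fun y => co W L y n * jo φ d n)
      ((-Real.log n * co W L x n) * jo φ d n) x := by
    intro n _
    refine HasDerivAt.mul_const ?_ _
    unfold co
    have h1 : HasDerivAt (fun y : ℝ => -(y * Real.log n)) (-(1 * Real.log n)) x :=
      ((hasDerivAt_id x).mul_const _).neg
    have h2 := (h1.exp).const_mul
      (((ArithmeticFunction.moebius n : ℤ) : ℝ) / Real.sqrt n * W (Real.log n / L))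
    refine h2.congr_deriv ?_
    ring
  have h2 := HasDerivAt.fun_sum h
  exact h2

theorem job (hcore : S_core) : PD2 := by
  intro W K hW u1 t τ B hu1 hu12 ht hτ hB
  obtain ⟨z0, hz0⟩ := gm_vanish hu1 (ε := t * τ ^ 2 / (12 * B)) (by positivity)
  refine ⟨z0, fun z hz c hc φ hφ F hF hF0 D hD hL1 => ?_⟩
  obtain ⟨L0, hL0, hmom⟩ := moment φ hφ F hF hF0 z c hc (gm u1) _ (hz0 z hz) B D
    (t * τ ^ 2 * D / 12) (by positivity) hL1
  refine ⟨L0, fun L hL => ?_⟩
  have hL0' : 0 ≤ L := hL0.trans hL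
  set C : ℝ := t * τ ^ 2 * D / 3 with hC
  have hCpos : 0 < C := by positivity
  have hval : t * τ ^ 2 / (12 * B) * (D * B) + t * τ ^ 2 * D / 12 = C / 2 := by
    rw [hC]
    field_simp
    ring
  have hexp : ∀ x : ℝ, x ≤ 1 / 2 → C / 2 ≤ C * Real.exp (-(1 * x)) := by
    intro x hx
    have h1 := Real.add_one_le_exp (-(1 * x))
    have h2 : 1 / 2 ≤ Real.exp (-(1 * x)) := by linarith
    nlinarith
  have hres := hcore φ F hF hF0 L u1 (1 / 2) C 1 τ hCpos one_pos hτ hu12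
    (CS φ (PR 2 z) c ∩ {d | ∃ u : ℝ, u1 ≤ u ∧ u ≤ 1 / 2 ∧ τ ≤ |Rg φ (PR 2 z) L W d u - 1|})
    (fun d hd => hd.1.1)
    (fun d x => wS φ (PR 2 z) c d *
      ∑ n ∈ sL z L, (if n = 1 then 0 else co W L x n) * jo φ d n)
    (fun d x => wS φ (PR 2 z) c d *
      ∑ n ∈ sL z L, (-Real.log n * co W L x n) * jo φ d n) ?_ ?_ ?_
  · refine hres.trans ?_
    have h1 : Real.exp (-(1 * u1)) ≤ 1 := by
      rw [Real.exp_le_one_iff]
      linarith
    have h2 : (C + 2 * C / 1) / τ ^ 2 = t * D := by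
      rw [hC]
      field_simp
      ring
    rw [h2]
    have h3 : 0 < t * D := by positivity
    nlinarith
  · intro x hx1 hx2
    refine le_trans ?_ (hexp x hx2)
    rw [← hval]
    refine hmom L hL (fun n => if n = 1 then 0 else co W L x n) ?_ ?_ ?_
    · intro n hn
      by_cases h1 : n = 1
      · exact absurd (if_pos h1) hn
      · refine ⟨h1, ?_⟩
        simp only [if_neg h1] at hn
        rw [← ArithmeticFunction.moebius_ne_zero_iff_squarefree]
        intro h0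
        apply hn
        unfold co
        rw [h0]
        simp
    · intro n
      by_cases h1 : n = 1
      · simp only [if_pos h1]
        rw [zero_pow two_ne_zero]
        exact gm_nonneg u1 n
      · simp only [if_neg h1]
        rcases Nat.eq_zero_or_pos n with h0 | h0
        · rw [h0, co_zero, zero_pow two_ne_zero]
          exact gm_nonneg u1 0
        · exact (co_le hW hu1 L x hx1 h0).1
    · intro n
      by_cases h1 : n = 1
      · simp only [if_pos h1, abs_zero]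
        exact Nat.cast_nonneg n
      · simp only [if_neg h1]
        rcases Nat.eq_zero_or_pos n with h0 | h0
        · rw [h0, co_zero, abs_zero]
          exact Nat.cast_nonneg _
        · have hn' : (1 : ℝ) ≤ n := by exact_mod_cast h0
          exact (co_le hW hu1 L x hx1 h0).2.2.trans hn'
  · intro x hx1 hx2
    refine le_trans ?_ (hexp x hx2)
    rw [← hval]
    refine hmom L hL (fun n => -Real.log n * co W L x n) ?_ ?_ ?_
    · intro n hn
      refine ⟨?_, ?_⟩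
      · rintro rfl
        apply hn
        simp
      · rw [← ArithmeticFunction.moebius_ne_zero_iff_squarefree]
        intro h0
        apply hn
        unfold co
        rw [h0]
        simp
    · intro n
      show (-Real.log n * co W L x n) ^ 2 ≤ gm u1 n
      rcases Nat.eq_zero_or_pos n with h0 | h0
      · rw [h0, co_zero, mul_zero, zero_pow two_ne_zero]
        exact gm_nonneg u1 0
      · exact (co_le hW hu1 L x hx1 h0).2.1
    · intro n
      show |-Real.log n * co W L x n| ≤ n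
      rcases Nat.eq_zero_or_pos n with h0 | h0
      · rw [h0, co_zero, mul_zero, abs_zero]
        exact Nat.cast_nonneg _
      · have hn' : (1 : ℝ) ≤ n := by exact_mod_cast h0
        have hlog : 0 ≤ Real.log n := Real.log_nonneg hn'
        have h2 : Real.log n ≤ n := (Real.log_le_sub_one_of_pos (by linarith)).trans (by linarith)
        rw [abs_mul, abs_neg, abs_of_nonneg hlog]
        calc Real.log n * |co W L x n| ≤ n * 1 :=
              mul_le_mul h2 (co_le hW hu1 L x hx1 h0).2.2 (abs_nonneg _) (by linarith)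
          _ = n := mul_one _
  · rintro d ⟨hd1, x0, hx1, hx2, hx3⟩ -
    refine ⟨x0, hx1, hx2, ?_⟩
    have hw : wS φ (PR 2 z) c d = 1 := wS_eq_one φ (hPR z) (fun p _ => hc p) hd1.2.2
    simp only [hw, one_mul, Rg_sub φ z hL0' hW d]
    set R : ℝ → ℝ := fun y => Rg φ (PR 2 z) L W d y with hR
    set R' : ℝ → ℝ := fun y => ∑ n ∈ sL z L, (-Real.log n * co W L y n) * jo φ d n with hR'
    have hder : ∀ y, HasDerivAt (fun y => (R y - 1) ^ 2) (2 * (R y - 1) * R' y) y := by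
      intro y
      have h1 := ((Rg_deriv φ z L W d y).sub_const 1).pow 2
      refine h1.congr_deriv ?_
      simp only [hR, hR']
      norm_num
    have hcR : Continuous R :=
      continuous_iff_continuousAt.2 fun y => (Rg_deriv φ z L W d y).continuousAt
    have hcR' : Continuous R' := by
      rw [hR']
      unfold co
      fun_prop
    have hint := intervalIntegral.integral_eq_sub_of_hasDerivAt (a := x0) (b := 1 / 2)
      (fun y _ => hder y)
      (((continuous_const.mul (hcR.sub continuous_const)).mul hcR').intervalIntegrable _ _)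
    have h1 : |∫ y in x0..(1 / 2), 2 * (R y - 1) * R' y| ≤
        ∫ y in x0..(1 / 2), 2 * |R y - 1| * |R' y| := by
      refine (intervalIntegral.abs_integral_le_integral_abs hx2).trans (le_of_eq ?_)
      refine intervalIntegral.integral_congr fun y _ => ?_
      show |2 * (R y - 1) * R' y| = 2 * |R y - 1| * |R' y|
      rw [abs_mul, abs_mul, abs_of_pos (zero_lt_two : (0 : ℝ) < 2)]
    have h2 : τ ^ 2 ≤ (R x0 - 1) ^ 2 := by
      rw [← sq_abs (R x0 - 1)]
      exact pow_le_pow_left₀ hτ.le hx3 2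
    have h3 := neg_abs_le (∫ y in x0..(1 / 2), 2 * (R y - 1) * R' y)
    show τ ^ 2 ≤ (R (1 / 2) - 1) ^ 2 + ∫ y in x0..(1 / 2), 2 * |R y - 1| * |R' y|
    have h4 : (R (1 / 2) - 1) ^ 2 - (R x0 - 1) ^ 2 = ∫ y in x0..(1 / 2), 2 * (R y - 1) * R' y :=
      hint.symm
    linarith

end

end Pool.Agent.H282RU.PD2p
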