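import Pool.Agent.H282RU.Stm3
import Pool.Agent.H282RU.PD2

set_option autoImplicit false

/-!
Universality on compact sets and positivity of quadratic L-functions: short sums.
-/

open Finset Filter Topology MeasureTheory Pool.Agent.H306R2.RZ Pool.Agent.H306R2.RG Pool.Agent.H282RU

namespace Pool.Agent.H282RU.E3p

open Pool.Agent.R318.QL (EAg_sum)
open Pool.Agent.H282RU.PD2p

noncomputable section

/-- real and imaginary parts of the coefficients -/
def bc (T : Finset ℕ) (s : ℂ) (i : Bool) (n : ℕ) : ℝ :=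
  if n ∈ T then (if i then ((n : ℂ) ^ (-s)).re else ((n : ℂ) ^ (-s)).im) else 0

lemma bc_abs (T : Finset ℕ) (s : ℂ) (i : Bool) {n : ℕ} (hn : 0 < n) :
    |bc T s i n| ≤ (n : ℝ) ^ (-s.re) := by
  have hz : ‖(n : ℂ) ^ (-s)‖ = (n : ℝ) ^ (-s.re) := by
    rw [Complex.norm_natCast_cpow_of_pos hn, Complex.neg_re]
  rw [← hz]
  unfold bc
  by_cases h : n ∈ T
  · rw [if_pos h]
    cases i
    · simpa using Complex.abs_im_le_norm ((n : ℂ) ^ (-s))
    · simpa using Complex.abs_re_le_norm ((n : ℂ) ^ (-s))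
  · rw [if_neg h, abs_zero]
    exact norm_nonneg _

lemma bc_sq (T : Finset ℕ) (s : ℂ) (i : Bool) {a : ℝ} (hT : ∀ n ∈ T, 1 < n) (hs : a ≤ s.re)
    (n : ℕ) : bc T s i n ^ 2 ≤ PD2p.gm (2 * a - 1) n := by
  by_cases h : n ∈ T
  · have hn : 0 < n := lt_trans one_pos (hT n h)
    have hn1 : (1 : ℝ) ≤ n := by exact_mod_cast hn
    have hn0 : (0 : ℝ) < n := by linarith
    have h1 := bc_abs T s i hn
    have h2 : bc T s i n ^ 2 ≤ ((n : ℝ) ^ (-s.re)) ^ 2 := by
      rw [← sq_abs (bc T s i n)]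
      exact pow_le_pow_left₀ (abs_nonneg _) h1 2
    have h3 : ((n : ℝ) ^ (-s.re)) ^ 2 ≤ (n : ℝ) ^ (-(1 + (2 * a - 1))) := by
      rw [← Real.rpow_mul_natCast hn0.le]
      apply Real.rpow_le_rpow_of_exponent_le hn1
      push_cast
      linarith
    have h4 : (n : ℝ) ^ (-(1 + (2 * a - 1))) ≤ PD2p.gm (2 * a - 1) n := by
      unfold PD2p.gm
      have h5 : 0 ≤ (n : ℝ) ^ (-(1 + (2 * a - 1))) := by positivity
      nlinarith [sq_nonneg (2 / (2 * a - 1))]
    exact h2.trans (h3.trans h4)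
  · unfold bc
    rw [if_neg h, zero_pow two_ne_zero]
    exact gm_nonneg _ _

lemma bc_le (T : Finset ℕ) (s : ℂ) (i : Bool) (hT : ∀ n ∈ T, 1 < n) (hs : 0 ≤ s.re)
    (n : ℕ) : |bc T s i n| ≤ n := by
  by_cases h : n ∈ T
  · have hn : 0 < n := lt_trans one_pos (hT n h)
    have hn1 : (1 : ℝ) ≤ n := by exact_mod_cast hn
    refine (bc_abs T s i hn).trans (le_trans ?_ hn1)
    exact Real.rpow_le_one_of_one_le_of_nonpos hn1 (by linarith)
  · unfold bc
    rw [if_neg h, abs_zero]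
    exact Nat.cast_nonneg _

lemma sum_eq (φ : FD) (z : ℕ) (L : ℝ) (T : Finset ℕ) (hT : T ⊆ sL z L) (s : ℂ) (d : ℕ) :
    ‖∑ n ∈ T, (jo φ d n : ℂ) * (n : ℂ) ^ (-s)‖ ^ 2 =
      (∑ n ∈ sL z L, bc T s true n * jo φ d n) ^ 2 +
        (∑ n ∈ sL z L, bc T s false n * jo φ d n) ^ 2 := by
  have h : ∀ i : Bool, ∑ n ∈ sL z L, bc T s i n * jo φ d n =
      ∑ n ∈ T, bc T s i n * jo φ d n := by
    intro i
    refine (Finset.sum_subset hT fun n _ hn => ?_).symm
    unfold bc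
    rw [if_neg hn, zero_mul]
  rw [h true, h false, Complex.sq_norm, Complex.normSq_apply, ← sq, ← sq, Complex.re_sum,
    Complex.im_sum]
  congr 2
  · refine Finset.sum_congr rfl fun n hn => ?_
    unfold bc
    rw [if_pos hn, if_pos rfl, Complex.re_ofReal_mul, mul_comm]
  · refine Finset.sum_congr rfl fun n hn => ?_
    unfold bc
    rw [if_pos hn, if_neg Bool.false_ne_true, Complex.im_ofReal_mul, mul_comm]

theorem job : E3 := by
  intro a t B ha ht hB
  have hu : 0 < 2 * a - 1 := by linarith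
  obtain ⟨z0, hz0⟩ := gm_vanish hu (ε := t / (4 * B)) (by positivity)
  refine ⟨z0, fun z hz c hc φ hφ F hF hF0 D hD hL1 => ?_⟩
  obtain ⟨L0, hL0, hmom⟩ := moment φ hφ F hF hF0 z c hc (PD2p.gm (2 * a - 1)) _ (hz0 z hz) B D
    (t * D / 4) (by positivity) hL1
  refine ⟨L0, fun L hL T hT s hs => ?_⟩
  have hT1 : ∀ n ∈ T, 1 < n := fun n hn => (hT n hn).2.2.1
  have hsub : T ⊆ sL z L := by
    intro n hn
    obtain ⟨h1, -, -, h4⟩ := hT n hn
    refine Finset.mem_filter.2 ⟨?_, h1⟩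
    rw [Finset.mem_range]
    exact Nat.lt_succ_of_le (Nat.le_floor h4)
  have e1 : (fun d => wS φ (PR 2 z) c d *
      ‖∑ n ∈ T, (jo φ d n : ℂ) * (n : ℂ) ^ (-s)‖ ^ 2) =
      fun d => ∑ i ∈ (Finset.univ : Finset Bool),
        (wS φ (PR 2 z) c d * ∑ n ∈ sL z L, bc T s i n * jo φ d n) ^ 2 := by
    funext d
    rw [sum_eq φ z L T hsub s d, Fintype.sum_bool, mul_pow, mul_pow,
      sq (wS φ (PR 2 z) c d), w_idem φ (hPR z) (fun p _ => hc p) d]
    ring
  rw [e1, EAg_sum φ hF (Real.exp_pos L)]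
  have hb : ∀ i : Bool, EAg φ F (Real.exp L) (fun d => (wS φ (PR 2 z) c d *
      ∑ n ∈ sL z L, bc T s i n * jo φ d n) ^ 2) ≤ t / (4 * B) * (D * B) + t * D / 4 := by
    intro i
    refine hmom L hL (bc T s i) ?_ ?_ ?_
    · intro n hn
      have h : n ∈ T := by
        by_contra h
        apply hn
        unfold bc
        rw [if_neg h]
      exact ⟨(hT1 n h).ne', (hT n h).2.1⟩
    · exact bc_sq T s i hT1 hs
    · exact bc_le T s i hT1 (by linarith)
  rw [Fintype.sum_bool]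
  have h1 := hb true
  have h2 := hb false
  have h3 : t / (4 * B) * (D * B) = t * D / 4 := by
    field_simp
  rw [h3] at h1 h2
  have h4 : 0 < t * D := by positivity
  linarith

end

end Pool.Agent.H282RU.E3p
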