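import Pool.Agent.R318.QL.Orth

set_option autoImplicit false

/-!
Second moments over the quadratic characters with prescribed values at finitely many primes.
-/

namespace Pool.Agent.H282RU

open Finset Filter Topology MeasureTheory Pool.Agent.H306R2.RZ Pool.Agent.H306R2.RG
open Pool.Agent.R318.QL (js_le js_mul_right orth fin_supp EF_eq EAg_sum EAg_smul)

noncomputable section

/-- indicator of the condition `(e d | p) = c p` for `p ∈ S` -/
def wS (φ : FD) (S : Finset ℕ) (c : ℕ → ℤ) (d : ℕ) : ℝ :=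
  ∏ p ∈ S, (((c p : ℤ) : ℝ) / 2 * js (φ.e * (d : ℤ)) p + 1 / 2 * js (φ.e * (d : ℤ)) (p * p))

lemma js_tri (k : ℤ) (n : ℕ) : js k n = 0 ∨ js k n = 1 ∨ js k n = -1 := by
  unfold js
  rcases jacobiSym.trichotomy k n with h | h | h <;> rw [h] <;> norm_num

lemma wS_factor (φ : FD) {S : Finset ℕ} (hS : ∀ p ∈ S, p.Prime ∧ Odd p) {c : ℕ → ℤ}
    (hc : ∀ p ∈ S, c p = 1 ∨ c p = -1) (d : ℕ) {p : ℕ} (hp : p ∈ S) :
    (((c p : ℤ) : ℝ) / 2 * js (φ.e * (d : ℤ)) p + 1 / 2 * js (φ.e * (d : ℤ)) (p * p)) =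
      if js (φ.e * (d : ℤ)) p = ((c p : ℤ) : ℝ) then 1 else 0 := by
  rw [js_mul_right _ _ _ (hS p hp).1.ne_zero (hS p hp).1.ne_zero]
  rcases hc p hp with h | h <;> rcases js_tri (φ.e * (d : ℤ)) p with h2 | h2 | h2 <;>
    rw [h, h2] <;> norm_num

lemma wS_nonneg (φ : FD) {S : Finset ℕ} (hS : ∀ p ∈ S, p.Prime ∧ Odd p) {c : ℕ → ℤ}
    (hc : ∀ p ∈ S, c p = 1 ∨ c p = -1) (d : ℕ) : 0 ≤ wS φ S c d := by
  unfold wS
  refine Finset.prod_nonneg fun p hp => ?_
  rw [wS_factor φ hS hc d hp]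
  split_ifs <;> norm_num

lemma wS_le_one (φ : FD) {S : Finset ℕ} (hS : ∀ p ∈ S, p.Prime ∧ Odd p) {c : ℕ → ℤ}
    (hc : ∀ p ∈ S, c p = 1 ∨ c p = -1) (d : ℕ) : wS φ S c d ≤ 1 := by
  unfold wS
  refine Finset.prod_le_one (fun p hp => ?_) (fun p hp => ?_)
  · rw [wS_factor φ hS hc d hp]
    split_ifs <;> norm_num
  · rw [wS_factor φ hS hc d hp]
    split_ifs <;> norm_num

lemma wS_eq_one (φ : FD) {S : Finset ℕ} (hS : ∀ p ∈ S, p.Prime ∧ Odd p) {c : ℕ → ℤ}
    (hc : ∀ p ∈ S, c p = 1 ∨ c p = -1) {d : ℕ}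
    (h : ∀ p ∈ S, js (φ.e * (d : ℤ)) p = ((c p : ℤ) : ℝ)) : wS φ S c d = 1 := by
  unfold wS
  refine Finset.prod_eq_one fun p hp => ?_
  rw [wS_factor φ hS hc d hp, if_pos (h p hp)]

lemma wS_ne_zero (φ : FD) {S : Finset ℕ} (hS : ∀ p ∈ S, p.Prime ∧ Odd p) {c : ℕ → ℤ}
    (hc : ∀ p ∈ S, c p = 1 ∨ c p = -1) {d : ℕ} (h : wS φ S c d ≠ 0) :
    ∀ p ∈ S, js (φ.e * (d : ℤ)) p = ((c p : ℤ) : ℝ) := by
  intro p hp
  by_contra hne
  apply h
  unfold wS
  refine Finset.prod_eq_zero hp ?_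
  rw [wS_factor φ hS hc d hp, if_neg hne]

/-- the modulus attached to a subset -/
def mT (S T : Finset ℕ) : ℕ := (∏ p ∈ T, p) * ∏ p ∈ S \ T, p * p

lemma js_prod (k : ℤ) (T : Finset ℕ) (f : ℕ → ℕ) (hf : ∀ p ∈ T, f p ≠ 0) :
    ∏ p ∈ T, js k (f p) = js k (∏ p ∈ T, f p) := by
  classical
  induction T using Finset.induction_on with
  | empty => simp [js]
  | insert p T hp ih =>
    rw [Finset.prod_insert hp, Finset.prod_insert hp, ih fun q hq => hf q (mem_insert_of_mem hq),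
      js_mul_right _ _ _ (hf p (mem_insert_self p T))
        (Finset.prod_ne_zero_iff.2 fun q hq => hf q (mem_insert_of_mem hq))]

lemma wS_expand (φ : FD) {S : Finset ℕ} (hS : ∀ p ∈ S, p.Prime ∧ Odd p) (c : ℕ → ℤ) (d : ℕ) :
    wS φ S c d = ∑ T ∈ S.powerset, ((∏ p ∈ T, ((c p : ℤ) : ℝ) / 2) * (∏ p ∈ S \ T, (1 / 2 : ℝ))) *
      js (φ.e * (d : ℤ)) (mT S T) := by
  unfold wS
  rw [Finset.prod_add]
  refine Finset.sum_congr rfl fun T hT => ?_
  have hTS := Finset.mem_powerset.1 hT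
  rw [Finset.prod_mul_distrib, Finset.prod_mul_distrib,
    js_prod _ T (fun p => p) (fun p hp => (hS p (hTS hp)).1.ne_zero),
    js_prod _ (S \ T) (fun p => p * p) (fun p hp => by
      have := (hS p (Finset.mem_sdiff.1 hp).1).1.ne_zero
      positivity)]
  unfold mT
  rw [js_mul_right]
  · ring
  · exact Finset.prod_ne_zero_iff.2 fun p hp => (hS p (hTS hp)).1.ne_zero
  · exact Finset.prod_ne_zero_iff.2 fun p hp => by
      have := (hS p (Finset.mem_sdiff.1 hp).1).1.ne_zero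
      positivity

lemma mT_odd {S T : Finset ℕ} (hS : ∀ p ∈ S, p.Prime ∧ Odd p) (hT : T ⊆ S) : Odd (mT S T) := by
  unfold mT
  refine Odd.mul ?_ ?_
  · exact Finset.prod_induction _ Odd (fun a b => Odd.mul) odd_one fun p hp => (hS p (hT hp)).2
  · exact Finset.prod_induction _ Odd (fun a b => Odd.mul) odd_one fun p hp => by
      have := (hS p (Finset.mem_sdiff.1 hp).1).2
      exact this.mul this

lemma mT_sq {S T : Finset ℕ} (hS : ∀ p ∈ S, p.Prime ∧ Odd p) (hT : T ⊆ S) {n : ℕ} (hn : n ≠ 0)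
    (hnS : ∀ p ∈ S, ¬ p ∣ n) (hsq : IsSquare (n * mT S T)) : IsSquare n := by
  classical
  by_cases hT0 : T = ∅
  · subst hT0
    obtain ⟨k, hk⟩ := hsq
    have e : mT S ∅ = (∏ p ∈ S, p) * (∏ p ∈ S, p) := by
      unfold mT
      simp [Finset.prod_mul_distrib]
    rw [e] at hk
    set P := ∏ p ∈ S, p with hP
    have hP0 : P ≠ 0 := Finset.prod_ne_zero_iff.2 fun p hp => (hS p hp).1.ne_zero
    have h1 : P * P ∣ k * k := ⟨n, by rw [← hk]; ring⟩
    have h2 : P ∣ k := by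
      rw [← sq, ← sq] at h1
      exact (Nat.pow_dvd_pow_iff two_ne_zero).1 h1
    obtain ⟨j, hj⟩ := h2
    refine ⟨j, ?_⟩
    have h3 : P * P * n = P * P * (j * j) := by
      rw [hj] at hk
      rw [mul_comm (P * P) n, hk]
      ring
    exact Nat.eq_of_mul_eq_mul_left (Nat.mul_pos (Nat.pos_of_ne_zero hP0) (Nat.pos_of_ne_zero hP0)) h3
  · exfalso
    obtain ⟨q, hq⟩ := Finset.nonempty_iff_ne_empty.2 hT0
    have hqp := (hS q (hT hq)).1
    haveI : Fact q.Prime := ⟨hqp⟩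
    obtain ⟨k, hk⟩ := hsq
    have hm0 : mT S T ≠ 0 := by
      have := mT_odd hS hT
      rintro h
      rw [h] at this
      simp at this
    have v1 : padicValNat q (n * mT S T) = 1 := by
      rw [padicValNat.mul hn hm0, padicValNat.eq_zero_of_not_dvd (hnS q (hT hq)), zero_add]
      unfold mT
      have hA : ∏ p ∈ T, p = q * ∏ p ∈ T.erase q, p := (Finset.mul_prod_erase T (fun p => p) hq).symm
      have hB : ¬ q ∣ (∏ p ∈ T.erase q, p) * ∏ p ∈ S \ T, p * p := by
        intro hd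
        rcases (hqp.dvd_mul).1 hd with h | h
        · obtain ⟨p, hp, hpd⟩ := (hqp.prime.dvd_finset_prod_iff _).1 h
          have hp' := Finset.mem_erase.1 hp
          exact hp'.1 (((Nat.prime_dvd_prime_iff_eq hqp (hS p (hT hp'.2)).1).1 hpd).symm)
        · obtain ⟨p, hp, hpd⟩ := (hqp.prime.dvd_finset_prod_iff _).1 h
          have hp' := Finset.mem_sdiff.1 hp
          have h5 : q ∣ p := by
            rcases (hqp.dvd_mul).1 hpd with h | h <;> exact h
          have h6 := (Nat.prime_dvd_prime_iff_eq hqp (hS p hp'.1).1).1 h5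
          exact hp'.2 (h6 ▸ hq)
      rw [hA, mul_assoc]
      have h0 : (∏ p ∈ T.erase q, p) * ∏ p ∈ S \ T, p * p ≠ 0 := fun h => hB (h ▸ dvd_zero q)
      rw [padicValNat.mul hqp.ne_zero h0, padicValNat.self hqp.one_lt,
        padicValNat.eq_zero_of_not_dvd hB]
    have hk0 : k ≠ 0 := by
      rintro rfl
      simp at hk
      rcases hk with h | h
      · exact hn h
      · exact hm0 h
    rw [hk, padicValNat.mul hk0 hk0] at v1
    omega

lemma mT_le {S T : Finset ℕ} (hS : ∀ p ∈ S, p.Prime ∧ Odd p) (hT : T ⊆ S) :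
    mT S T ≤ (∏ p ∈ S, p) * (∏ p ∈ S, p) := by
  classical
  unfold mT
  rw [← Finset.prod_mul_distrib, ← Finset.prod_sdiff hT, mul_comm]
  refine Nat.mul_le_mul_left _ (Finset.prod_le_prod' fun p hp => ?_)
  exact Nat.le_mul_self p

open Classical in
/-- orthogonality in the local class -/
theorem orthS (φ : FD) (hφ : Fam φ) (F : ℝ → ℝ) (hF : TF F) (S : Finset ℕ)
    (hS : ∀ p ∈ S, p.Prime ∧ Odd p) (c : ℕ → ℤ) (hc : ∀ p ∈ S, c p = 1 ∨ c p = -1) :
    ∃ C : ℝ, 0 < C ∧ ∀ X : ℝ, 1 ≤ X → ∀ n : ℕ, Odd n → (∀ p ∈ S, ¬ p ∣ n) → ¬ IsSquare n →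
      |EAg φ F X (fun d => wS φ S c d * js (φ.e * (d : ℤ)) n)| ≤ C * (n * X ^ (-(1 / 2) : ℝ)) := by
  obtain ⟨C, hC, h⟩ := orth φ hφ F hF
  set P : ℕ := ∏ p ∈ S, p with hP
  have hP1 : 1 ≤ P := Finset.one_le_prod' fun p hp => (hS p hp).1.one_lt.le
  refine ⟨(∑ T ∈ S.powerset, 1) * (C * ((P * P : ℕ) : ℝ)) , ?_, ?_⟩
  · have : 0 < P * P := Nat.mul_pos hP1 hP1
    have h2 : (0 : ℝ) < ((P * P : ℕ) : ℝ) := by exact_mod_cast this
    have h3 : (0 : ℝ) < ∑ T ∈ S.powerset, (1 : ℝ) := by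
      rw [Finset.sum_const, Finset.card_powerset]
      simp
    positivity
  intro X hX n hn hnS hsq
  have hX0 : 0 < X := by linarith
  have e1 : (fun d : ℕ => wS φ S c d * js (φ.e * (d : ℤ)) n) = fun d : ℕ => ∑ T ∈ S.powerset,
      ((∏ p ∈ T, ((c p : ℤ) : ℝ) / 2) * (∏ p ∈ S \ T, (1 / 2 : ℝ))) *
        js (φ.e * (d : ℤ)) (n * mT S T) := by
    funext d
    rw [wS_expand φ hS c d, Finset.sum_mul]
    refine Finset.sum_congr rfl fun T hT => ?_
    have hTS := Finset.mem_powerset.1 hT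
    have hm0 : mT S T ≠ 0 := by
      have := mT_odd hS hTS
      rintro h
      rw [h] at this
      simp at this
    have hn0 : n ≠ 0 := by
      rintro rfl
      simp at hn
    rw [js_mul_right _ _ _ hn0 hm0]
    ring
  rw [e1, EAg_sum φ hF hX0]
  refine (Finset.abs_sum_le_sum_abs _ _).trans ?_
  rw [Finset.sum_mul, Finset.sum_mul]
  refine Finset.sum_le_sum fun T hT => ?_
  have hTS := Finset.mem_powerset.1 hT
  rw [EAg_smul φ hF hX0, abs_mul]
  have hn0 : n ≠ 0 := by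
    rintro rfl
    simp at hn
  have hq := h X hX (n * mT S T) (hn.mul (mT_odd hS hTS))
  rw [if_neg (fun hh => hsq (mT_sq hS hTS hn0 hnS hh)), zero_add] at hq
  have hc1 : |(∏ p ∈ T, ((c p : ℤ) : ℝ) / 2) * (∏ p ∈ S \ T, (1 / 2 : ℝ))| ≤ 1 := by
    rw [abs_mul, Finset.abs_prod, Finset.abs_prod]
    refine mul_le_one₀ (Finset.prod_le_one (fun _ _ => abs_nonneg _) fun p hp => ?_)
      (Finset.prod_nonneg fun _ _ => abs_nonneg _)
      (Finset.prod_le_one (fun _ _ => abs_nonneg _) fun p hp => ?_)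
    · rcases hc p (hTS hp) with h | h <;> rw [h] <;> norm_num [abs_le]
    · norm_num [abs_le]
  have hXp : 0 ≤ X ^ (-(1 / 2) : ℝ) := Real.rpow_nonneg hX0.le _
  calc _ ≤ 1 * (C * (((n * mT S T : ℕ) : ℝ) * X ^ (-(1 / 2) : ℝ))) :=
        mul_le_mul hc1 hq (abs_nonneg _) zero_le_one
    _ ≤ 1 * (C * ((((P * P : ℕ) : ℝ) * (n : ℝ)) * X ^ (-(1 / 2) : ℝ))) := by
        have h5 : ((n * mT S T : ℕ) : ℝ) ≤ ((P * P : ℕ) : ℝ) * (n : ℝ) := by
          have := Nat.mul_le_mul_left n (mT_le hS hTS)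
          rw [mul_comm ((P * P : ℕ) : ℝ) (n : ℝ)]
          exact_mod_cast this
        gcongr
    _ = _ := by ring

/-- squarefree numbers whose product is a square are equal -/
lemma sqf_eq {k l : ℕ} (hk : Squarefree k) (hl : Squarefree l) (h : IsSquare (k * l)) : k = l := by
  have key : ∀ x y : ℕ, Squarefree x → Squarefree y → IsSquare (x * y) → ∀ p : ℕ, p.Prime →
      p ∣ x → p ∣ y := by
    intro x y hx hy hxy p hp hpx
    by_contra hpy
    haveI : Fact p.Prime := ⟨hp⟩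
    obtain ⟨m, hm⟩ := hxy
    have hx0 := hx.ne_zero
    have hy0 := hy.ne_zero
    have v0 : padicValNat p x = 1 := by
      have h1 : 1 ≤ padicValNat p x := one_le_padicValNat_of_dvd hx0 hpx
      have h2 : padicValNat p x ≤ 1 := by
        by_contra h3
        push Not at h3
        have h4 : p ^ 2 ∣ x := (padicValNat_dvd_iff_le hx0).2 h3
        have h5 := hx p (by rw [← sq]; exact h4)
        exact hp.one_lt.ne' (Nat.isUnit_iff.1 h5)
      omega
    have v1 : padicValNat p (x * y) = 1 := by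
      rw [padicValNat.mul hx0 hy0, v0, padicValNat.eq_zero_of_not_dvd hpy]
    have hm0 : m ≠ 0 := by
      rintro rfl
      simp at hm
      rcases hm with h | h
      · exact hx0 h
      · exact hy0 h
    rw [hm, padicValNat.mul hm0 hm0] at v1
    omega
  have h1 : k ∣ l := by
    rw [← Nat.prod_primeFactors_of_squarefree hk]
    refine Finset.prod_primes_dvd l (fun p hp => (Nat.prime_of_mem_primeFactors hp).prime)
      fun p hp => key k l hk hl h p (Nat.prime_of_mem_primeFactors hp)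
        (Nat.dvd_of_mem_primeFactors hp)
  have h2 : l ∣ k := by
    rw [← Nat.prod_primeFactors_of_squarefree hl]
    refine Finset.prod_primes_dvd k (fun p hp => (Nat.prime_of_mem_primeFactors hp).prime)
      fun p hp => key l k hl hk (by rwa [mul_comm]) p (Nat.prime_of_mem_primeFactors hp)
        (Nat.dvd_of_mem_primeFactors hp)
  exact Nat.dvd_antisymm h1 h2

open Classical in
/-- mean square over the local class -/
theorem wmoment (φ : FD) (hφ : Fam φ) (F : ℝ → ℝ) (hF : TF F) (hF0 : ∀ x, 0 ≤ F x) (S : Finset ℕ)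
    (hS : ∀ p ∈ S, p.Prime ∧ Odd p) (c : ℕ → ℤ) (hc : ∀ p ∈ S, c p = 1 ∨ c p = -1) :
    ∃ C : ℝ, 0 < C ∧ ∀ L : ℝ, 0 ≤ L → ∀ (s : Finset ℕ) (a : ℕ → ℝ),
      (∀ n ∈ s, a n ≠ 0 → Odd n ∧ Squarefree n ∧ ∀ p ∈ S, ¬ p ∣ n) →
      EAg φ F (Real.exp L) (fun d => wS φ S c d * (∑ n ∈ s, a n * jo φ d n) ^ 2) ≤
        (∑ n ∈ s, a n ^ 2) * EAg φ F (Real.exp L) (wS φ S c) +
          C * (Real.exp (-(L / 2)) * (∑ n ∈ s, |a n| * n) ^ 2) := by
  obtain ⟨C, hC, h⟩ := orthS φ hφ F hF S hS c hc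
  refine ⟨C, hC, ?_⟩
  intro L hL s a ha
  have hX : 0 < Real.exp L := Real.exp_pos L
  have hX1 : 1 ≤ Real.exp L := Real.one_le_exp hL
  have hexp : Real.exp L ^ (-(1 / 2) : ℝ) = Real.exp (-(L / 2)) := by
    rw [← Real.exp_mul]
    congr 1
    ring
  have hW0 : 0 ≤ EAg φ F (Real.exp L) (wS φ S c) := by
    unfold EAg
    refine div_nonneg (tsum_nonneg fun d => ?_) hX.le
    split_ifs
    · exact mul_nonneg (hF0 _) (wS_nonneg φ hS hc d)
    · exact le_rfl
  have e1 : (fun d => wS φ S c d * (∑ n ∈ s, a n * jo φ d n) ^ 2) = fun d => ∑ k ∈ s, ∑ l ∈ s,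
      (a k * a l) * (wS φ S c d * (jo φ d k * jo φ d l)) := by
    funext d
    rw [sq, Finset.sum_mul_sum, Finset.mul_sum]
    refine Finset.sum_congr rfl fun k _ => ?_
    rw [Finset.mul_sum]
    refine Finset.sum_congr rfl fun l _ => ?_
    ring
  rw [e1, EAg_sum φ hF hX]
  have e2 : ∀ k ∈ s, EAg φ F (Real.exp L) (fun d => ∑ l ∈ s,
        (a k * a l) * (wS φ S c d * (jo φ d k * jo φ d l))) ≤
      ∑ l ∈ s, ((if k = l then a k ^ 2 else 0) * EAg φ F (Real.exp L) (wS φ S c) +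
        C * Real.exp (-(L / 2)) * ((|a k| * k) * (|a l| * l))) := by
    intro k hk
    rw [EAg_sum φ hF hX]
    refine Finset.sum_le_sum fun l hl => ?_
    rw [EAg_smul φ hF hX]
    have hR : 0 ≤ C * Real.exp (-(L / 2)) * ((|a k| * k) * (|a l| * l)) := by positivity
    by_cases hk0 : a k = 0
    · rw [hk0]
      simp
    by_cases hl0 : a l = 0
    · rw [hl0]
      by_cases hkl : k = l
      · subst hkl
        exact absurd hl0 hk0
      · simp [hkl]
    obtain ⟨ho1, hq1, hp1⟩ := ha k hk hk0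
    obtain ⟨ho2, hq2, hp2⟩ := ha l hl hl0
    by_cases hkl : k = l
    · subst hkl
      rw [if_pos rfl]
      have h1 : EAg φ F (Real.exp L) (fun d => wS φ S c d * (jo φ d k * jo φ d k)) ≤
          EAg φ F (Real.exp L) (wS φ S c) := by
        obtain ⟨U, hU⟩ := fin_supp F hF (Real.exp L) hX
        rw [EF_eq φ F _ U hU, EF_eq φ F _ U hU]
        refine div_le_div_of_nonneg_right (Finset.sum_le_sum fun d _ => ?_) hX.le
        split_ifs
        · refine mul_le_mul_of_nonneg_left ?_ (hF0 _)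
          have hj : jo φ d k * jo φ d k ≤ 1 := by
            have hj1 : |jo φ d k| ≤ 1 := by
              unfold jo
              rw [if_pos ho1]
              exact js_le _ _
            have := abs_le.1 hj1
            nlinarith
          calc _ ≤ wS φ S c d * 1 := mul_le_mul_of_nonneg_left hj (wS_nonneg φ hS hc d)
            _ = _ := mul_one _
        · exact le_rfl
      calc _ ≤ (a k * a k) * EAg φ F (Real.exp L) (wS φ S c) :=
            mul_le_mul_of_nonneg_left h1 (mul_self_nonneg _)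
        _ ≤ _ := by
            rw [sq]
            linarith
    · rw [if_neg hkl, zero_mul, zero_add]
      have hnsq : ¬ IsSquare (k * l) := by
        rintro ⟨m, hm⟩
        apply hkl
        exact sqf_eq hq1 hq2 ⟨m, hm⟩
      have hj : (fun d : ℕ => wS φ S c d * (jo φ d k * jo φ d l)) =
          fun d : ℕ => wS φ S c d * js (φ.e * (d : ℤ)) (k * l) := by
        funext d
        unfold jo
        rw [if_pos ho1, if_pos ho2, js_mul_right]
        · exact hq1.ne_zero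
        · exact hq2.ne_zero
      rw [hj]
      have hcop : ∀ p ∈ S, ¬ p ∣ k * l := by
        intro p hp hd
        rcases ((hS p hp).1.dvd_mul).1 hd with h | h
        · exact hp1 p hp h
        · exact hp2 p hp h
      have q := h (Real.exp L) hX1 (k * l) (ho1.mul ho2) hcop hnsq
      rw [hexp] at q
      calc a k * a l * EAg φ F (Real.exp L) (fun d : ℕ => wS φ S c d * js (φ.e * (d : ℤ)) (k * l))
          ≤ |a k * a l * EAg φ F (Real.exp L)
              (fun d : ℕ => wS φ S c d * js (φ.e * (d : ℤ)) (k * l))| := le_abs_self _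
        _ = (|a k| * |a l|) * |EAg φ F (Real.exp L)
              (fun d : ℕ => wS φ S c d * js (φ.e * (d : ℤ)) (k * l))| := by
            rw [abs_mul, abs_mul]
        _ ≤ (|a k| * |a l|) * (C * (((k * l : ℕ) : ℝ) * Real.exp (-(L / 2)))) :=
            mul_le_mul_of_nonneg_left q (by positivity)
        _ = _ := by
            push_cast
            ring
  refine (Finset.sum_le_sum e2).trans (le_of_eq ?_)
  simp only [Finset.sum_add_distrib, ← Finset.mul_sum, ← Finset.sum_mul, Finset.sum_ite_eq]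
  rw [sq (∑ n ∈ s, |a n| * (n : ℝ))]
  have : ∑ x ∈ s, (if x ∈ s then a x ^ 2 else 0) = ∑ x ∈ s, a x ^ 2 :=
    Finset.sum_congr rfl fun x hx => by rw [if_pos hx]
  rw [this]
  ring

end

end Pool.Agent.H282RU
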