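import Pool.Agent.H282RU.Stm3
import Pool.Agent.H282RU.SM

set_option autoImplicit false

open Finset Filter Topology MeasureTheory Pool.Agent.H306R2.RZ Pool.Agent.H306R2.RG Pool.Agent.H282RU

namespace Pool.Agent.H282RU.E5p

open Pool.Agent.R318.QL (js_mul_right)

/-- the terms -/
noncomputable def ft (k : ℤ) (s : ℂ) (n : ℕ) : ℂ := (js k n : ℂ) * (n : ℂ) ^ (-s)

lemma ft_mul (k : ℤ) (s : ℂ) {m n : ℕ} (hm : m ≠ 0) (hn : n ≠ 0) :
    ft k s (m * n) = ft k s m * ft k s n := by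
  unfold ft
  rw [js_mul_right _ _ _ hm hn, Nat.cast_mul, Complex.natCast_mul_natCast_cpow]
  push_cast
  ring

lemma ft_one (k : ℤ) (s : ℂ) : ft k s 1 = 1 := by
  unfold ft js
  rw [jacobiSym.one_right, Nat.cast_one, Complex.one_cpow]
  norm_num

lemma norm_ft_sq {k : ℤ} {s : ℂ} {a : ℝ} (ha : a ≤ s.re) {r : ℕ} (hr : 1 ≤ r) :
    ‖ft k s r‖ ^ 2 ≤ (r : ℝ) ^ (-(2 * a)) := by
  have hr0 : (0 : ℝ) < r := by exact_mod_cast hr
  have h1 : ‖ft k s r‖ ≤ (r : ℝ) ^ (-a) := by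
    unfold ft
    rw [norm_mul, Complex.norm_natCast_cpow_of_pos hr, Complex.neg_re]
    have h2 : ‖((js k r : ℝ) : ℂ)‖ ≤ 1 := by
      rw [Complex.norm_real, Real.norm_eq_abs]
      rcases js_tri k r with h | h | h <;> rw [h] <;> norm_num
    have h3 : (r : ℝ) ^ (-s.re) ≤ (r : ℝ) ^ (-a) :=
      Real.rpow_le_rpow_of_exponent_le (by exact_mod_cast hr) (by linarith)
    calc ‖((js k r : ℝ) : ℂ)‖ * (r : ℝ) ^ (-s.re) ≤ 1 * (r : ℝ) ^ (-a) :=
          mul_le_mul h2 h3 (Real.rpow_nonneg hr0.le _) zero_le_one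
      _ = _ := one_mul _
  calc ‖ft k s r‖ ^ 2 ≤ ((r : ℝ) ^ (-a)) ^ 2 := pow_le_pow_left₀ (norm_nonneg _) h1 2
    _ = (r : ℝ) ^ (-(2 * a)) := by
        rw [← Real.rpow_natCast, ← Real.rpow_mul hr0.le]
        congr 1
        push_cast
        ring

lemma big {z n : ℕ} (hn : Odd n) (h1 : n ≠ 1) (hS : ∀ p ∈ PR 2 z, ¬ p ∣ n) : z < n := by
  have hp := Nat.minFac_prime h1
  have hd := Nat.minFac_dvd n
  have h2 : n.minFac ≠ 2 := by
    intro h
    rw [h] at hd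
    exact (Nat.not_even_iff_odd.2 hn) (even_iff_two_dvd.2 hd)
  have h3 : z < n.minFac := by
    by_contra h4
    push Not at h4
    exact hS _ (Finset.mem_filter.2 ⟨Finset.mem_Ioc.2
      ⟨lt_of_le_of_ne hp.two_le (Ne.symm h2), h4⟩, hp⟩) hd
  exact h3.trans_le (Nat.minFac_le hn.pos)

lemma ro_of_dvd {z m n : ℕ} (hn : Ro z n) (h : m ∣ n) : Ro z m :=
  ⟨Odd.of_dvd_nat hn.1 h, fun p hp hpm => hn.2 p hp (hpm.trans h)⟩

lemma ro_mul {z m n : ℕ} (hm : Ro z m) (hn : Ro z n) : Ro z (m * n) := by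
  refine ⟨hm.1.mul hn.1, fun p hp h => ?_⟩
  have hpp : p.Prime := (Finset.mem_filter.1 hp).2
  rcases hpp.dvd_mul.1 h with h | h
  · exact hm.2 p hp h
  · exact hn.2 p hp h

/-- the inner sums -/
lemma inner (z M : ℕ) (k : ℤ) (s : ℂ) :
    ‖∑ m ∈ (Icc 1 M).filter (fun m => Ro z m ∧ Squarefree m), ft k s m‖ ≤
      1 + ‖TS z M k s‖ := by
  by_cases hM : 1 ≤ M
  · have e : (Icc 1 M).filter (fun m => Ro z m ∧ Squarefree m) =
        insert 1 ((Ioc 1 M).filter (fun m => Ro z m ∧ Squarefree m)) := by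
      ext m
      simp only [Finset.mem_filter, Finset.mem_Icc, Finset.mem_insert, Finset.mem_Ioc]
      constructor
      · rintro ⟨⟨h1, h2⟩, h3⟩
        by_cases h : m = 1
        · exact Or.inl h
        · exact Or.inr ⟨⟨by omega, h2⟩, h3⟩
      · rintro (rfl | ⟨⟨h1, h2⟩, h3⟩)
        · refine ⟨⟨le_rfl, hM⟩, ⟨odd_one, fun p hp h => ?_⟩, squarefree_one⟩
          have hpp : p.Prime := (Finset.mem_filter.1 hp).2
          exact hpp.one_lt.ne' (Nat.dvd_one.1 h)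
        · exact ⟨⟨h1.le, h2⟩, h3⟩
    rw [e, Finset.sum_insert (by simp), ft_one]
    refine (norm_add_le _ _).trans ?_
    rw [norm_one]
    exact le_rfl
  · have : M = 0 := by omega
    subst this
    rw [Finset.Icc_eq_empty (by norm_num), Finset.filter_empty, Finset.sum_empty, norm_zero]
    positivity

lemma split (z N : ℕ) (k : ℤ) (s : ℂ) :
    ∑ n ∈ (Ioc 1 N).filter (fun n => Ro z n), ft k s n = TS z N k s +
      ∑ r ∈ (Ioc z N).filter (fun r => Ro z r ∧ r ≠ 1),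
        ∑ m ∈ (Icc 1 (N / r ^ 2)).filter (fun m => Ro z m ∧ Squarefree m), ft k s (r ^ 2 * m) := by
  classical
  rw [← Finset.sum_filter_add_sum_filter_not _ (fun n => Squarefree n)]
  congr 1
  · rw [Finset.filter_filter]
    rfl
  · rw [Finset.sum_sigma']
    symm
    refine Finset.sum_bij (fun p _ => p.1 ^ 2 * p.2) ?_ ?_ ?_ ?_
    · rintro ⟨r, m⟩ hp
      simp only [Finset.mem_sigma, Finset.mem_filter, Finset.mem_Ioc, Finset.mem_Icc] at hp
      obtain ⟨⟨⟨hr1, hr2⟩, hr3, hr4⟩, ⟨hm1, hm2⟩, hm3, hm4⟩ := hp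
      simp only [Finset.mem_filter, Finset.mem_Ioc]
      have hr0 : 0 < r := hr3.1.pos
      have hr5 : 2 ≤ r := by omega
      have h1 : r ^ 2 * m ≤ N := by
        rw [mul_comm]
        exact (Nat.le_div_iff_mul_le (by positivity)).1 hm2
      refine ⟨⟨⟨?_, h1⟩, ?_⟩, ?_⟩
      · nlinarith
      · rw [pow_two]
        exact ro_mul (ro_mul hr3 hr3) hm3
      · intro hsq
        have h2 : r * r ∣ r ^ 2 * m := ⟨m, by ring⟩
        exact hr4 (Nat.isUnit_iff.1 (hsq r h2))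
    · rintro ⟨r, m⟩ hp ⟨r', m'⟩ hp' he
      simp only [Finset.mem_sigma, Finset.mem_filter, Finset.mem_Ioc, Finset.mem_Icc] at hp hp' he
      obtain ⟨⟨⟨hr1, hr2⟩, hr3, hr4⟩, ⟨hm1, hm2⟩, hm3, hm4⟩ := hp
      obtain ⟨⟨⟨hr1', hr2'⟩, hr3', hr4'⟩, ⟨hm1', hm2'⟩, hm3', hm4'⟩ := hp'
      have hr0 : 0 < r := hr3.1.pos
      have hr0' : 0 < r' := hr3'.1.pos
      have h1 : m = m' := by
        apply sqf_eq hm4 hm4'
        -- `m m' r² = m'² r'²`
        have h2 : (m * m') * r ^ 2 = (m' * r') ^ 2 := by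
          calc (m * m') * r ^ 2 = m' * (r ^ 2 * m) := by ring
            _ = m' * (r' ^ 2 * m') := by rw [he]
            _ = (m' * r') ^ 2 := by ring
        have h3 : r ^ 2 ∣ (m' * r') ^ 2 := ⟨m * m', by rw [← h2]; ring⟩
        have h4 : r ∣ m' * r' := (Nat.pow_dvd_pow_iff two_ne_zero).1 h3
        obtain ⟨c, hc⟩ := h4
        refine ⟨c, ?_⟩
        have h5 : r ^ 2 * (m * m') = r ^ 2 * (c * c) := by
          rw [mul_comm, h2, hc]
          ring
        exact Nat.eq_of_mul_eq_mul_left (by positivity) h5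
      subst h1
      have h2 : r ^ 2 = r' ^ 2 := Nat.eq_of_mul_eq_mul_right (by omega) he
      have h3 : r = r' := Nat.pow_left_injective (n := 2) (by norm_num) h2
      subst h3
      rfl
    · intro n hn
      simp only [Finset.mem_filter, Finset.mem_Ioc] at hn
      obtain ⟨⟨⟨hn1, hn2⟩, hn3⟩, hn4⟩ := hn
      obtain ⟨m, r, hmr, hm⟩ := Nat.sq_mul_squarefree n
      have hr0 : 0 < r := by
        rcases Nat.eq_zero_or_pos r with h | h
        · rw [h] at hmr; simp at hmr; omega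
        · exact h
      have hm0 : 0 < m := by
        rcases Nat.eq_zero_or_pos m with h | h
        · rw [h] at hmr; simp at hmr; omega
        · exact h
      have hr1 : r ≠ 1 := by
        rintro rfl
        apply hn4
        rw [← hmr]
        simpa using hm
      have hrd : r ∣ n := ⟨r * m, by rw [← hmr]; ring⟩
      have hmd : m ∣ n := ⟨r ^ 2, by rw [← hmr]; ring⟩
      have hrR := ro_of_dvd hn3 hrd
      refine ⟨⟨r, m⟩, ?_, hmr⟩
      simp only [Finset.mem_sigma, Finset.mem_filter, Finset.mem_Ioc, Finset.mem_Icc]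
      refine ⟨⟨⟨big hrR.1 hr1 hrR.2, (Nat.le_of_dvd (by omega) hrd).trans hn2⟩, hrR, hr1⟩,
        ⟨hm0, ?_⟩, ro_of_dvd hn3 hmd, hm⟩
      rw [Nat.le_div_iff_mul_le (by positivity), mul_comm, hmr]
      exact hn2
    · rintro ⟨r, m⟩ _
      rfl

/- Plain proof. js k is completely multiplicative on nonzero numbers (js_mul_right in Pool/Agent/R318/QL/Orth.lean; jacobiSym.mul_right) with values 0, 1, -1.
Every n ≥ 1 is uniquely r² m with m squarefree. -/
theorem job : E5 := by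
  intro z N k a ρ s _ has hρ hsum
  have hS : ‖∑ n ∈ (Ioc 1 N).filter (fun n => Ro z n), (js k n : ℂ) * (n : ℂ) ^ (-s)‖ ≤
      ‖TS z N k s‖ + ∑ r ∈ Ioc z N, (r : ℝ) ^ (-(2 * a)) * (1 + ‖TS z (N / r ^ 2) k s‖) := by
    have e := split z N k s
    change ‖∑ n ∈ (Ioc 1 N).filter (fun n => Ro z n), ft k s n‖ ≤ _
    rw [e]
    refine (norm_add_le _ _).trans (add_le_add le_rfl ?_)
    refine (norm_sum_le _ _).trans ?_
    refine (Finset.sum_le_sum (g := fun r : ℕ => (r : ℝ) ^ (-(2 * a)) *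
      (1 + ‖TS z (N / r ^ 2) k s‖)) ?_).trans ?_
    · intro r hr
      have hr' := (Finset.mem_filter.1 hr).2
      have hr0 : 1 ≤ r := hr'.1.1.pos
      have e2 : ∑ m ∈ (Icc 1 (N / r ^ 2)).filter (fun m => Ro z m ∧ Squarefree m),
          ft k s (r ^ 2 * m) = ft k s r ^ 2 *
          ∑ m ∈ (Icc 1 (N / r ^ 2)).filter (fun m => Ro z m ∧ Squarefree m), ft k s m := by
        rw [Finset.mul_sum]
        refine Finset.sum_congr rfl fun m hm => ?_
        have hm1 := (Finset.mem_Icc.1 (Finset.mem_filter.1 hm).1).1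
        rw [ft_mul k s (by positivity) (by omega), pow_two r, ft_mul k s (by omega) (by omega),
          pow_two]
      rw [e2, norm_mul, norm_pow]
      exact mul_le_mul (norm_ft_sq has hr0) (inner z _ k s) (norm_nonneg _)
        (Real.rpow_nonneg (Nat.cast_nonneg _) _)
    · refine Finset.sum_le_sum_of_subset_of_nonneg (Finset.filter_subset _ _) fun r _ _ => ?_
      exact mul_nonneg (Real.rpow_nonneg (Nat.cast_nonneg _) _) (by positivity)
  have hw : ∀ r : ℕ, 0 ≤ (r : ℝ) ^ (-(2 * a)) := fun r => Real.rpow_nonneg (Nat.cast_nonneg _) _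
  have hCS : (∑ r ∈ Ioc z N, (r : ℝ) ^ (-(2 * a)) * (1 + ‖TS z (N / r ^ 2) k s‖)) ^ 2 ≤
      ρ * ∑ r ∈ Ioc z N, (r : ℝ) ^ (-(2 * a)) * (2 * (1 + ‖TS z (N / r ^ 2) k s‖ ^ 2)) := by
    refine (Finset.sum_sq_le_sum_mul_sum_of_sq_le_mul (Ioc z N)
      (f := fun r : ℕ => (r : ℝ) ^ (-(2 * a)))
      (g := fun r : ℕ => (r : ℝ) ^ (-(2 * a)) * (1 + ‖TS z (N / r ^ 2) k s‖) ^ 2)
      (fun r _ => hw r) (fun r _ => mul_nonneg (hw r) (by positivity))
      fun r _ => le_of_eq (by ring)).trans ?_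
    refine mul_le_mul (hsum (Ioc z N) fun r hr => (Finset.mem_Ioc.1 hr).1) ?_
      (Finset.sum_nonneg fun r _ => mul_nonneg (hw r) (by positivity)) hρ
    refine Finset.sum_le_sum fun r _ => mul_le_mul_of_nonneg_left ?_ (hw r)
    nlinarith [sq_nonneg (1 - ‖TS z (N / r ^ 2) k s‖)]
  have e3 : ∑ r ∈ Ioc z N, (r : ℝ) ^ (-(2 * a)) * (2 * (1 + ‖TS z (N / r ^ 2) k s‖ ^ 2)) =
      2 * ∑ r ∈ Ioc z N, (r : ℝ) ^ (-(2 * a)) * (1 + ‖TS z (N / r ^ 2) k s‖ ^ 2) := by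
    rw [Finset.mul_sum]
    exact Finset.sum_congr rfl fun r _ => by ring
  rw [e3] at hCS
  have h0 : 0 ≤ ∑ r ∈ Ioc z N, (r : ℝ) ^ (-(2 * a)) * (1 + ‖TS z (N / r ^ 2) k s‖) :=
    Finset.sum_nonneg fun r _ => mul_nonneg (hw r) (by positivity)
  set A := ‖TS z N k s‖ with hA
  set B := ∑ r ∈ Ioc z N, (r : ℝ) ^ (-(2 * a)) * (1 + ‖TS z (N / r ^ 2) k s‖) with hB
  have h1 := pow_le_pow_left₀ (norm_nonneg _) hS 2
  nlinarith [sq_nonneg (A - B)]

end Pool.Agent.H282RU.E5p
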