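import Pool.Agent.H282RU.Stm2
import Pool.Agent.H306R2.RZ.Defs4

set_option autoImplicit false

/-!
Universality on compact sets and positivity of quadratic L-functions: statements.
-/

namespace Pool.Agent.H282RU

open Finset Filter Topology MeasureTheory Pool.Agent.H306R2.RZ Pool.Agent.H306R2.RG

noncomputable section

/-- odd numbers without a prime factor `≤ z` -/
def Ro (z n : ℕ) : Prop := Odd n ∧ ∀ p ∈ PR 2 z, ¬ p ∣ n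

instance (z n : ℕ) : Decidable (Ro z n) := by unfold Ro; infer_instance

/-- partial sums of `L(s,χ)` with a coprimality condition -/
def E1 : Prop := ∀ (q : ℕ) (_ : NeZero q) (χ : DirichletCharacter ℂ q) (m N : ℕ) (s : ℂ), 2 ≤ q →
  1 ≤ m → 1 ≤ N → χ.IsPrimitive → 0 < s.re →
  ‖DirichletCharacter.LFunction χ s * ∏ p ∈ m.primeFactors, (1 - χ (p : ZMod q) * (p : ℂ) ^ (-s)) -
    ∑ n ∈ (Finset.Icc 1 N).filter (fun n => n.Coprime m), χ (n : ZMod q) * (n : ℂ) ^ (-s)‖ ≤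
    ‖s‖ / s.re * (N : ℝ) ^ (-s.re) * (4 * (m.divisors.card : ℝ) * Real.sqrt q * (1 + Real.log q))

/-- long sums -/
def E2 : Prop := ∀ (a R δ : ℝ), 1 / 2 < a → 0 < R → 0 < δ →
  ∀ e : ℤ, (e = 1 ∨ e = -1 ∨ e = 2 ∨ e = -2) → ∃ L0 : ℝ, ∀ L : ℝ, L0 ≤ L → ∀ T : Finset ℕ,
  (∀ n ∈ T, Odd n ∧ Squarefree n ∧ Real.exp (L / 20) < (n : ℝ) ∧ (n : ℝ) ≤ Real.exp L) →
  ∀ s : ℂ, a ≤ s.re →
  ∑ d ∈ sqf ⌊R * Real.exp L⌋₊, ‖∑ n ∈ T, (js (e * (d : ℤ)) n : ℂ) * (n : ℂ) ^ (-s)‖ ^ 2 ≤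
    δ * Real.exp L

/-- short sums -/
def E3 : Prop := ∀ (a t B : ℝ), 1 / 2 < a → 0 < t → 0 < B → ∃ z0 : ℕ, ∀ z : ℕ, z0 ≤ z →
  ∀ c : ℕ → ℤ, (∀ p, c p = 1 ∨ c p = -1) → ∀ φ : FD, Fam φ → ∀ F : ℝ → ℝ, TF F →
  (∀ x, 0 ≤ F x) → ∀ D : ℝ, 0 < D →
  (∃ L1 : ℝ, ∀ L : ℝ, L1 ≤ L → EAg φ F (Real.exp L) (wS φ (PR 2 z) c) ≤ D * B) →
  ∃ L0 : ℝ, ∀ L : ℝ, L0 ≤ L → ∀ T : Finset ℕ,
  (∀ n ∈ T, Ro z n ∧ Squarefree n ∧ 1 < n ∧ (n : ℝ) ≤ Real.exp (L / 20)) → ∀ s : ℂ, a ≤ s.re →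
  EAg φ F (Real.exp L) (fun d => wS φ (PR 2 z) c d *
    ‖∑ n ∈ T, (jo φ d n : ℂ) * (n : ℂ) ^ (-s)‖ ^ 2) ≤ t * D

/-- `∑_{1 < n ≤ N, n rough squarefree} (k|n) n^{-s}` -/
def TS (z N : ℕ) (k : ℤ) (s : ℂ) : ℂ :=
  ∑ n ∈ (Ioc 1 N).filter (fun n => Ro z n ∧ Squarefree n), (js k n : ℂ) * (n : ℂ) ^ (-s)

/-- reduction to squarefree numbers -/
def E5 : Prop := ∀ (z N : ℕ) (k : ℤ) (a ρ : ℝ) (s : ℂ), 1 / 2 < a → a ≤ s.re → 0 ≤ ρ →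
  (∀ T : Finset ℕ, (∀ r ∈ T, z < r) → ∑ r ∈ T, (r : ℝ) ^ (-(2 * a)) ≤ ρ) →
  ‖∑ n ∈ (Ioc 1 N).filter (fun n => Ro z n), (js k n : ℂ) * (n : ℂ) ^ (-s)‖ ^ 2 ≤
    2 * ‖TS z N k s‖ ^ 2 + 4 * ρ * ∑ r ∈ Ioc z N, (r : ℝ) ^ (-(2 * a)) *
      (1 + ‖TS z (N / r ^ 2) k s‖ ^ 2)

/-- density of the finite Euler products with signs, with prescribed signs at small primes -/
def E6 : Prop := ∀ a b B : ℝ, 1 / 2 < a → a ≤ b → b < 1 → 0 < B → ∀ q : ℂ → ℂ,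
  Differentiable ℂ q → (∀ s, q ((starRingEnd ℂ) s) = (starRingEnd ℂ) (q s)) → ∀ ε : ℝ, 0 < ε →
  ∀ (z0 : ℕ) (c0 : ℕ → ℤ), (∀ p, c0 p = 1 ∨ c0 p = -1) →
  ∃ (z : ℕ) (c : ℕ → ℤ), z0 ≤ z ∧ (∀ p, c p = 1 ∨ c p = -1) ∧ (∀ p, p ≤ z0 → c p = c0 p) ∧
    ∀ s : ℂ, a ≤ s.re → s.re ≤ b → |s.im| ≤ B →
      ‖(∏ p ∈ PR 1 z, (1 - ((c p : ℤ) : ℂ) * (p : ℂ) ^ (-s)))⁻¹ - Complex.exp (q s)‖ < ε

end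

end Pool.Agent.H282RU
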