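import Pool.Agent.H282RU.E6b
import Pool.Agent.H282RU.Stm3
import Pool.Agent.Helper240.ZU.B5

/-!
Universality on compact sets: density of the finite Euler products with signs.
-/

set_option autoImplicit false

open Complex Filter Topology Set MeasureTheory ZU

namespace Pool.Agent.H282RU.E6p

/-- density of the Euler products with signs, the signs at the primes up to `M0` being prescribed -/
theorem euler_sign (a b B : ℝ) (h1 : 1 / 2 < a) (h2 : a ≤ b) (h3 : b < 1) (h4 : 0 < B)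
    (q : ℂ → ℂ) (hq : Differentiable ℂ q)
    (hqs : ∀ s, q ((starRingEnd ℂ) s) = (starRingEnd ℂ) (q s)) (ε : ℝ) (hε : 0 < ε) (M0 : ℕ)
    (c0 : ℕ → ℤ) (hc0 : ∀ p, c0 p = 1 ∨ c0 p = -1) :
    ∃ (M : ℕ) (c : ℕ → ℤ), M0 ≤ M ∧ (∀ p, c p = 1 ∨ c p = -1) ∧ (∀ p, p ≤ M0 → c p = c0 p) ∧
      ∀ s ∈ rect a b B, ‖(EM M (fun p => ((c p : ℤ) : ℂ)) s)⁻¹ - exp (q s)‖ < ε := by
  classical
  obtain ⟨C, hC, hdense⟩ := sign_dense a b ((a + 1 / 2) / 2) ((b + 1) / 2) B (B + 1)
    (by linarith) (by linarith) h2 (by linarith) (by linarith) h4 (by linarith)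
  set a' := (a + 1 / 2) / 2 with ha'
  have ha'1 : 1 / 2 < a' := by rw [ha']; linarith
  have ha'2 : a' < a := by rw [ha']; linarith
  obtain ⟨K, hK⟩ := (ZU.J_b5.rect_compact a b B).exists_bound_of_continuousOn
    (f := fun s => exp (q s)) ((Complex.continuous_exp.comp hq.continuous).continuousOn)
  set K' := max K 0 + 1 with hK'
  have hK'pos : 0 < K' := by positivity
  have hKle : ∀ s ∈ rect a b B, ‖exp (q s)‖ ≤ K' := fun s hs =>
    (hK s hs).trans (by rw [hK']; linarith [le_max_left K 0])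
  set δ := min 1 (ε / (4 * K')) with hδ
  have hδpos : 0 < δ := lt_min one_pos (by positivity)
  have hδ1 : δ ≤ 1 := min_le_left _ _
  have hδ2 : δ ≤ ε / (4 * K') := min_le_right _ _
  have hlim : Tendsto (fun X => C * √(tail a' X) + tail a' X) atTop (𝓝 0) := by
    have t := (tail_tendsto a' ha'1).1
    have t2 : Tendsto (fun X => √(tail a' X)) atTop (𝓝 0) := by
      simpa using t.sqrt
    simpa using (t2.const_mul C).add t
  have hev : ∀ᶠ X : ℕ in atTop, C * √(tail a' X) + tail a' X < δ / 2 :=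
    hlim.eventually_lt_const (by positivity)
  obtain ⟨X, hX1, hX2⟩ := (hev.and (eventually_ge_atTop (max M0 4))).exists
  have hXM : M0 ≤ X := (le_max_left _ _).trans hX2
  have hX4 : 4 ≤ X := (le_max_right _ _).trans hX2
  have hn0 : ∀ p, ‖((c0 p : ℤ) : ℂ)‖ = 1 := by
    intro p
    rcases hc0 p with h | h <;> rw [h] <;> simp
  set g : ℂ → ℂ := fun s => q s + ∑ p ∈ pr X, log (1 - ((c0 p : ℤ) : ℂ) * (p : ℂ) ^ (-s)) with hg
  have hgd : DifferentiableOn ℂ g {z : ℂ | 0 < z.re} := by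
    intro s hs
    refine DifferentiableAt.differentiableWithinAt ?_
    refine (hq s).add ?_
    refine DifferentiableAt.fun_sum fun p hp => ?_
    have hpp := (Finset.mem_filter.mp hp).2
    have h1 : DifferentiableAt ℂ (fun s : ℂ => (p : ℂ) ^ (-s)) s :=
      (differentiableAt_id.neg).const_cpow (Or.inl (by exact_mod_cast hpp.ne_zero))
    refine ((h1.const_mul _).const_sub 1).clog ?_
    rw [sub_eq_add_neg]
    refine Complex.mem_slitPlane_of_norm_lt_one ?_
    rw [norm_neg, norm_mul, hn0, one_mul]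
    exact ZU.J_b5.norm_p_lt p hpp s hs
  have hgs : ∀ s ∈ rect a' ((b + 1) / 2) (B + 1), g ((starRingEnd ℂ) s) = (starRingEnd ℂ) (g s) := by
    intro s hs
    have hsre : 0 < s.re := by have := hs.1; linarith
    simp only [hg, map_add, map_sum]
    rw [hqs]
    congr 1
    refine Finset.sum_congr rfl fun p hp => ?_
    have hpp := (Finset.mem_filter.mp hp).2
    have hp0 : (p : ℂ) ≠ 0 := by exact_mod_cast hpp.ne_zero
    have e1 : (starRingEnd ℂ) ((p : ℂ) ^ (-s)) = (p : ℂ) ^ (-(starRingEnd ℂ) s) := by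
      rw [Complex.cpow_def_of_ne_zero hp0, Complex.cpow_def_of_ne_zero hp0, ← Complex.exp_conj,
        map_mul, map_neg, ← Complex.natCast_log, Complex.conj_ofReal]
    have hsl : (1 - ((c0 p : ℤ) : ℂ) * (p : ℂ) ^ (-s)) ∈ Complex.slitPlane := by
      rw [sub_eq_add_neg]
      refine Complex.mem_slitPlane_of_norm_lt_one ?_
      rw [norm_neg, norm_mul, hn0, one_mul]
      exact ZU.J_b5.norm_p_lt p hpp s hsre
    rw [← Complex.log_conj _ (Complex.slitPlane_arg_ne_pi hsl)]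
    congr 1
    rw [map_sub, map_one, map_mul, e1, map_intCast]
  obtain ⟨Y, β, hXY, hβ, hY⟩ := hdense X g {z : ℂ | 0 < z.re}
    (isOpen_lt continuous_const Complex.continuous_re)
    (fun z hz => by have := hz.1; simp only [Set.mem_ofPred_eq]; linarith) hgd hgs (δ / 2)
    (by positivity)
  refine ⟨Y, fun p => if p ≤ X then c0 p else β p, by omega, ?_, ?_, ?_⟩
  · intro p
    by_cases hp : p ≤ X
    · simpa [hp] using hc0 p
    · simpa [hp] using hβ p
  · intro p hp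
    exact if_pos (by omega)
  intro s hs
  have hsre : a ≤ s.re := hs.1
  have hspos : 0 < s.re := by linarith
  have hβn : ∀ p, ‖((β p : ℤ) : ℂ)‖ = 1 := by
    intro p
    rcases hβ p with h | h <;> rw [h] <;> simp
  set α : ℕ → ℂ := fun p => (((if p ≤ X then c0 p else β p : ℤ)) : ℂ) with hα
  have hαn : ∀ p, ‖α p‖ = 1 := by
    intro p
    by_cases hp : p ≤ X
    · simpa [hα, hp] using hn0 p
    · simpa [hα, hp] using hβn p
  have hsplit : pr Y = pr X ∪ (Finset.Ioc X Y).filter Nat.Prime := by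
    ext p
    simp only [pr, Finset.mem_filter, Finset.mem_Icc, Finset.mem_union, Finset.mem_Ioc]
    constructor
    · rintro ⟨⟨h5, h6⟩, h7⟩
      by_cases h8 : p ≤ X
      · exact Or.inl ⟨⟨h5, h8⟩, h7⟩
      · exact Or.inr ⟨⟨by omega, h6⟩, h7⟩
    · rintro (⟨⟨h5, h6⟩, h7⟩ | ⟨⟨h5, h6⟩, h7⟩)
      · exact ⟨⟨h5, by omega⟩, h7⟩
      · exact ⟨⟨by omega, h6⟩, h7⟩
  have hdisj : Disjoint (pr X) ((Finset.Ioc X Y).filter Nat.Prime) := by
    rw [Finset.disjoint_left]
    intro p hp hp2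
    have h5 := (Finset.mem_Icc.mp (Finset.mem_filter.mp hp).1).2
    have h6 := (Finset.mem_Ioc.mp (Finset.mem_filter.mp hp2).1).1
    omega
  have hEM : EM Y α s = exp (∑ p ∈ pr Y, log (1 - α p * (p : ℂ) ^ (-s))) := by
    rw [Complex.exp_sum]
    unfold EM
    refine Finset.prod_congr rfl fun p hp => ?_
    have hpp := (Finset.mem_filter.mp hp).2
    have hlt : ‖α p * (p : ℂ) ^ (-s)‖ < 1 := by
      rw [norm_mul, hαn, one_mul]; exact ZU.J_b5.norm_p_lt p hpp s hspos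
    rw [Complex.exp_log]
    intro h0
    have : α p * (p : ℂ) ^ (-s) = 1 := (sub_eq_zero.mp h0).symm
    rw [this] at hlt
    simp at hlt
  set x : ℂ := -(∑ p ∈ pr Y, log (1 - α p * (p : ℂ) ^ (-s))) with hx
  have hEMinv : (EM Y α s)⁻¹ = exp x := by
    rw [hEM, hx, Complex.exp_neg]
  have hxq : x - q s = -(g s - ∑ p ∈ (Finset.Ioc X Y).filter Nat.Prime, ((β p : ℤ) : ℂ) * (p : ℂ) ^ (-s))
      - ∑ p ∈ (Finset.Ioc X Y).filter Nat.Prime,
        (log (1 - ((β p : ℤ) : ℂ) * (p : ℂ) ^ (-s)) + ((β p : ℤ) : ℂ) * (p : ℂ) ^ (-s)) := by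
    rw [hx, hsplit, Finset.sum_union hdisj, Finset.sum_add_distrib]
    have e1 : ∑ p ∈ pr X, log (1 - α p * (p : ℂ) ^ (-s)) =
        ∑ p ∈ pr X, log (1 - ((c0 p : ℤ) : ℂ) * (p : ℂ) ^ (-s)) := by
      refine Finset.sum_congr rfl fun p hp => ?_
      have h5 := (Finset.mem_Icc.mp (Finset.mem_filter.mp hp).1).2
      simp [hα, h5]
    have e2 : ∑ p ∈ (Finset.Ioc X Y).filter Nat.Prime, log (1 - α p * (p : ℂ) ^ (-s)) =
        ∑ p ∈ (Finset.Ioc X Y).filter Nat.Prime, log (1 - ((β p : ℤ) : ℂ) * (p : ℂ) ^ (-s)) := by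
      refine Finset.sum_congr rfl fun p hp => ?_
      have h5 := (Finset.mem_Ioc.mp (Finset.mem_filter.mp hp).1).1
      have h6 : ¬ p ≤ X := by omega
      simp [hα, h6]
    rw [e1, e2, hg]
    ring
  have hquad : ‖∑ p ∈ (Finset.Ioc X Y).filter Nat.Prime,
        (log (1 - ((β p : ℤ) : ℂ) * (p : ℂ) ^ (-s)) + ((β p : ℤ) : ℂ) * (p : ℂ) ^ (-s))‖ ≤ tail a' X := by
    refine (norm_sum_le _ _).trans ?_
    refine le_trans (Finset.sum_le_sum fun p hp => ?_)
      ((tail_tendsto a' ha'1).2 X ((Finset.Ioc X Y).filter Nat.Prime)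
        (fun n hn => (Finset.mem_Ioc.mp (Finset.mem_filter.mp hn).1).1))
    have h5 := (Finset.mem_Ioc.mp (Finset.mem_filter.mp hp).1).1
    have hp4 : (4 : ℝ) ≤ (p : ℝ) := by exact_mod_cast (by omega : 4 ≤ p)
    have hppos : 0 < p := by omega
    have hn : ‖((β p : ℤ) : ℂ) * (p : ℂ) ^ (-s)‖ = (p : ℝ) ^ (-s.re) := by
      rw [norm_mul, hβn, one_mul, Complex.norm_natCast_cpow_of_pos hppos, Complex.neg_re]
    have hhalf : (p : ℝ) ^ (-s.re) ≤ 1 / 2 := by
      calc (p : ℝ) ^ (-s.re) ≤ (p : ℝ) ^ (-(1 / 2) : ℝ) :=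
            Real.rpow_le_rpow_of_exponent_le (by linarith) (by linarith)
        _ ≤ (4 : ℝ) ^ (-(1 / 2) : ℝ) :=
            Real.rpow_le_rpow_of_nonpos (by norm_num) hp4 (by norm_num)
        _ = 1 / 2 := by
            rw [Real.rpow_neg (by norm_num), ← Real.sqrt_eq_rpow,
              show (4 : ℝ) = 2 ^ 2 by norm_num, Real.sqrt_sq (by norm_num)]
            norm_num
    refine (ZU.J_b5.log_quad _ (by rw [hn]; exact hhalf)).trans ?_
    rw [hn, ← Real.rpow_natCast, ← Real.rpow_mul (by positivity)]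
    refine Real.rpow_le_rpow_of_exponent_le (by linarith) ?_
    push_cast
    linarith
  have hxqn : ‖x - q s‖ ≤ δ := by
    rw [hxq]
    refine (norm_sub_le _ _).trans ?_
    rw [norm_neg]
    have := hY s hs
    linarith
  rw [hEMinv]
  have hfac : exp x - exp (q s) = exp (q s) * (exp (x - q s) - 1) := by
    rw [mul_sub, mul_one, ← Complex.exp_add]
    congr 2
    ring
  rw [hfac, norm_mul]
  have h10 : ‖exp (x - q s) - 1‖ ≤ 2 * δ :=
    (Complex.norm_exp_sub_one_le (hxqn.trans hδ1)).trans (by linarith)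
  calc ‖exp (q s)‖ * ‖exp (x - q s) - 1‖ ≤ K' * (2 * δ) :=
        mul_le_mul (hKle s hs) h10 (norm_nonneg _) hK'pos.le
    _ ≤ K' * (2 * (ε / (4 * K'))) := by
        refine mul_le_mul_of_nonneg_left ?_ hK'pos.le
        linarith
    _ = ε / 2 := by field_simp; ring
    _ < ε := by linarith

theorem job : Pool.Agent.H282RU.E6 := by
  intro a b B h1 h2 h3 h4 q hq hqs ε hε z0 c0 hc0
  obtain ⟨M, c, hM, hc, hcc, h⟩ := euler_sign a b B h1 h2 h3 h4 q hq hqs ε hε z0 c0 hc0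
  refine ⟨M, c, hM, hc, hcc, fun s hs1 hs2 hs3 => ?_⟩
  have h5 := h s ⟨hs1, hs2, hs3⟩
  have e : pr M = PR 1 M := by
    ext p
    simp only [pr, PR, Finset.mem_filter, Finset.mem_Icc, Finset.mem_Ioc]
    constructor
    · rintro ⟨⟨h6, h7⟩, h8⟩
      exact ⟨⟨h8.one_lt, h7⟩, h8⟩
    · rintro ⟨⟨h6, h7⟩, h8⟩
      exact ⟨⟨h6.le, h7⟩, h8⟩
  unfold EM at h5
  rw [e] at h5
  exact h5

end Pool.Agent.H282RU.E6p
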