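import Pool.Agent.H282RU.E4e
import Pool.Agent.H282RU.E1
import Pool.Agent.H282RU.E2
import Pool.Agent.H282RU.E3
import Pool.Agent.H282RU.E5
import Pool.Agent.H282RU.E6

set_option autoImplicit false

/-!
Universality on compact sets and positivity of quadratic L-functions: the proved statements.
-/

namespace Pool.Agent.H282RU

theorem s_E1 : E1 := E1p.job

theorem s_E2 : E2 := E2p.job

theorem s_E3 : E3 := E3p.job

theorem s_E5 : E5 := E5p.job

theorem s_E6 : E6 := E6p.job

end Pool.Agent.H282RU
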