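import Pool.Agent.H282RU.E4e
import Pool.Agent.H282RU.FinC

/-!
Most members of every local class have an L-function without zeros in a given rectangle.
-/

set_option autoImplicit false

namespace Pool.Agent.H282RU

open Finset Filter Topology MeasureTheory Pool.Agent.H306R2.RZ Pool.Agent.H306R2.RG
open Pool.Agent.W161.LF
open Pool.Agent.H463R2.RGFIN (ch ch_spec mem_FS FS mem_le r_bd)
open Pool.Agent.H306R2.RG.LnkC (RPC POS)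

noncomputable section

/-- `L(s,χ)` has no zero in the rectangle -/
def NZr (a b B : ℝ) (p : Σ N : ℕ, DirichletCharacter ℂ N) : Prop :=
  ∃ _ : NeZero p.1, ∀ s : ℂ, a ≤ s.re → s.re ≤ b → |s.im| ≤ B →
    DirichletCharacter.LFunction p.2 s ≠ 0

lemma fam_nz {a b B : ℝ} (ha : 1 / 2 < a) (hab : a ≤ b)
    (hb : b < 1) (hB : 0 < B) {θ : ℝ} (hθ : θ < 1) :
    ∃ z0 : ℕ, ∀ z : ℕ, z0 ≤ z → ∀ c : ℕ → ℤ,
    (∀ p, c p = 1 ∨ c p = -1) → ∀ φ, Fam φ → ∃ N : ℕ, ∀ X : ℕ, N ≤ X →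
      θ * ((SFg (loc φ (PR 2 z) c) ∩ {d | d ≤ X}).ncard : ℝ) ≤
        (((SFg (loc φ (PR 2 z) c) ∩ {d | d ≤ X}) ∩
            {d | ClC a b B (1 / 2) φ z d}).ncard : ℝ) := by
  obtain ⟨z0, hz0⟩ := famC s_E1 s_E2 s_E3 s_E5 a b B ha hab hb hB (1 / 2) ((1 - θ) / 8)
    (by norm_num) (by linarith)
  refine ⟨z0, fun z hz c hc φ hφ => ?_⟩
  have hSodd : ∀ p ∈ PR 2 z, p.Prime ∧ Odd p := fun p hp => PR_odd hp
  have hc' : ∀ p ∈ PR 2 z, c p = 0 ∨ c p = 1 ∨ c p = -1 := fun p _ => Or.inr (hc p)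
  obtain ⟨N1, h1⟩ := hz0 z hz c hc φ hφ
  have hden := DEN_loc φ hφ (PR 2 z) hSodd c hc'
  set ψ := loc φ (PR 2 z) c with hψ
  have hδ : 0 < ψ.δ := (FG_loc φ hφ (PR 2 z) hSodd c hc').hδ
  have hpi : (1 / 2 : ℝ) < 8 / Real.pi ^ 2 := by
    have h3 := Real.pi_lt_four
    have h4 := Real.pi_pos
    rw [lt_div_iff₀ (by positivity)]
    nlinarith
  have hlt : ψ.δ * (1 / 2) < ψ.δ * (8 / Real.pi ^ 2) := mul_lt_mul_of_pos_left hpi hδ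
  obtain ⟨N3, h3⟩ := eventually_atTop.1 (hden.eventually (lt_mem_nhds hlt))
  refine ⟨max N1 (max N3 1), fun X hX => ?_⟩
  have hX1 : N1 ≤ X := (le_max_left _ _).trans hX
  have hX3 : N3 ≤ X := ((le_max_left _ _).trans (le_max_right _ _)).trans hX
  have hX4 : 1 ≤ X := ((le_max_right _ _).trans (le_max_right _ _)).trans hX
  have hXp : (0 : ℝ) < X := by exact_mod_cast hX4
  have k1 := h1 X hX1
  have k3 := h3 X hX3
  rw [lt_div_iff₀ hXp] at k3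
  set A : Set ℕ := SFg ψ ∩ {d | d ≤ X} with hA
  have e2 : (1 - θ) / 8 * (ψ.δ * X) ≤ (1 - θ) / 8 * (2 * (A.ncard : ℝ)) :=
    mul_le_mul_of_nonneg_left (by linarith) (by linarith)
  have e3 : 0 ≤ (1 - θ) * (A.ncard : ℝ) := mul_nonneg (by linarith) (Nat.cast_nonneg _)
  nlinarith

lemma nz_of_cl {a b B : ℝ} {φ : FD} (hφ : Fam φ) {d z : ℕ} (hd : d ∈ SFg φ)
    (hcl : ClC a b B (1 / 2) φ z d) : NZr a b B (ch φ d) := by
  obtain ⟨k1, k2, k3, k4⟩ := ch_spec hCGF hφ hd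
  refine ⟨k3, fun s s1 s2 s3 h0 => ?_⟩
  have h1 := hcl s s1 s2 s3
  rw [GC_eq, h0, zero_mul, zero_sub, norm_neg, norm_one] at h1
  norm_num at h1

theorem nzC (a b B : ℝ) (ha : 1 / 2 < a) (hab : a ≤ b) (hb : b < 1) (hB : 0 < B) (θ : ℝ)
    (hθ : θ < 1) :
    ∃ z0 : ℕ, ∀ z : ℕ, z0 ≤ z → ∀ c : ℕ → ℤ, (∀ p, c p = 1 ∨ c p = -1) → ∀ s : ℤ,
    (∃ N : ℕ, ∀ X : ℕ, N ≤ X →
      θ * ((RPC ∩ (CL (PR 1 z) c s ∩ {p | p.1 ≤ X})).ncard : ℝ) ≤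
        ((RPC ∩ ((CL (PR 1 z) c s ∩ {p | p.1 ≤ X}) ∩
          {p | NZr a b B p})).ncard : ℝ)) := by
  classical
  obtain ⟨z0, hz0⟩ := fam_nz ha hab hb hB hθ
  refine ⟨max z0 2, fun z hz c hcs s => ?_⟩
  have hz1 : z0 ≤ z := (le_max_left _ _).trans hz
  have hz2 : 2 ≤ z := (le_max_right _ _).trans hz
  have hS : ∀ p ∈ PR 1 z, p.Prime := fun p hp => (Finset.mem_filter.1 hp).2
  have hfin1 : ∀ (φ : FD) (X : ℕ), {d | FM (PR 1 z) c s φ ∧ d ∈ SFg (loc φ ((PR 1 z).erase 2) c) ∩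
      {d | d ≤ X / φ.r}}.Finite := fun φ X =>
    (Set.finite_Iic (X / φ.r)).subset fun _ h => h.2.2
  have hfin2 : ∀ (φ : FD) (hφ : Fam φ) (X : ℕ), {d | d ∈ SFg φ ∧
      ch φ d ∈ ((CL (PR 1 z) c s ∩ {p | p.1 ≤ X}) ∩ {p | NZr a b B p})}.Finite :=
    fun φ hφ X => (set_eq φ hφ (PR 1 z) hS c s X ▸ hfin1 φ X :
      {d | d ∈ SFg φ ∧ ch φ d ∈ CL (PR 1 z) c s ∩ {p | p.1 ≤ X}}.Finite).subset
        fun _ h => ⟨h.1, h.2.1⟩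
  have A1 : ∀ X : ℕ, _ := fun X => sum_fam (CL (PR 1 z) c s ∩ {p | p.1 ≤ X}) (fun φ hφ => by
    rw [set_eq φ hφ (PR 1 z) hS c s X]
    exact hfin1 φ X)
  have A2 : ∀ X : ℕ, _ := fun X => sum_fam ((CL (PR 1 z) c s ∩ {p | p.1 ≤ X}) ∩
    {p | NZr a b B p}) (fun φ hφ => hfin2 φ hφ X)
  have h' : ∀ φ : FD, ∃ N : ℕ, Fam φ → ∀ X : ℕ, N ≤ X →
      θ * ((SFg (loc φ (PR 2 z) c) ∩ {d | d ≤ X}).ncard : ℝ) ≤
        (((SFg (loc φ (PR 2 z) c) ∩ {d | d ≤ X}) ∩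
            {d | ClC a b B (1 / 2) φ z d}).ncard : ℝ) := by
    intro φ
    by_cases hφ : Fam φ
    · obtain ⟨N, hN⟩ := hz0 z hz1 c hcs φ hφ
      exact ⟨N, fun _ => hN⟩
    · exact ⟨0, fun hh => absurd hh hφ⟩
  choose Nf hNf using h'
  refine ⟨∑ φ ∈ FS, 8 * Nf φ, fun X hX => ?_⟩
  rw [(A1 X).2, (A2 X).2]
  push_cast
  rw [Finset.mul_sum]
  refine Finset.sum_le_sum fun φ hφ => ?_
  have hφ' := (mem_FS φ).1 hφ
  rw [set_eq φ hφ' (PR 1 z) hS c s X, PR_erase]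
  by_cases hFM : FM (PR 1 z) c s φ
  · simp only [hFM, true_and, Set.ofPred_mem_eq]
    have h8 : 8 * Nf φ ≤ X :=
      (Finset.single_le_sum (f := fun φ => 8 * Nf φ) (fun _ _ => Nat.zero_le _) hφ).trans hX
    have hNX : Nf φ ≤ X / φ.r := by
      rw [Nat.le_div_iff_mul_le (r_bd hφ').1]
      have := (r_bd hφ').2
      nlinarith
    refine (hNf φ hφ' (X / φ.r) hNX).trans ?_
    have hsub : (SFg (loc φ (PR 2 z) c) ∩ {d | d ≤ X / φ.r}) ∩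
            {d | ClC a b B (1 / 2) φ z d} ⊆
        {d | d ∈ SFg φ ∧ ch φ d ∈ ((CL (PR 1 z) c s ∩ {p | p.1 ≤ X}) ∩
          {p | NZr a b B p})} := by
      rintro d ⟨hd1, hd3⟩
      have hmem : d ∈ {d | d ∈ SFg φ ∧ ch φ d ∈ CL (PR 1 z) c s ∩ {p | p.1 ≤ X}} := by
        rw [set_eq φ hφ' (PR 1 z) hS c s X, PR_erase]
        exact ⟨hFM, hd1⟩
      obtain ⟨hdS, hdC⟩ := hmem
      exact ⟨hdS, hdC, nz_of_cl hφ' hdS hd3⟩
    exact_mod_cast Set.ncard_le_ncard hsub (hfin2 φ hφ' X)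
  · simp [hFM]

end

end Pool.Agent.H282RU
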