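import Pool.Agent.H282RU.MG
import Pool.Agent.Helper240.ZU.N7

/-!
Universality on compact sets: real-symmetric logarithms.
-/

set_option autoImplicit false

open Complex Filter Topology Set

namespace Pool.Agent.H282RU

/-- a number whose square is near `1` is near `1` or `-1` -/
lemma near_sign {w : ℂ} {e : ℝ} (he : e < 1) (h : ‖w ^ 2 - 1‖ ≤ e) :
    (0 < w.re ∧ ‖w - 1‖ ≤ e) ∨ (w.re < 0 ∧ ‖w + 1‖ ≤ e) := by
  have e1 : w ^ 2 - 1 = (w - 1) * (w + 1) := by ring
  have hne : w.re ≠ 0 := by
    intro h0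
    have h1 : (w ^ 2 - 1).re ≤ -1 := by
      rw [sq]
      simp only [Complex.sub_re, Complex.mul_re, Complex.one_re, h0]
      nlinarith [sq_nonneg w.im]
    have h2 := Complex.abs_re_le_norm (w ^ 2 - 1)
    have h3 : 1 ≤ |(w ^ 2 - 1).re| := by
      rw [abs_of_nonpos (by linarith)]
      linarith
    linarith
  rw [e1, norm_mul] at h
  rcases lt_or_gt_of_ne hne with hlt | hgt
  · right
    refine ⟨hlt, ?_⟩
    have h2 : 1 ≤ ‖w - 1‖ := by
      have h3 := Complex.abs_re_le_norm (w - 1)
      have h4 : 1 ≤ |(w - 1).re| := by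
        rw [Complex.sub_re, Complex.one_re, abs_of_nonpos (by linarith)]
        linarith
      linarith
    have h5 := mul_le_mul_of_nonneg_right h2 (norm_nonneg (w + 1))
    linarith
  · left
    refine ⟨hgt, ?_⟩
    have h2 : 1 ≤ ‖w + 1‖ := by
      have h3 := Complex.abs_re_le_norm (w + 1)
      have h4 : 1 ≤ |(w + 1).re| := by
        rw [Complex.add_re, Complex.one_re, abs_of_nonneg (by linarith)]
        linarith
      linarith
    have h5 := mul_le_mul_of_nonneg_left h2 (norm_nonneg (w - 1))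
    linarith

/-- a zero-free real-symmetric function, positive on the real points, is approximated by the
exponentials of real-symmetric functions -/
theorem real_log {K : Set ℂ} (hK : IsCompact K) (hKc : IsConnected Kᶜ)
    (hKs : ∀ z ∈ K, (starRingEnd ℂ) z ∈ K) (f : ℂ → ℂ) (hc : ContinuousOn f K)
    (hd : DifferentiableOn ℂ f (interior K)) (hf0 : ∀ z ∈ K, f z ≠ 0)
    (hs : ∀ z ∈ K, f ((starRingEnd ℂ) z) = (starRingEnd ℂ) (f z))
    (hpos : ∀ z ∈ K, z.im = 0 → 0 < (f z).re) (η : ℝ) (hη : 0 < η) :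
    ∃ h : ℂ → ℂ, ContinuousOn h K ∧ DifferentiableOn ℂ h (interior K) ∧
      (∀ z ∈ K, h ((starRingEnd ℂ) z) = (starRingEnd ℂ) (h z)) ∧
      ∀ z ∈ K, ‖exp (h z) - f z‖ < η := by
  classical
  -- bounds of `f`
  obtain ⟨G, hG0, hG⟩ : ∃ G : ℝ, 0 < G ∧ ∀ z ∈ K, ‖f z‖ ≤ G := by
    obtain ⟨C, hC⟩ := hK.exists_bound_of_continuousOn hc
    exact ⟨max C 1, lt_max_of_lt_right one_pos, fun z hz => (hC z hz).trans (le_max_left _ _)⟩
  obtain ⟨μ, hμ0, hμ⟩ : ∃ μ : ℝ, 0 < μ ∧ ∀ z ∈ K, μ ≤ ‖f z‖ := by
    obtain ⟨C, hC⟩ := hK.exists_bound_of_continuousOn (hc.inv₀ hf0)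
    refine ⟨(max C 1)⁻¹, by positivity, fun z hz => ?_⟩
    have h1 := (hC z hz).trans (le_max_left C 1)
    rw [Pi.inv_apply, norm_inv] at h1
    have h2 : 0 < ‖f z‖ := norm_pos_iff.2 (hf0 z hz)
    rw [inv_le_comm₀ (by positivity) h2]
    exact h1
  -- the small parameter
  obtain ⟨e, he0, he1, he2⟩ : ∃ e : ℝ, 0 < e ∧ e ≤ 1 / 8 ∧ 12 * G * e < η := by
    refine ⟨min (1 / 8) (η / (12 * G) / 2), by positivity, min_le_left _ _, ?_⟩
    have h1 : min (1 / 8) (η / (12 * G) / 2) ≤ η / (12 * G) / 2 := min_le_right _ _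
    have h2 : 12 * G * min (1 / 8) (η / (12 * G) / 2) ≤ 12 * G * (η / (12 * G) / 2) := by gcongr
    have h3 : 12 * G * (η / (12 * G) / 2) = η / 2 := by field_simp
    linarith
  obtain ⟨p, hp⟩ := ZFM.mergelyan hK hKc f hc hd (e * μ / 2) (by positivity)
  have hp0 : ∀ z ∈ K, p.eval z ≠ 0 := by
    intro z hz h0
    have h1 := hp z hz
    rw [h0, zero_sub, norm_neg] at h1
    have h2 := hμ z hz
    nlinarith
  obtain ⟨q, hq⟩ := ZU.exp_approx hK hKc p hp0 (e * μ / 2) (by positivity)
  have hqf : ∀ z ∈ K, ‖exp (q.eval z) - f z‖ ≤ e * ‖f z‖ := by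
    intro z hz
    have h1 := norm_add_le (exp (q.eval z) - p.eval z) (p.eval z - f z)
    rw [sub_add_sub_cancel] at h1
    have h2 := hq z hz
    have h3 := hp z hz
    have h4 := mul_le_mul_of_nonneg_left (hμ z hz) he0.le
    linarith
  -- conjugate polynomial
  set qs : ℂ → ℂ := fun z => (q.map (starRingEnd ℂ)).eval z with hqs
  have e0 : ∀ z : ℂ, qs z = (starRingEnd ℂ) (q.eval ((starRingEnd ℂ) z)) := by
    intro z
    have h1 := Polynomial.eval₂_at_apply (p := q) (starRingEnd ℂ) ((starRingEnd ℂ) z)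
    rw [Complex.conj_conj] at h1
    simp only [hqs]
    rw [Polynomial.eval_map, h1]
  have hqsf : ∀ z ∈ K, ‖exp (qs z) - f z‖ ≤ e * ‖f z‖ := by
    intro z hz
    have h1 := hqf _ (hKs z hz)
    rw [hs z hz, RCLike.norm_conj] at h1
    have h2 : exp (qs z) - f z =
        (starRingEnd ℂ) (exp (q.eval ((starRingEnd ℂ) z)) - (starRingEnd ℂ) (f z)) := by
      rw [map_sub, Complex.conj_conj, ← Complex.exp_conj, e0]
    rw [h2, RCLike.norm_conj]
    exact h1
  have hqd : Differentiable ℂ (fun z => q.eval z) := q.differentiable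
  have hqsd : Differentiable ℂ qs := (q.map (starRingEnd ℂ)).differentiable
  set g : ℂ → ℂ := fun z => (q.eval z + qs z) / 2 with hg
  set w : ℂ → ℂ := fun z => exp ((q.eval z - qs z) / 2) with hw
  have hgd : Differentiable ℂ g := (hqd.add hqsd).div_const 2
  have hwd : Differentiable ℂ w := ((hqd.sub hqsd).div_const 2).cexp
  have hgw : ∀ z, exp (q.eval z) = exp (g z) * w z := by
    intro z
    simp only [hg, hw, ← Complex.exp_add]
    congr 1
    ring
  have hgw2 : ∀ z, exp (qs z) * w z = exp (g z) := by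
    intro z
    simp only [hg, hw, ← Complex.exp_add]
    congr 1
    ring
  have hw2 : ∀ z, w z ^ 2 = exp (q.eval z) / exp (qs z) := by
    intro z
    simp only [hw]
    rw [← Complex.exp_nat_mul, ← Complex.exp_sub]
    congr 1
    push_cast
    ring
  -- `w ^ 2` is near `1`
  have hnear : ∀ z ∈ K, ‖w z ^ 2 - 1‖ ≤ 3 * e := by
    intro z hz
    have h1 := hqf z hz
    have h2 := hqsf z hz
    have hfz : 0 < ‖f z‖ := norm_pos_iff.2 (hf0 z hz)
    have h3 : (1 - e) * ‖f z‖ ≤ ‖exp (qs z)‖ := by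
      have := norm_sub_norm_le (f z) (exp (qs z))
      rw [← norm_neg (f z - exp (qs z)), neg_sub] at this
      linarith
    have h4 : w z ^ 2 - 1 = (exp (q.eval z) - exp (qs z)) / exp (qs z) := by
      rw [hw2]
      field_simp [Complex.exp_ne_zero]
    have h5 : ‖exp (q.eval z) - exp (qs z)‖ ≤ 2 * e * ‖f z‖ := by
      have := norm_sub_le (exp (q.eval z) - f z) (exp (qs z) - f z)
      rw [sub_sub_sub_cancel_right] at this
      linarith
    rw [h4, norm_div, div_le_iff₀ (norm_pos_iff.2 (Complex.exp_ne_zero _))]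
    have h6 : 3 * e * ((1 - e) * ‖f z‖) ≤ 3 * e * ‖exp (qs z)‖ :=
      mul_le_mul_of_nonneg_left h3 (by linarith)
    have h7 : 2 * e * ‖f z‖ ≤ 3 * e * ((1 - e) * ‖f z‖) := by
      have h8 : 0 < e * ‖f z‖ := mul_pos he0 hfz
      nlinarith
    linarith
  have hsgn : ∀ z ∈ K, (0 < (w z).re ∧ ‖w z - 1‖ ≤ 3 * e) ∨ ((w z).re < 0 ∧ ‖w z + 1‖ ≤ 3 * e) :=
    fun z hz => near_sign (by linarith) (hnear z hz)
  -- on real points the sign is positive
  have hreal : ∀ z ∈ K, z.im = 0 → 0 < (w z).re := by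
    intro z hz hz0
    rcases hsgn z hz with h1 | h1
    · exact h1.1
    · exfalso
      have hzc : (starRingEnd ℂ) z = z := Complex.conj_eq_iff_im.2 hz0
      have hfr : (f z).im = 0 := by
        have := hs z hz
        rw [hzc] at this
        exact Complex.conj_eq_iff_im.1 this.symm
      have hgr : (g z).im = 0 := by
        have h2 : g z = ((q.eval z).re : ℂ) := by
          simp only [hg]
          rw [e0, hzc, Complex.add_conj]
          push_cast
          ring
        rw [h2, Complex.ofReal_im]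
      have h3 : exp (g z) = ((Real.exp (g z).re : ℝ) : ℂ) := by
        have h4 : g z = ((g z).re : ℂ) := by
          apply Complex.ext
          · simp
          · simp [hgr]
        rw [h4, ← Complex.ofReal_exp, Complex.ofReal_re]
      have h5 := hqf z hz
      rw [hgw z, h3] at h5
      have h6 := Complex.abs_re_le_norm (((Real.exp (g z).re : ℝ) : ℂ) * w z - f z)
      rw [Complex.sub_re, Complex.re_ofReal_mul] at h6
      have h7 : Real.exp (g z).re * (w z).re < 0 :=
        mul_neg_of_pos_of_neg (Real.exp_pos _) h1.1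
      have h8 := hpos z hz hz0
      have h9 : ‖f z‖ = (f z).re := by
        have h10 : f z = ((f z).re : ℂ) := by
          apply Complex.ext
          · simp
          · simp [hfr]
        rw [h10, Complex.norm_real, Real.norm_eq_abs, Complex.ofReal_re, abs_of_pos h8]
      rw [abs_of_neg (by linarith)] at h6
      rw [h9] at h5
      nlinarith
  -- the logarithm
  set h : ℂ → ℂ := fun z => g z + if (w z).re < 0 then
    (if 0 < z.im then (Real.pi : ℂ) * I else -((Real.pi : ℂ) * I)) else 0 with hh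
  have hloc : ∀ z ∈ K, ∃ κ : ℂ, ∀ᶠ y in 𝓝 z, y ∈ K → h y = g y + κ := by
    intro z hz
    have hwc : ContinuousAt (fun y => (w y).re) z :=
      (Complex.continuous_re.comp hwd.continuous).continuousAt
    rcases hsgn z hz with h1 | h1
    · refine ⟨0, ?_⟩
      filter_upwards [hwc.eventually (lt_mem_nhds h1.1)] with y hy _
      simp only [hh]
      rw [if_neg (not_lt.2 hy.le)]
    · have hz0 : z.im ≠ 0 := fun h0 => absurd (hreal z hz h0) (not_lt.2 h1.1.le)
      have hic : ContinuousAt (fun y : ℂ => y.im) z := Complex.continuous_im.continuousAt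
      rcases lt_or_gt_of_ne hz0 with hlt | hgt
      · refine ⟨-((Real.pi : ℂ) * I), ?_⟩
        filter_upwards [hwc.eventually (gt_mem_nhds h1.1), hic.eventually (gt_mem_nhds hlt)]
          with y hy hy2 _
        simp only [hh]
        rw [if_pos hy, if_neg (not_lt.2 hy2.le)]
      · refine ⟨(Real.pi : ℂ) * I, ?_⟩
        filter_upwards [hwc.eventually (gt_mem_nhds h1.1), hic.eventually (lt_mem_nhds hgt)]
          with y hy hy2 _
        simp only [hh]
        rw [if_pos hy, if_pos hy2]
  refine ⟨h, ?_, ?_, ?_, ?_⟩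
  · intro z hz
    obtain ⟨κ, hκ⟩ := hloc z hz
    have h1 : ContinuousWithinAt (fun y => g y + κ) K z :=
      (hgd.continuous.add continuous_const).continuousWithinAt
    refine h1.congr_of_eventuallyEq ?_ (hκ.self_of_nhds hz)
    exact eventually_nhdsWithin_iff.2 hκ
  · intro z hz
    obtain ⟨κ, hκ⟩ := hloc z (interior_subset hz)
    have h1 : DifferentiableAt ℂ (fun y => g y + κ) z := (hgd z).add_const κ
    have h2 : h =ᶠ[𝓝 z] fun y => g y + κ := by
      filter_upwards [hκ, isOpen_interior.mem_nhds hz] with y hy hyK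
      exact hy (interior_subset hyK)
    exact (h1.congr_of_eventuallyEq h2).differentiableWithinAt
  · intro z hz
    have hgs : g ((starRingEnd ℂ) z) = (starRingEnd ℂ) (g z) := by
      simp only [hg]
      rw [e0, e0, Complex.conj_conj, map_div₀, map_add, Complex.conj_conj, map_ofNat, add_comm]
    have hws : (w ((starRingEnd ℂ) z)).re = (w z).re / ‖w z‖ ^ 2 := by
      have h1 : w ((starRingEnd ℂ) z) = ((starRingEnd ℂ) (w z))⁻¹ := by
        simp only [hw]
        rw [e0, e0, Complex.conj_conj, ← Complex.exp_conj, ← Complex.exp_neg]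
        congr 1
        rw [map_div₀, map_sub, Complex.conj_conj, map_ofNat]
        ring
      rw [h1, Complex.inv_re, Complex.conj_re, Complex.normSq_conj, Complex.normSq_eq_norm_sq]
    have hwn : 0 < ‖w z‖ ^ 2 := by
      have : w z ≠ 0 := by simp only [hw]; exact Complex.exp_ne_zero _
      positivity
    have hiff : (w ((starRingEnd ℂ) z)).re < 0 ↔ (w z).re < 0 := by
      rw [hws, div_lt_iff₀ hwn, zero_mul]
    simp only [hh, map_add, hgs]
    congr 1
    by_cases h1 : (w z).re < 0
    · rw [if_pos (hiff.2 h1), if_pos h1, Complex.conj_im]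
      have hz0 : z.im ≠ 0 := fun h0 => absurd (hreal z hz h0) (not_lt.2 h1.le)
      rcases lt_or_gt_of_ne hz0 with hlt | hgt
      · rw [if_pos (by linarith), if_neg (by linarith)]
        simp
      · rw [if_neg (by linarith), if_pos hgt]
        simp
    · rw [if_neg (fun h => h1 (hiff.1 h)), if_neg h1, map_zero]
  · intro z hz
    have hfz : 0 < ‖f z‖ := norm_pos_iff.2 (hf0 z hz)
    have h5 := hqf z hz
    rw [hgw z] at h5
    -- a sign `ε`
    obtain ⟨ε, hε, hε2⟩ : ∃ ε : ℂ, exp (h z) = exp (g z) * ε ∧ ‖w z - ε‖ ≤ 3 * e := by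
      rcases hsgn z hz with h1 | h1
      · refine ⟨1, ?_, h1.2⟩
        simp only [hh]
        rw [if_neg (not_lt.2 h1.1.le), add_zero, mul_one]
      · refine ⟨-1, ?_, by simpa [sub_neg_eq_add] using h1.2⟩
        simp only [hh]
        rw [if_pos h1.1]
        split_ifs
        · rw [Complex.exp_add, Complex.exp_pi_mul_I]
        · rw [Complex.exp_add, Complex.exp_neg, Complex.exp_pi_mul_I]
          norm_num
    have hwl : 5 / 8 ≤ ‖w z‖ := by
      rcases hsgn z hz with h1 | h1
      · have := norm_sub_norm_le (1 : ℂ) (1 - w z)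
        rw [sub_sub_cancel, norm_one, ← norm_neg (1 - w z), neg_sub] at this
        linarith [h1.2]
      · have := norm_sub_norm_le (w z + 1) (w z)
        have h2 : ‖(1 : ℂ)‖ ≤ ‖w z + 1‖ + ‖w z‖ := by
          have := norm_sub_le (w z + 1) (w z)
          rwa [add_sub_cancel_left] at this
        rw [norm_one] at h2
        linarith [h1.2]
    have hgn : ‖exp (g z)‖ ≤ 2 * ‖f z‖ := by
      have h6 : ‖exp (g z) * w z‖ ≤ (1 + e) * ‖f z‖ := by
        have := norm_add_le (exp (g z) * w z - f z) (f z)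
        rw [sub_add_cancel] at this
        linarith
      rw [norm_mul] at h6
      have h7 := mul_le_mul_of_nonneg_left hwl (norm_nonneg (exp (g z)))
      nlinarith
    have e3 : exp (h z) - f z = (exp (g z) * w z - f z) - exp (g z) * (w z - ε) := by
      rw [hε]
      ring
    rw [e3]
    have h8 := norm_sub_le (exp (g z) * w z - f z) (exp (g z) * (w z - ε))
    rw [norm_mul (exp (g z)) (w z - ε)] at h8
    have h9 : ‖exp (g z)‖ * ‖w z - ε‖ ≤ (2 * ‖f z‖) * (3 * e) :=
      mul_le_mul hgn hε2 (norm_nonneg _) (by positivity)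
    have h10 := hG z hz
    have h11 : e * ‖f z‖ ≤ e * G := mul_le_mul_of_nonneg_left h10 he0.le
    nlinarith

end Pool.Agent.H282RU
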