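import Mathlib
import Pool.Agent.Results.MP_0016c7_nt.Universality
import Pool.Agent.Helper240.ZU.B2
import Pool.Agent.H282RU.NZ
import Pool.Agent.H282RU.EL

set_option autoImplicit false

/-!
# The zeros of `L(E,s)` and imitation by quadratic Dirichlet L-functions

Let `F` be the L-function of an elliptic curve over the rationals and let a rectangle
`α < Re s < β`, `|Im s| < H` with `1/2 ≤ α < β ≤ 1` be given. We show that `L(E, s + 1/2)` has no
zero in the rectangle if and only if it is, up to sign, imitated on the compact subsets of the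
rectangle by the L-functions `L(s,χ)` of the primitive quadratic characters in suitable classes given
by finitely many signs `χ(p)`. The Riemann hypothesis for `E` is the case `α = 1/2`, `β = 1`, all
`H` (by the functional equation). The imitating functions can be asked to be positive on `(0,1)`, to
have given parity and given values at finitely many primes, and their proportion in the class is at
least every number below 86.5 percent; in the other direction a weak form of imitation, for an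
arbitrarily small but fixed positive proportion, suffices.
-/

namespace Pool.Agent.H282RU.Crit

/-- `a_p = p - N_p`, where `N_p` is the number of the solutions of `y^2 = x^3 + a x + b` modulo `p` -/
def ap (a b : ℤ) (p : ℕ) : ℤ :=
  (p : ℤ) - ((((Finset.range p) ×ˢ (Finset.range p)).filter
    (fun xy : ℕ × ℕ => (p : ℤ) ∣ (xy.2 : ℤ) ^ 2 - ((xy.1 : ℤ) ^ 3 + a * (xy.1 : ℤ) + b))).card : ℤ)

/-- `F` is entire and equal to the Euler product of the curve `y^2 = x^3 + a x + b` over the primes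
`p` not dividing `2 (4 a^3 + 27 b^2)`, for `Re s > 3/2`. -/
structure IsLFun (a b : ℤ) (F : ℂ → ℂ) : Prop where
  entire : Differentiable ℂ F
  euler : ∀ s : ℂ, 3 / 2 < s.re →
    F s = ∏' p : {p : ℕ // p.Prime ∧ ¬ ((p : ℤ) ∣ 2 * (4 * a ^ 3 + 27 * b ^ 2))},
      (1 - ((ap a b p.1 : ℤ) : ℂ) * (p.1 : ℂ) ^ (-s) + (p.1 : ℂ) * (p.1 : ℂ) ^ (-2 * s))⁻¹

/-- the open rectangle `α < Re s < β`, `|Im s| < H` -/
def box (α β H : ℝ) : Set ℂ := {s | α < s.re ∧ s.re < β ∧ |s.im| < H}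

/-- `K` is a compact subset of the rectangle, symmetric with respect to the real axis, with
connected complement. -/
structure Adm (α β H : ℝ) (K : Set ℂ) : Prop where
  compact : IsCompact K
  subset : K ⊆ box α β H
  compl_connected : IsConnected Kᶜ
  symm : ∀ s ∈ K, (starRingEnd ℂ) s ∈ K

/-- The pairs `(N, χ)` with `1 ≤ N ≤ X` and `χ` a nontrivial primitive quadratic Dirichlet
character modulo `N` such that `χ(-1) = t` and `χ(p) = c p` for all primes `p ≤ z`. -/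
def Class (z : ℕ) (c : ℕ → ℤ) (t : ℤ) (X : ℕ) : Set (Σ N : ℕ, DirichletCharacter ℂ N) :=
  {p | p.1 ≠ 0 ∧ p.1 ≤ X ∧ p.2.IsPrimitive ∧ p.2 ^ 2 = 1 ∧ p.2 ≠ 1 ∧ p.2 (-1) = (t : ℂ) ∧
    ∀ q : ℕ, q.Prime → q ≤ z → p.2 (q : ZMod p.1) = (c q : ℂ)}

/-- `|L(s,χ) - e F(s + 1/2)| < ε` for every `s` in `K` -/
def Near (F : ℂ → ℂ) (e : ℤ) (K : Set ℂ) (ε : ℝ) (p : Σ N : ℕ, DirichletCharacter ℂ N) : Prop :=
  ∃ _ : NeZero p.1, ∀ s ∈ K,
    ‖DirichletCharacter.LFunction p.2 s - (e : ℂ) * F (s + 1 / 2)‖ < ε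

/-- `L(σ,χ)` is real and positive for every real `σ` with `0 < σ < 1`. -/
def Positive (p : Σ N : ℕ, DirichletCharacter ℂ N) : Prop :=
  ∃ _ : NeZero p.1, ∀ σ : ℝ, 0 < σ → σ < 1 →
    (DirichletCharacter.LFunction p.2 (σ : ℂ)).im = 0 ∧
    0 < (DirichletCharacter.LFunction p.2 (σ : ℂ)).re

/-- For a sign `e`: for all `K`, `ε > 0`, `θ < 0.865`, parity `t` and prescribed signs `c0 p` at the
primes `p ≤ y` there is a class of positive density, with these parity and signs, in which for all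
large `X` the proportion of the characters of conductor at most `X` with `|L(s,χ) - e F(s+1/2)| < ε`
on `K` and `L(σ,χ) > 0` for `0 < σ < 1` is at least `θ`. -/
def Imitated (F : ℂ → ℂ) (α β H : ℝ) : Prop :=
  ∃ e : ℤ, (e = 1 ∨ e = -1) ∧ ∀ K : Set ℂ, Adm α β H K → ∀ ε : ℝ, 0 < ε →
    ∀ θ : ℝ, θ < 865 / 1000 → ∀ t : ℤ, (t = 1 ∨ t = -1) →
    ∀ (y : ℕ) (c0 : ℕ → ℤ), (∀ p, c0 p = 1 ∨ c0 p = -1) →
    ∃ (z : ℕ) (c : ℕ → ℤ), y ≤ z ∧ (∀ p, c p = 1 ∨ c p = -1) ∧ (∀ p, p ≤ y → c p = c0 p) ∧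
      (∀ X : ℕ, (Class z c t X).Finite) ∧
      (∃ κ : ℝ, 0 < κ ∧ ∃ X0 : ℕ, ∀ X : ℕ, X0 ≤ X →
        κ * (X : ℝ) ≤ ((Class z c t X).ncard : ℝ)) ∧
      (∃ X0 : ℕ, ∀ X : ℕ, X0 ≤ X →
        θ * ((Class z c t X).ncard : ℝ) ≤
          ((Class z c t X ∩ {p | Near F e K ε p ∧ Positive p}).ncard : ℝ))

/-- For all `K` and `ε > 0` there is `η > 0` such that for arbitrarily large `z` some class of
characters, given by signs at the primes `p ≤ z` and by a parity, has for arbitrarily large `X` a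
proportion of more than `η` of members of conductor at most `X` with `|L(s,χ) - e F(s+1/2)| < ε` on
`K`, for a sign `e`. -/
def WeaklyImitated (F : ℂ → ℂ) (α β H : ℝ) : Prop :=
  ∀ K : Set ℂ, Adm α β H K → ∀ ε : ℝ, 0 < ε → ∃ η : ℝ, 0 < η ∧ ∀ y : ℕ,
    ∃ (z : ℕ) (c : ℕ → ℤ) (t e : ℤ), y ≤ z ∧ (∀ p, c p = 1 ∨ c p = -1) ∧ (t = 1 ∨ t = -1) ∧
      (e = 1 ∨ e = -1) ∧ ∀ X0 : ℕ, ∃ X : ℕ, X0 ≤ X ∧
        η * ((Class z c t X).ncard : ℝ) < ((Class z c t X ∩ {p | Near F e K ε p}).ncard : ℝ)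

open Pool.Agent.H282RU in
lemma class_eq (z : ℕ) (c : ℕ → ℤ) (t : ℤ) (X : ℕ) :
    Class z c t X = Pool.Agent.H306R2.RG.LnkC.RPC ∩
      (Pool.Agent.W161.LF.CL (PR 1 z) c t ∩ {p | p.1 ≤ X}) := by
  ext p
  simp only [Class, Pool.Agent.H306R2.RG.LnkC.RPC, Pool.Agent.W161.LF.CL, Set.mem_inter_iff,
    Set.mem_ofPred_eq, mem_PR1]
  constructor
  · rintro ⟨h1, h2, h3, h4, h5, h6, h7⟩
    exact ⟨⟨h1, h3, h4, h5⟩, ⟨h6, fun q hq => h7 q hq.1 hq.2⟩, h2⟩
  · rintro ⟨⟨h1, h3, h4, h5⟩, ⟨h6, h7⟩, h2⟩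
    exact ⟨h1, h2, h3, h4, h5, h6, fun q hq hq' => h7 q ⟨hq, hq'⟩⟩

open Pool.Agent.H282RU in
lemma class_finite (z : ℕ) (c : ℕ → ℤ) (hc : ∀ p, c p = 1 ∨ c p = -1) (t : ℤ)
    (ht : t = 1 ∨ t = -1) (X : ℕ) : (Class z c t X).Finite := by
  have hS : ∀ p ∈ PR 1 z, p.Prime := fun p hp => (Finset.mem_filter.1 hp).2
  obtain ⟨h1, -, -⟩ := Pool.Agent.W161.LF.mainA (PR 1 z) hS c (fun p _ => Or.inr (hc p)) t ht
  rw [class_eq]
  exact h1 X

/-- a zero-free real-symmetric function is imitated -/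
lemma up {F : ℂ → ℂ} (hd : Differentiable ℂ F)
    (hs : ∀ s, F ((starRingEnd ℂ) s) = (starRingEnd ℂ) (F s)) {α β H : ℝ} (h1 : 1 / 2 ≤ α)
    (h2 : α < β) (h3 : β ≤ 1) (hH : 0 < H) (hz : ∀ s ∈ box α β H, F (s + 1 / 2) ≠ 0) :
    Imitated F α β H := by
  have hconj : ∀ s : ℂ, F ((starRingEnd ℂ) s + 1 / 2) = (starRingEnd ℂ) (F (s + 1 / 2)) := by
    intro s
    rw [← hs]
    congr 1
    rw [map_add]
    congr 1
    rw [map_div₀, map_one]
    congr 1
    exact (Complex.conj_ofNat 2).symm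
  have him : ∀ s : ℂ, s.im = 0 → (F (s + 1 / 2)).im = 0 := by
    intro s h
    have e : (starRingEnd ℂ) s = s := Complex.conj_eq_iff_im.2 h
    have := hconj s
    rw [e] at this
    exact Complex.conj_eq_iff_im.1 this.symm
  set g : ℝ → ℝ := fun σ => (F ((σ : ℂ) + 1 / 2)).re with hg
  have hgc : Continuous g := by
    refine Complex.continuous_re.comp (hd.continuous.comp ?_)
    fun_prop
  have hmemb : ∀ σ : ℝ, α < σ → σ < β → ((σ : ℝ) : ℂ) ∈ box α β H := by
    intro σ s1 s2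
    refine ⟨by rwa [Complex.ofReal_re], by rwa [Complex.ofReal_re], ?_⟩
    rw [Complex.ofReal_im, abs_zero]
    exact hH
  have hg0 : ∀ σ : ℝ, α < σ → σ < β → g σ ≠ 0 := by
    intro σ s1 s2 h0
    refine hz σ (hmemb σ s1 s2) ?_
    refine Complex.ext h0 ?_
    rw [him _ (Complex.ofReal_im σ), Complex.zero_im]
  obtain ⟨m, hm1, hm2⟩ : ∃ m : ℝ, α < m ∧ m < β := exists_between h2
  have hsign : ∀ σ : ℝ, α < σ → σ < β → 0 < g m * g σ := by
    intro σ s1 s2
    by_contra hcon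
    have h0 : (0 : ℝ) ∈ Set.uIcc (g m) (g σ) := by
      rw [Set.mem_uIcc]
      rcases lt_or_gt_of_ne (hg0 m hm1 hm2) with h | h
      · left
        refine ⟨h.le, ?_⟩
        by_contra hh
        exact hcon (mul_pos_of_neg_of_neg h (not_le.1 hh))
      · right
        refine ⟨?_, h.le⟩
        by_contra hh
        exact hcon (mul_pos h (not_le.1 hh))
    obtain ⟨τ, hτ, hτ0⟩ := intermediate_value_uIcc (hgc.continuousOn (s := Set.uIcc m σ)) h0
    have hτ' : α < τ ∧ τ < β := by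
      rw [Set.mem_uIcc] at hτ
      rcases hτ with h | h
      · exact ⟨by linarith [h.1], by linarith [h.2]⟩
      · exact ⟨by linarith [h.1], by linarith [h.2]⟩
    exact hg0 τ hτ'.1 hτ'.2 hτ0
  obtain ⟨e, he, hpos⟩ : ∃ e : ℤ, (e = 1 ∨ e = -1) ∧
      ∀ σ : ℝ, α < σ → σ < β → 0 < (e : ℝ) * g σ := by
    rcases lt_or_gt_of_ne (hg0 m hm1 hm2) with h | h
    · refine ⟨-1, Or.inr rfl, fun σ s1 s2 => ?_⟩
      have := hsign σ s1 s2
      have h4 : g σ < 0 := by
        by_contra hh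
        have : g m * g σ ≤ 0 := mul_nonpos_of_nonpos_of_nonneg h.le (not_lt.1 hh)
        linarith
      push_cast
      linarith
    · refine ⟨1, Or.inl rfl, fun σ s1 s2 => ?_⟩
      have := hsign σ s1 s2
      have h4 : 0 < g σ := by
        by_contra hh
        have : g m * g σ ≤ 0 := mul_nonpos_of_nonneg_of_nonpos h.le (not_lt.1 hh)
        linarith
      push_cast
      linarith
  refine ⟨e, he, fun K hK ε hε θ hθ t ht y c0 hc0 => ?_⟩
  have he0 : (e : ℂ) ≠ 0 := by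
    rcases he with h | h <;> rw [h] <;> norm_num
  have hadm : Pool.Agent.Results.MP_0016c7_nt.Universality.Admissible K
      (fun s => (e : ℂ) * F (s + 1 / 2)) := by
    constructor
    · exact hK.compact
    · intro s hsK
      have := hK.subset hsK
      exact ⟨by linarith [this.1], by linarith [this.2.1]⟩
    · exact hK.compl_connected
    · exact hK.symm
    · refine Continuous.continuousOn ?_
      refine continuous_const.mul (hd.continuous.comp ?_)
      fun_prop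
    · refine Differentiable.differentiableOn ?_
      refine (differentiable_const _).mul (hd.comp ?_)
      fun_prop
    · intro s hsK
      exact mul_ne_zero he0 (hz s (hK.subset hsK))
    · intro s _
      simp only [map_mul, map_intCast, hconj]
    · intro s hsK him0
      have hb := hK.subset hsK
      have e1 : s = ((s.re : ℝ) : ℂ) := by
        refine Complex.ext (Complex.ofReal_re _).symm ?_
        rw [him0, Complex.ofReal_im]
      have h4 := hpos s.re hb.1 hb.2.1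
      have h5 : ((e : ℂ) * F (s + 1 / 2)).re = (e : ℝ) * g s.re := by
        rw [hg]
        simp only
        rw [← e1, Complex.mul_re, Complex.intCast_re, Complex.intCast_im, zero_mul, sub_zero]
      rw [h5]
      exact h4
  obtain ⟨z, c, hz1, hc, hcc, hfin, hden, hprop⟩ :=
    Pool.Agent.Results.MP_0016c7_nt.Universality.result K _ hadm ε hε θ hθ t ht y c0 hc0
  refine ⟨z, c, hz1, hc, hcc, hfin, hden, ?_⟩
  obtain ⟨X0, hX0⟩ := hprop
  refine ⟨X0, fun X hX => (hX0 X hX).trans ?_⟩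
  have hsub : (Pool.Agent.Results.MP_0016c7_nt.Universality.Class z c t X ∩
      {p | Pool.Agent.Results.MP_0016c7_nt.Universality.Good K
        (fun s => (e : ℂ) * F (s + 1 / 2)) ε p}) ⊆
      Class z c t X ∩ {p | Near F e K ε p ∧ Positive p} := by
    rintro p ⟨hp1, n, hp2, hp3⟩
    exact ⟨hp1, ⟨n, hp3⟩, ⟨n, hp2⟩⟩
  exact_mod_cast Set.ncard_le_ncard hsub ((hfin X).subset Set.inter_subset_left)

/-- imitation implies weak imitation -/
lemma mid {F : ℂ → ℂ} {α β H : ℝ} (h : Imitated F α β H) : WeaklyImitated F α β H := by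
  obtain ⟨e, he, h⟩ := h
  intro K hK ε hε
  refine ⟨1 / 4, by norm_num, fun y => ?_⟩
  obtain ⟨z, c, h1, h2, -, h4, ⟨κ, hκ, X1, h5⟩, X2, h6⟩ := h K hK ε hε (1 / 2) (by norm_num) 1
    (Or.inl rfl) y (fun _ => 1) (fun _ => Or.inl rfl)
  refine ⟨z, c, 1, e, h1, h2, Or.inl rfl, he, fun X0 => ⟨max X0 (max X1 (max X2 1)),
    le_max_left _ _, ?_⟩⟩
  set X := max X0 (max X1 (max X2 1)) with hX
  have x1 : X1 ≤ X := (le_max_left _ _).trans (le_max_right _ _)
  have x2 : X2 ≤ X := ((le_max_left _ _).trans (le_max_right _ _)).trans (le_max_right _ _)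
  have x3 : 1 ≤ X := ((le_max_right _ _).trans (le_max_right _ _)).trans (le_max_right _ _)
  have xp : (0 : ℝ) < X := by exact_mod_cast x3
  have k5 := h5 X x1
  have k6 := h6 X x2
  have k7 : ((Class z c 1 X ∩ {p | Near F e K ε p ∧ Positive p}).ncard : ℝ) ≤
      ((Class z c 1 X ∩ {p | Near F e K ε p}).ncard : ℝ) := by
    have hsub : Class z c 1 X ∩ {p | Near F e K ε p ∧ Positive p} ⊆
        Class z c 1 X ∩ {p | Near F e K ε p} := fun p hp => ⟨hp.1, hp.2.1⟩
    exact_mod_cast Set.ncard_le_ncard hsub ((h4 X).subset Set.inter_subset_left)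
  have k8 : 0 < κ * (X : ℝ) := by positivity
  linarith

open Pool.Agent.H282RU in
/-- weak imitation implies the absence of zeros -/
lemma down {F : ℂ → ℂ} (hd : Differentiable ℂ F) (hF0 : ∃ s, F s ≠ 0) {α β H : ℝ}
    (h1 : 1 / 2 ≤ α) (h3 : β ≤ 1) (hw : WeaklyImitated F α β H) :
    ∀ s ∈ box α β H, F (s + 1 / 2) ≠ 0 := by
  intro ρ hρ h0
  obtain ⟨r1, r2, r3⟩ := hρ
  -- isolated zero
  set f : ℂ → ℂ := fun s => F (s + 1 / 2) with hf
  have hfd : Differentiable ℂ f := hd.comp (by fun_prop)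
  have hf0 : f ρ = 0 := h0
  have hiso : ∀ᶠ w in nhdsWithin ρ {ρ}ᶜ, f w ≠ 0 := by
    rcases (hfd.analyticAt ρ).eventually_eq_zero_or_eventually_ne_zero with h | h
    · exfalso
      have a1 : AnalyticOnNhd ℂ f Set.univ := fun z _ => hfd.analyticAt z
      have a2 : AnalyticOnNhd ℂ (fun _ : ℂ => (0 : ℂ)) Set.univ := fun z _ => analyticAt_const
      have h5 : f = fun _ : ℂ => (0 : ℂ) := a1.eq_of_eventuallyEq a2 h
      obtain ⟨w, hw0⟩ := hF0
      refine hw0 ?_
      have := congrFun h5 (w - 1 / 2)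
      rw [hf] at this
      simpa using this
    · exact h
  obtain ⟨δ, hδ, hδ0⟩ := Metric.eventually_nhds_iff.1 (eventually_nhdsWithin_iff.1 hiso)
  obtain ⟨r, hr, hr1, hr2, hr3, hr4⟩ : ∃ r : ℝ, 0 < r ∧ r < δ ∧ α < ρ.re - r ∧ ρ.re + r < β ∧
      |ρ.im| + r < H := by
    refine ⟨min (min (δ / 2) ((ρ.re - α) / 2)) (min ((β - ρ.re) / 2) ((H - |ρ.im|) / 2)),
      ?_, ?_, ?_, ?_, ?_⟩
    · refine lt_min (lt_min (by linarith) (by linarith)) (lt_min (by linarith) (by linarith))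
    · have := (min_le_left (min (δ / 2) ((ρ.re - α) / 2))
        (min ((β - ρ.re) / 2) ((H - |ρ.im|) / 2))).trans (min_le_left _ _)
      linarith
    · have := (min_le_left (min (δ / 2) ((ρ.re - α) / 2))
        (min ((β - ρ.re) / 2) ((H - |ρ.im|) / 2))).trans (min_le_right _ _)
      linarith
    · have := (min_le_right (min (δ / 2) ((ρ.re - α) / 2))
        (min ((β - ρ.re) / 2) ((H - |ρ.im|) / 2))).trans (min_le_left _ _)
      linarith
    · have := (min_le_right (min (δ / 2) ((ρ.re - α) / 2))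
        (min ((β - ρ.re) / 2) ((H - |ρ.im|) / 2))).trans (min_le_right _ _)
      linarith
  have hsph : ∀ w ∈ Metric.sphere ρ r, f w ≠ 0 := by
    intro w hw
    have hw' : dist w ρ = r := hw
    refine hδ0 (by rw [hw']; exact hr1) ?_
    intro hh
    rw [Set.mem_singleton_iff] at hh
    rw [hh, dist_self] at hw'
    linarith
  obtain ⟨w0, hw0, hmin⟩ := (isCompact_sphere ρ r).exists_isMinOn
    (NormedSpace.sphere_nonempty.2 hr.le) (hfd.continuous.norm.continuousOn)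
  have hm : 0 < ‖f w0‖ := norm_pos_iff.2 (hsph w0 hw0)
  -- the rectangle
  set B : ℝ := |ρ.im| + r with hB
  have hBp : 0 < B := by positivity
  have hball : ∀ w ∈ Metric.closedBall ρ r, ρ.re - r ≤ w.re ∧ w.re ≤ ρ.re + r ∧ |w.im| ≤ B := by
    intro w hw
    have hw' : ‖w - ρ‖ ≤ r := by rwa [← dist_eq_norm]
    have g1 := (Complex.abs_re_le_norm (w - ρ)).trans hw'
    have g2 := (Complex.abs_im_le_norm (w - ρ)).trans hw'
    rw [Complex.sub_re, abs_le] at g1
    rw [Complex.sub_im] at g2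
    refine ⟨by linarith [g1.1], by linarith [g1.2], ?_⟩
    have g3 := abs_add_le (w.im - ρ.im) ρ.im
    rw [sub_add_cancel] at g3
    linarith
  have hadm : Adm α β H (ZU.rect (ρ.re - r) (ρ.re + r) B) := by
    constructor
    · exact rect_cpt _ _ _
    · rintro w ⟨w1, w2, w3⟩
      exact ⟨by linarith, by linarith, by linarith⟩
    · exact ZU.J_b2.rect_compl_conn _ _ _
    · rintro w ⟨w1, w2, w3⟩
      refine ⟨by rwa [Complex.conj_re], by rwa [Complex.conj_re], ?_⟩
      rwa [Complex.conj_im, abs_neg]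
  obtain ⟨η, hη, hy⟩ := hw _ hadm (‖f w0‖ / 2) (by positivity)
  obtain ⟨z0, hz0⟩ := nzC (ρ.re - r) (ρ.re + r) B (by linarith) (by linarith) (by linarith) hBp
    (1 - η / 2) (by linarith)
  obtain ⟨z, c, t, e, hz, hc, ht, he, hX⟩ := hy z0
  obtain ⟨N, hN⟩ := hz0 z hz c hc t
  obtain ⟨X, hXN, hX1⟩ := hX N
  have hX2 := hN X hXN
  have hfin := class_finite z c hc t ht X
  have e1 : Pool.Agent.H306R2.RG.LnkC.RPC ∩ ((Pool.Agent.W161.LF.CL (PR 1 z) c t ∩
      {p | p.1 ≤ X}) ∩ {p | NZr (ρ.re - r) (ρ.re + r) B p}) =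
      Class z c t X ∩ {p | NZr (ρ.re - r) (ρ.re + r) B p} := by
    rw [class_eq]
    exact (Set.inter_assoc _ _ _).symm
  rw [e1, ← class_eq] at hX2
  set A := Class z c t X with hA
  set P : Set (Σ N : ℕ, DirichletCharacter ℂ N) :=
    {p | NZr (ρ.re - r) (ρ.re + r) B p} with hP
  set Q : Set (Σ N : ℕ, DirichletCharacter ℂ N) :=
    {p | Near F e (ZU.rect (ρ.re - r) (ρ.re + r) B) (‖f w0‖ / 2) p} with hQ
  have hAP : (A ∩ P).Finite := hfin.subset Set.inter_subset_left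
  have hAQ : (A ∩ Q).Finite := hfin.subset Set.inter_subset_left
  have hsum := Set.ncard_inter_add_ncard_union (A ∩ P) (A ∩ Q) hAP hAQ
  have hun : ((A ∩ P) ∪ (A ∩ Q)).ncard ≤ A.ncard :=
    Set.ncard_le_ncard (Set.union_subset Set.inter_subset_left Set.inter_subset_left) hfin
  have hne : ((A ∩ P) ∩ (A ∩ Q)).Nonempty := by
    rw [Set.nonempty_iff_ne_empty]
    intro hemp
    rw [hemp, Set.ncard_empty] at hsum
    have k1 : ((A ∩ P).ncard : ℝ) + ((A ∩ Q).ncard : ℝ) ≤ (A.ncard : ℝ) := by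
      have : (A ∩ P).ncard + (A ∩ Q).ncard ≤ A.ncard := by omega
      exact_mod_cast this
    have k2 : (0 : ℝ) ≤ η / 2 * (A.ncard : ℝ) := by positivity
    nlinarith
  obtain ⟨p, ⟨hpA, n1, hp1⟩, -, n2, hp2⟩ := hne
  have hp2' : ∀ s ∈ ZU.rect (ρ.re - r) (ρ.re + r) B,
      ‖@DirichletCharacter.LFunction p.1 n1 p.2 s - (e : ℂ) * F (s + 1 / 2)‖ < ‖f w0‖ / 2 := hp2
  have hnt : p.2 ≠ 1 := hpA.2.2.2.2.1
  have hLd : Differentiable ℂ (@DirichletCharacter.LFunction p.1 n1 p.2) :=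
    DirichletCharacter.differentiable_LFunction hnt
  have hen : ‖(e : ℂ)‖ = 1 := by
    rcases he with h | h <;> rw [h] <;> simp
  have hz1 : (fun w => (e : ℂ) * f w) ρ = 0 := by
    change (e : ℂ) * f ρ = 0
    rw [hf0, mul_zero]
  refine EL.has_zero (f := fun w => (e : ℂ) * f w) (ρ := ρ) (r := r) hLd hr hm hz1
    (fun w hw => ?_) (fun w hw => ?_) (fun w hw => ?_)
  · rw [norm_mul, hen, one_mul]
    exact hmin hw
  · exact hp2' w (hball w hw)
  · obtain ⟨g1, g2, g3⟩ := hball w hw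
    exact hp1 w g1 g2 g3

/-- **Theorem.** Let `F` be the L-function of the elliptic curve `y^2 = x^3 + a x + b` (an entire
function with the Euler product over the good primes) and `1/2 ≤ α < β ≤ 1`, `H > 0`. The following
are equivalent: `F(s + 1/2)` has no zero with `α < Re s < β`, `|Im s| < H`; `F(s + 1/2)` is imitated
by quadratic Dirichlet L-functions on this rectangle; it is weakly imitated on this rectangle. -/
theorem result (a b : ℤ) (F : ℂ → ℂ) (hF : IsLFun a b F) (α β H : ℝ) (h1 : 1 / 2 ≤ α)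
    (h2 : α < β) (h3 : β ≤ 1) (hH : 0 < H) :
    ((∀ s ∈ box α β H, F (s + 1 / 2) ≠ 0) ↔ Imitated F α β H) ∧
    ((∀ s ∈ box α β H, F (s + 1 / 2) ≠ 0) ↔ WeaklyImitated F α β H) := by
  have hE : ∀ s : ℂ, 3 / 2 < s.re → F s = ∏' p : Pool.Agent.H282RU.EL.Pr a b,
      Pool.Agent.H282RU.EL.fac (Pool.Agent.H282RU.EL.ap a b p.1) p.1 s := hF.euler
  have hs := Pool.Agent.H282RU.EL.real_symm hF.entire hE
  have h0 : ∃ s, F s ≠ 0 := ⟨6, Pool.Agent.H282RU.EL.ne_zero hE⟩
  exact ⟨⟨fun h => up hF.entire hs h1 h2 h3 hH h, fun h => down hF.entire h0 h1 h3 (mid h)⟩,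
    ⟨fun h => mid (up hF.entire hs h1 h2 h3 hH h), fun h => down hF.entire h0 h1 h3 h⟩⟩

end Pool.Agent.H282RU.Crit
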