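import Pool.Agent.H282RU.Stm3
import Pool.Agent.R318.QL.Orth

/-!
Universality on compact sets: the mean square of the sums over squarefree numbers.
-/

set_option autoImplicit false

namespace Pool.Agent.H282RU

open Finset Filter Topology MeasureTheory Pool.Agent.H306R2.RZ Pool.Agent.H306R2.RG
open Pool.Agent.R318.QL (EF_eq tf_bound fin_supp)

noncomputable section

lemma EAg_mono (φ : FD) {F : ℝ → ℝ} (hF : TF F) (hF0 : ∀ x, 0 ≤ F x) (L : ℝ) {f g : ℕ → ℝ}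
    (h : ∀ d, φ.A d → F ((d : ℝ) / Real.exp L) ≠ 0 → f d ≤ g d) :
    EAg φ F (Real.exp L) f ≤ EAg φ F (Real.exp L) g := by
  classical
  obtain ⟨U, hU⟩ := fin_supp F hF (Real.exp L) (Real.exp_pos L)
  rw [EF_eq φ F _ U hU, EF_eq φ F _ U hU]
  refine div_le_div_of_nonneg_right (Finset.sum_le_sum fun d _ => ?_) (Real.exp_pos L).le
  split_ifs with hA
  · by_cases h0 : F ((d : ℝ) / Real.exp L) = 0
    · rw [h0, zero_mul, zero_mul]
    · exact mul_le_mul_of_nonneg_left (h d hA h0) (hF0 _)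
  · exact le_rfl

lemma EAg_add (φ : FD) {F : ℝ → ℝ} (hF : TF F) (L : ℝ) (f g : ℕ → ℝ) :
    EAg φ F (Real.exp L) (fun d => f d + g d) =
      EAg φ F (Real.exp L) f + EAg φ F (Real.exp L) g := by
  classical
  obtain ⟨U, hU⟩ := fin_supp F hF (Real.exp L) (Real.exp_pos L)
  rw [EF_eq φ F _ U hU, EF_eq φ F _ U hU, EF_eq φ F _ U hU, ← add_div, ← Finset.sum_add_distrib]
  congr 1
  refine Finset.sum_congr rfl fun d _ => ?_
  split_ifs <;> ring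

lemma EAg_mul (φ : FD) {F : ℝ → ℝ} (hF : TF F) (L : ℝ) (c : ℝ) (f : ℕ → ℝ) :
    EAg φ F (Real.exp L) (fun d => c * f d) = c * EAg φ F (Real.exp L) f := by
  classical
  obtain ⟨U, hU⟩ := fin_supp F hF (Real.exp L) (Real.exp_pos L)
  rw [EF_eq φ F _ U hU, EF_eq φ F _ U hU, mul_div_assoc', Finset.mul_sum]
  congr 1
  refine Finset.sum_congr rfl fun d _ => ?_
  split_ifs <;> ring

lemma EAg_zero (φ : FD) {F : ℝ → ℝ} (hF : TF F) (L : ℝ) :
    EAg φ F (Real.exp L) (fun _ => 0) = 0 := by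
  have := EAg_mul φ hF L 0 (fun _ => 0)
  simpa using this

lemma EAg_sum (φ : FD) {F : ℝ → ℝ} (hF : TF F) (L : ℝ) (s : Finset ℕ) (f : ℕ → ℕ → ℝ) :
    EAg φ F (Real.exp L) (fun d => ∑ i ∈ s, f i d) = ∑ i ∈ s, EAg φ F (Real.exp L) (f i) := by
  classical
  induction s using Finset.induction_on with
  | empty => simpa using EAg_zero φ hF L
  | insert i s hi ih =>
    simp only [Finset.sum_insert hi]
    rw [EAg_add φ hF L, ih]

/-- the average over the squarefree numbers is at most `K/X` times the sum over `sqf` -/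
lemma EAg_sqf (φ : FD) {F : ℝ → ℝ} (hF : TF F) (hF0 : ∀ x, 0 ≤ F x) {K R : ℝ} (hK : ∀ x, |F x| ≤ K)
    (hR : ∀ x, R < x → F x = 0) (hR0 : ∀ x, x ≤ 0 → F x = 0) (L : ℝ) (f : ℕ → ℝ)
    (hf : ∀ d, 0 ≤ f d) :
    EAg φ F (Real.exp L) (fun d => if Squarefree d then f d else 0) ≤
      K * (∑ d ∈ sqf ⌊R * Real.exp L⌋₊, f d) / Real.exp L := by
  classical
  have hX : 0 < Real.exp L := Real.exp_pos L
  obtain ⟨U, hU⟩ := fin_supp F hF (Real.exp L) hX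
  have hK0 : 0 ≤ K := (abs_nonneg _).trans (hK 0)
  rw [EF_eq φ F _ (U ∪ sqf ⌊R * Real.exp L⌋₊) (fun d hd => hU d fun h =>
    hd (Finset.mem_union_left _ h))]
  refine div_le_div_of_nonneg_right ?_ hX.le
  rw [Finset.mul_sum, ← Finset.sum_subset (Finset.subset_union_right (s₁ := U))]
  · refine Finset.sum_le_sum fun d hd => ?_
    have h1 : F ((d : ℝ) / Real.exp L) ≤ K := (le_abs_self _).trans (hK _)
    split_ifs with h2 h3
    · exact mul_le_mul_of_nonneg_right h1 (hf d)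
    · rw [mul_zero]
      exact mul_nonneg hK0 (hf d)
    · exact mul_nonneg hK0 (hf d)
  · intro d _ hd
    split_ifs with h2 h3
    · by_cases h0 : F ((d : ℝ) / Real.exp L) = 0
      · rw [h0, zero_mul]
      · exfalso
        apply hd
        unfold sqf
        have hdpos : 0 < (d : ℝ) / Real.exp L := by
          by_contra hcon
          push Not at hcon
          exact h0 (hR0 _ hcon)
        have hd1 : 0 < (d : ℝ) := by
          by_contra hcon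
          push Not at hcon
          exact absurd hdpos (not_lt.2 (div_nonpos_of_nonpos_of_nonneg hcon hX.le))
        have hd2 : (d : ℝ) / Real.exp L ≤ R := by
          by_contra hcon
          push Not at hcon
          exact h0 (hR _ hcon)
        rw [Finset.mem_filter, Finset.mem_Icc]
        refine ⟨⟨by exact_mod_cast hd1, Nat.le_floor ?_⟩, h3⟩
        rwa [div_le_iff₀ hX] at hd2
    · rw [mul_zero]
    · rfl

lemma jo_odd (φ : FD) (d : ℕ) {n : ℕ} (hn : Odd n) : jo φ d n = js (φ.e * (d : ℤ)) n := by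
  unfold jo
  rw [if_pos hn]

lemma Fam_e {φ : FD} (hφ : Fam φ) : φ.e = 1 ∨ φ.e = -1 ∨ φ.e = 2 ∨ φ.e = -2 := by
  obtain ⟨ε, hε, h⟩ := hφ
  rcases hε with rfl | rfl <;> rcases h with rfl | rfl | rfl | rfl <;>
    simp [F8, F4, F1]

lemma hPR2 (z : ℕ) : ∀ p ∈ PR 2 z, p.Prime ∧ Odd p := by
  intro p hp
  unfold PR at hp
  obtain ⟨h1, h2⟩ := Finset.mem_filter.1 hp
  exact ⟨h2, h2.odd_of_ne_two (by have := (Finset.mem_Ioc.1 h1).1; omega)⟩

/-- the mean square of the sums over squarefree rough numbers -/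
theorem MT (h2 : E2) (h3 : E3) (a t B : ℝ) (ha : 1 / 2 < a) (ht : 0 < t) (hB : 0 < B) :
    ∃ z0 : ℕ, ∀ z : ℕ, z0 ≤ z → ∀ c : ℕ → ℤ, (∀ p, c p = 1 ∨ c p = -1) → ∀ φ : FD, Fam φ →
    ∀ F : ℝ → ℝ, TF F → (∀ x, 0 ≤ F x) → ∀ D : ℝ, 0 < D →
    (∃ L1 : ℝ, ∀ L : ℝ, L1 ≤ L → EAg φ F (Real.exp L) (wS φ (PR 2 z) c) ≤ D * B) →
    ∃ L0 : ℝ, ∀ L : ℝ, L0 ≤ L → ∀ N : ℕ, (N : ℝ) ≤ Real.exp L → ∀ s : ℂ, a ≤ s.re →
      EAg φ F (Real.exp L) (fun d => if Squarefree d then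
        wS φ (PR 2 z) c d * ‖TS z N (φ.e * (d : ℤ)) s‖ ^ 2 else 0) ≤ t * D := by
  classical
  obtain ⟨z0, hz0⟩ := h3 a (t / 4) B ha (by positivity) hB
  refine ⟨z0, fun z hz c hc φ hφ F hF hF0 D hD hL1 => ?_⟩
  obtain ⟨L2, hL2⟩ := hz0 z hz c hc φ hφ F hF hF0 D hD hL1
  obtain ⟨K, R, hK, hR, hb1, -, hb3, hb4⟩ := tf_bound hF
  obtain ⟨L3, hL3⟩ := h2 a R (t * D / (4 * K)) ha (by linarith) (by positivity) φ.e (Fam_e hφ)
  refine ⟨max L2 L3, fun L hL N hN s hs => ?_⟩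
  have hX : 0 < Real.exp L := Real.exp_pos L
  set T : Finset ℕ := (Ioc 1 N).filter (fun n => Ro z n ∧ Squarefree n) with hT
  set T1 : Finset ℕ := T.filter (fun n => (n : ℝ) ≤ Real.exp (L / 20)) with hT1
  set T2 : Finset ℕ := T.filter (fun n => ¬ (n : ℝ) ≤ Real.exp (L / 20)) with hT2
  have hsplit : ∀ d : ℕ, TS z N (φ.e * (d : ℤ)) s =
      (∑ n ∈ T1, (jo φ d n : ℂ) * (n : ℂ) ^ (-s)) +
        ∑ n ∈ T2, (js (φ.e * (d : ℤ)) n : ℂ) * (n : ℂ) ^ (-s) := by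
    intro d
    have e1 : ∑ n ∈ T1, (jo φ d n : ℂ) * (n : ℂ) ^ (-s) =
        ∑ n ∈ T1, (js (φ.e * (d : ℤ)) n : ℂ) * (n : ℂ) ^ (-s) := by
      refine Finset.sum_congr rfl fun n hn => ?_
      rw [hT1, Finset.mem_filter, hT, Finset.mem_filter] at hn
      rw [jo_odd φ d hn.1.2.1.1]
    rw [e1, hT1, hT2, Finset.sum_filter_add_sum_filter_not]
    rfl
  have hA := hL2 L ((le_max_left _ _).trans hL) T1 (by
    intro n hn
    rw [hT1, Finset.mem_filter, hT, Finset.mem_filter, Finset.mem_Ioc] at hn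
    exact ⟨hn.1.2.1, hn.1.2.2, hn.1.1.1, hn.2⟩) s hs
  have hB' := hL3 L ((le_max_right _ _).trans hL) T2 (by
    intro n hn
    rw [hT2, Finset.mem_filter, hT, Finset.mem_filter, Finset.mem_Ioc] at hn
    refine ⟨hn.1.2.1.1, hn.1.2.2, not_le.1 hn.2, ?_⟩
    have : (n : ℝ) ≤ N := by exact_mod_cast hn.1.1.2
    linarith) s hs
  have hC := EAg_sqf φ hF hF0 hb1 hb3 hb4 L
    (fun d => ‖∑ n ∈ T2, (js (φ.e * (d : ℤ)) n : ℂ) * (n : ℂ) ^ (-s)‖ ^ 2)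
    (fun d => by positivity)
  have hC2 : K * (∑ d ∈ sqf ⌊R * Real.exp L⌋₊,
      ‖∑ n ∈ T2, (js (φ.e * (d : ℤ)) n : ℂ) * (n : ℂ) ^ (-s)‖ ^ 2) / Real.exp L ≤ t * D / 4 := by
    rw [div_le_iff₀ hX]
    have h4 := mul_le_mul_of_nonneg_left hB' (show 0 ≤ K by linarith)
    refine h4.trans (le_of_eq ?_)
    field_simp
  have key : EAg φ F (Real.exp L) (fun d => if Squarefree d then
        wS φ (PR 2 z) c d * ‖TS z N (φ.e * (d : ℤ)) s‖ ^ 2 else 0) ≤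
      EAg φ F (Real.exp L) (fun d => 2 * (wS φ (PR 2 z) c d *
        ‖∑ n ∈ T1, (jo φ d n : ℂ) * (n : ℂ) ^ (-s)‖ ^ 2) +
        2 * (if Squarefree d then
          ‖∑ n ∈ T2, (js (φ.e * (d : ℤ)) n : ℂ) * (n : ℂ) ^ (-s)‖ ^ 2 else 0)) := by
    refine EAg_mono φ hF hF0 L fun d _ _ => ?_
    have w0 := wS_nonneg φ (hPR2 z) (fun p _ => hc p) d
    have w1 := wS_le_one φ (hPR2 z) (fun p _ => hc p) d
    split_ifs with hsq
    · rw [hsplit d]
      set x := ∑ n ∈ T1, (jo φ d n : ℂ) * (n : ℂ) ^ (-s)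
      set y := ∑ n ∈ T2, (js (φ.e * (d : ℤ)) n : ℂ) * (n : ℂ) ^ (-s)
      have h5 : ‖x + y‖ ^ 2 ≤ 2 * ‖x‖ ^ 2 + 2 * ‖y‖ ^ 2 := by
        have h6 := norm_add_le x y
        have h7 : ‖x + y‖ ^ 2 ≤ (‖x‖ + ‖y‖) ^ 2 := pow_le_pow_left₀ (norm_nonneg _) h6 2
        nlinarith [sq_nonneg (‖x‖ - ‖y‖)]
      have h8 : wS φ (PR 2 z) c d * ‖y‖ ^ 2 ≤ ‖y‖ ^ 2 :=
        mul_le_of_le_one_left (by positivity) w1
      calc wS φ (PR 2 z) c d * ‖x + y‖ ^ 2 ≤ wS φ (PR 2 z) c d * (2 * ‖x‖ ^ 2 + 2 * ‖y‖ ^ 2) :=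
            mul_le_mul_of_nonneg_left h5 w0
        _ ≤ _ := by nlinarith
    · have : 0 ≤ wS φ (PR 2 z) c d * ‖∑ n ∈ T1, (jo φ d n : ℂ) * (n : ℂ) ^ (-s)‖ ^ 2 := by
        positivity
      linarith
  rw [EAg_add φ hF L, EAg_mul φ hF L, EAg_mul φ hF L] at key
  have h9 : t / 4 * D = t * D / 4 := by ring
  rw [h9] at hA
  have hC3 := hC.trans hC2
  have : 0 < t * D := by positivity
  linarith

end

end Pool.Agent.H282RU
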