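import Pool.Agent.H282RU.E4a
import Pool.Agent.W161.LF.Asm

/-!
Universality on compact sets: comparison of `L(s,χ)` times the finite Euler product with a sum
over rough numbers.
-/

set_option autoImplicit false

namespace Pool.Agent.H282RU

open Finset Filter Topology MeasureTheory Pool.Agent.H306R2.RZ Pool.Agent.H306R2.RG
open Pool.Agent.W161.LF
open Pool.Agent.H463R2.RGFIN (ch ch_spec mem_FS FS mem_le r_bd)

noncomputable section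

open Classical in
/-- `L(s,χ) ∏_{q ≤ z} (1 - χ(q) q^{-s}) - 1` -/
def GC (p : Σ N : ℕ, DirichletCharacter ℂ N) (z : ℕ) (s : ℂ) : ℂ :=
  if h : p.1 ≠ 0 then
    haveI : NeZero p.1 := ⟨h⟩
    DirichletCharacter.LFunction p.2 s *
      ∏ q ∈ PR 1 z, (1 - p.2 (q : ZMod p.1) * (q : ℂ) ^ (-s)) - 1
  else 0

lemma GC_eq (p : Σ N : ℕ, DirichletCharacter ℂ N) [NeZero p.1] (z : ℕ) (s : ℂ) :
    GC p z s = DirichletCharacter.LFunction p.2 s *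
      ∏ q ∈ PR 1 z, (1 - p.2 (q : ZMod p.1) * (q : ℂ) ^ (-s)) - 1 := by
  unfold GC
  rw [dif_pos (NeZero.ne p.1)]

lemma mem_PR1 (z q : ℕ) : q ∈ PR 1 z ↔ q.Prime ∧ q ≤ z := by
  simp only [PR, Finset.mem_filter, Finset.mem_Ioc]
  constructor
  · rintro ⟨⟨-, h⟩, h'⟩
    exact ⟨h', h⟩
  · rintro ⟨h', h⟩
    exact ⟨⟨h'.one_lt, h⟩, h'⟩

lemma mem_PR2 (z q : ℕ) : q ∈ PR 2 z ↔ q.Prime ∧ q ≠ 2 ∧ q ≤ z := by
  simp only [PR, Finset.mem_filter, Finset.mem_Ioc]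
  constructor
  · rintro ⟨⟨h0, h⟩, h'⟩
    exact ⟨h', by omega, h⟩
  · rintro ⟨h', h0, h⟩
    have := h'.two_le
    exact ⟨⟨by omega, h⟩, h'⟩

lemma coprime_iff {z : ℕ} (hz : 2 ≤ z) (n : ℕ) :
    n.Coprime (∏ p ∈ PR 1 z, p) ↔ Ro z n := by
  rw [Nat.coprime_prod_right_iff]
  unfold Ro
  constructor
  · intro h
    refine ⟨?_, fun p hp => ?_⟩
    · have h2 := h 2 ((mem_PR1 z 2).2 ⟨Nat.prime_two, hz⟩)
      exact Nat.coprime_two_right.1 h2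
    · obtain ⟨hp1, hp2, hp3⟩ := (mem_PR2 z p).1 hp
      have h2 := h p ((mem_PR1 z p).2 ⟨hp1, hp3⟩)
      exact (hp1.coprime_iff_not_dvd.1 h2.symm)
  · rintro ⟨h1, h2⟩ p hp
    obtain ⟨hp1, hp3⟩ := (mem_PR1 z p).1 hp
    by_cases hp2 : p = 2
    · subst hp2
      exact Nat.coprime_two_right.2 h1
    · exact (hp1.coprime_iff_not_dvd.2 (h2 p ((mem_PR2 z p).2 ⟨hp1, hp2, hp3⟩))).symm

lemma ch_odd {φ : FD} (hφ : Fam φ) {d : ℕ} (hd : d ∈ SFg φ) {n : ℕ} (hn : Odd n) :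
    (ch φ d).2 (n : ZMod (ch φ d).1) = (js (φ.e * (d : ℤ)) n : ℂ) := by
  rw [ch_val φ hφ hd hn.pos.ne', cf_odd φ d hn]
  rfl

/-- comparison with the sum over rough numbers -/
lemma pt (h1 : E1) {φ : FD} (hφ : Fam φ) {d : ℕ} (hd : d ∈ SFg φ) {z : ℕ} (hz : 2 ≤ z) {N : ℕ}
    (hN : 1 ≤ N) {s : ℂ} (hs : 0 < s.re) :
    ‖GC (ch φ d) z s - ∑ n ∈ (Ioc 1 N).filter (fun n => Ro z n),
      (js (φ.e * (d : ℤ)) n : ℂ) * (n : ℂ) ^ (-s)‖ ≤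
    ‖s‖ / s.re * (N : ℝ) ^ (-s.re) * (4 * ((∏ p ∈ PR 1 z, p).divisors.card : ℝ) *
      Real.sqrt ((φ.r * d : ℕ) : ℝ) * (1 + Real.log ((φ.r * d : ℕ) : ℝ))) := by
  obtain ⟨k1, k2, k3, k4⟩ := ch_spec hCGF hφ hd
  obtain ⟨k5, k6, k7, k8⟩ := k1
  have hq2 : 2 ≤ (ch φ d).1 := by
    by_contra hcon
    apply k8
    exact DirichletCharacter.level_one' _ (by omega)
  have hm : 1 ≤ ∏ p ∈ PR 1 z, p := Finset.one_le_prod' fun p hp => ((mem_PR1 z p).1 hp).1.one_lt.le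
  have h2 := h1 (ch φ d).1 k3 (ch φ d).2 (∏ p ∈ PR 1 z, p) N s hq2 hm hN k6 hs
  rw [Nat.primeFactors_prod (fun p hp => ((mem_PR1 z p).1 hp).1)] at h2
  have h3 : ∑ n ∈ (Icc 1 N).filter (fun n => n.Coprime (∏ p ∈ PR 1 z, p)),
      (ch φ d).2 (n : ZMod (ch φ d).1) * (n : ℂ) ^ (-s) =
      1 + ∑ n ∈ (Ioc 1 N).filter (fun n => Ro z n), (js (φ.e * (d : ℤ)) n : ℂ) * (n : ℂ) ^ (-s) := by
    have e1 : (Icc 1 N).filter (fun n => n.Coprime (∏ p ∈ PR 1 z, p)) =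
        insert 1 ((Ioc 1 N).filter (fun n => Ro z n)) := by
      ext n
      rw [Finset.mem_insert, Finset.mem_filter, Finset.mem_filter, Finset.mem_Icc, Finset.mem_Ioc,
        coprime_iff hz]
      constructor
      · rintro ⟨⟨g1, g2⟩, g3⟩
        by_cases hn1 : n = 1
        · exact Or.inl hn1
        · exact Or.inr ⟨⟨by omega, g2⟩, g3⟩
      · rintro (rfl | ⟨⟨g1, g2⟩, g3⟩)
        · refine ⟨⟨le_rfl, hN⟩, (coprime_iff hz 1).1 (Nat.coprime_one_left _)⟩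
        · exact ⟨⟨g1.le, g2⟩, g3⟩
    rw [e1, Finset.sum_insert (by simp)]
    congr 1
    · simp
    · refine Finset.sum_congr rfl fun n hn => ?_
      rw [Finset.mem_filter] at hn
      rw [ch_odd hφ hd hn.2.1]
  rw [h3] at h2
  have h4 : GC (ch φ d) z s - ∑ n ∈ (Ioc 1 N).filter (fun n => Ro z n),
      (js (φ.e * (d : ℤ)) n : ℂ) * (n : ℂ) ^ (-s) =
      DirichletCharacter.LFunction (ch φ d).2 s *
        ∏ p ∈ PR 1 z, (1 - (ch φ d).2 (p : ZMod (ch φ d).1) * (p : ℂ) ^ (-s)) -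
      (1 + ∑ n ∈ (Ioc 1 N).filter (fun n => Ro z n),
        (js (φ.e * (d : ℤ)) n : ℂ) * (n : ℂ) ^ (-s)) := by
    rw [GC_eq]
    ring
  rw [h4]
  refine h2.trans (le_of_eq ?_)
  rw [ch_level φ hφ hd]

end

end Pool.Agent.H282RU
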