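import Pool.Agent.H282RU.E4b

/-!
Universality on compact sets: the mean square of `L(s,χ)` times the finite Euler product minus `1`.
-/

set_option autoImplicit false

namespace Pool.Agent.H282RU

open Finset Filter Topology MeasureTheory Pool.Agent.H306R2.RZ Pool.Agent.H306R2.RG
open Pool.Agent.W161.LF
open Pool.Agent.H463R2.RGFIN (ch ch_spec mem_FS FS mem_le r_bd)
open Pool.Agent.R318.QL (EF_eq tf_bound fin_supp)

noncomputable section

lemma tail_small {a : ℝ} (ha : 1 / 2 < a) {ρ : ℝ} (hρ : 0 < ρ) : ∃ z1 : ℕ, ∀ z : ℕ, z1 ≤ z →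
    ∀ T : Finset ℕ, (∀ r ∈ T, z < r) → ∑ r ∈ T, (r : ℝ) ^ (-(2 * a)) ≤ ρ := by
  have hs : Summable (fun n : ℕ => (n : ℝ) ^ (-(2 * a))) := Real.summable_nat_rpow.2 (by linarith)
  obtain ⟨s, hs2⟩ := summable_iff_vanishing_norm.1 hs ρ hρ
  refine ⟨s.sup id, fun z hz T hT => ?_⟩
  have h1 : Disjoint T s := by
    rw [Finset.disjoint_left]
    intro n hn hns
    have h2 := hT n hn
    have h3 : n ≤ s.sup id := Finset.le_sup (f := id) hns
    omega
  have h4 := hs2 T h1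
  exact (le_abs_self _).trans h4.le


lemma err_small (a B0 R : ℝ) (ha : 1 / 2 < a) (M : ℝ) (hM : 0 ≤ M) (hB0 : 0 ≤ B0) (hR : 1 ≤ R)
    (η : ℝ) (hη : 0 < η) :
    ∃ L0 : ℝ, 1 ≤ L0 ∧ ∀ L : ℝ, L0 ≤ L → ∀ s : ℂ, a ≤ s.re → s.re ≤ 1 → |s.im| ≤ B0 →
      ∀ q : ℝ, 1 ≤ q → q ≤ 8 * R * Real.exp L →
      ‖s‖ / s.re * ((⌊Real.exp L⌋₊ : ℕ) : ℝ) ^ (-s.re) * (4 * M * Real.sqrt q * (1 + Real.log q)) ≤ η := by
  set κ : ℝ := a - 1 / 2 with hκ
  have hκ0 : 0 < κ := by rw [hκ]; linarith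
  set A : ℝ := 2 * (1 + B0) * 2 * (4 * M * Real.sqrt (8 * R)) with hA
  have hA0 : 0 ≤ A := by positivity
  have hlim : Tendsto (fun L : ℝ => A * ((1 + Real.log (8 * R)) * Real.exp (-(κ * L)) +
      L * Real.exp (-(κ * L)))) atTop (𝓝 0) := by
    have t1 : Tendsto (fun L : ℝ => Real.exp (-(κ * L))) atTop (𝓝 0) :=
      Real.tendsto_exp_neg_atTop_nhds_zero.comp (tendsto_id.const_mul_atTop hκ0)
    have t2 : Tendsto (fun L : ℝ => L * Real.exp (-(κ * L))) atTop (𝓝 0) := by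
      have h := Real.tendsto_pow_mul_exp_neg_atTop_nhds_zero 1
      have h2 := (h.comp (tendsto_id.const_mul_atTop hκ0)).const_mul κ⁻¹
      rw [mul_zero] at h2
      refine h2.congr fun L => ?_
      simp only [Function.comp, id, pow_one]
      field_simp
    have t3 := ((t1.const_mul (1 + Real.log (8 * R))).add t2).const_mul A
    simpa using t3
  have hev := hlim.eventually (gt_mem_nhds hη)
  obtain ⟨L0, hL0⟩ := eventually_atTop.1 hev
  refine ⟨max L0 1, le_max_right _ _, fun L hL s hs1 hs2 hs3 q hq1 hq2 => ?_⟩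
  have hL1 : 1 ≤ L := (le_max_right _ _).trans hL
  have hb := hL0 L ((le_max_left _ _).trans hL)
  have hX : 0 < Real.exp L := Real.exp_pos L
  have hX2 : 2 ≤ Real.exp L := by
    have := Real.add_one_le_exp L
    linarith
  have hsre : 1 / 2 < s.re := by linarith
  have hsn : ‖s‖ / s.re ≤ 2 * (1 + B0) := by
    rw [div_le_iff₀ (by linarith)]
    have h1 := Complex.norm_le_abs_re_add_abs_im s
    have h2 : |s.re| ≤ 1 := by rw [abs_of_pos (by linarith)]; exact hs2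
    nlinarith
  have hfl : Real.exp L / 2 ≤ ((⌊Real.exp L⌋₊ : ℕ) : ℝ) := by
    have := Nat.lt_floor_add_one (Real.exp L)
    linarith
  have hNs : ((⌊Real.exp L⌋₊ : ℕ) : ℝ) ^ (-s.re) ≤ 2 * Real.exp (-(a * L)) := by
    have h1 : (1 : ℝ) ≤ ((⌊Real.exp L⌋₊ : ℕ) : ℝ) := by
      have : 1 ≤ ⌊Real.exp L⌋₊ := Nat.le_floor (by push_cast; linarith)
      exact_mod_cast this
    calc ((⌊Real.exp L⌋₊ : ℕ) : ℝ) ^ (-s.re) ≤ ((⌊Real.exp L⌋₊ : ℕ) : ℝ) ^ (-a) :=
          Real.rpow_le_rpow_of_exponent_le h1 (by linarith)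
      _ ≤ (Real.exp L / 2) ^ (-a) :=
          Real.rpow_le_rpow_of_nonpos (by positivity) hfl (by linarith)
      _ = (2 : ℝ) ^ a * Real.exp (-(a * L)) := by
          rw [Real.div_rpow (Real.exp_pos L).le (by norm_num), ← Real.exp_mul,
            Real.rpow_neg (by norm_num : (0 : ℝ) ≤ 2), div_inv_eq_mul, mul_comm]
          congr 2
          ring
      _ ≤ 2 * Real.exp (-(a * L)) := by
          refine mul_le_mul_of_nonneg_right ?_ (Real.exp_pos _).le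
          calc (2 : ℝ) ^ a ≤ (2 : ℝ) ^ (1 : ℝ) :=
                Real.rpow_le_rpow_of_exponent_le (by norm_num) (by linarith)
            _ = 2 := Real.rpow_one 2
  have hsq : Real.sqrt q ≤ Real.sqrt (8 * R) * Real.exp (L / 2) := by
    have h1 : Real.sqrt (8 * R * Real.exp L) = Real.sqrt (8 * R) * Real.exp (L / 2) := by
      rw [Real.sqrt_mul (by positivity)]
      congr 1
      rw [show L = L / 2 + L / 2 by ring, Real.exp_add, Real.sqrt_mul_self (Real.exp_pos _).le]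
      congr 1
      ring
    rw [← h1]
    exact Real.sqrt_le_sqrt hq2
  have hlogq : 1 + Real.log q ≤ 1 + Real.log (8 * R) + L := by
    have h1 := Real.log_le_log (by linarith) hq2
    rw [Real.log_mul (by positivity) (Real.exp_pos L).ne', Real.log_exp] at h1
    linarith
  have hlogq0 : 0 ≤ 1 + Real.log q := by
    have := Real.log_nonneg hq1
    linarith
  have hlog8 : 0 ≤ Real.log (8 * R) := Real.log_nonneg (by linarith)
  calc ‖s‖ / s.re * ((⌊Real.exp L⌋₊ : ℕ) : ℝ) ^ (-s.re) *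
        (4 * M * Real.sqrt q * (1 + Real.log q))
      ≤ 2 * (1 + B0) * (2 * Real.exp (-(a * L))) *
        (4 * M * (Real.sqrt (8 * R) * Real.exp (L / 2)) * (1 + Real.log (8 * R) + L)) := by
        have hpos : 0 ≤ s.re := by linarith
        gcongr
    _ = A * ((1 + Real.log (8 * R)) * Real.exp (-(κ * L)) + L * Real.exp (-(κ * L))) := by
        have e : Real.exp (-(κ * L)) = Real.exp (-(a * L)) * Real.exp (L / 2) := by
          rw [← Real.exp_add, hκ]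
          congr 1
          ring
        rw [e, hA]
        ring
    _ ≤ η := hb.le

/-- the mean square -/
theorem MS (h1 : E1) (h2 : E2) (h3 : E3) (h5 : E5) (a B0 t B : ℝ) (ha : 1 / 2 < a) (ht : 0 < t)
    (hB : 0 < B) (hB0 : 0 ≤ B0) :
    ∃ z0 : ℕ, ∀ z : ℕ, z0 ≤ z → ∀ c : ℕ → ℤ, (∀ p, c p = 1 ∨ c p = -1) → ∀ φ : FD, Fam φ →
    ∀ F : ℝ → ℝ, TF F → (∀ x, 0 ≤ F x) → ∀ D : ℝ, 0 < D →
    (∃ L1 : ℝ, ∀ L : ℝ, L1 ≤ L → EAg φ F (Real.exp L) (wS φ (PR 2 z) c) ≤ D * B) →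
    ∃ L0 : ℝ, ∀ L : ℝ, L0 ≤ L → ∀ s : ℂ, a ≤ s.re → s.re ≤ 1 → |s.im| ≤ B0 →
      EAg φ F (Real.exp L) (fun d => if Squarefree d then
        wS φ (PR 2 z) c d * ‖GC (ch φ d) z s‖ ^ 2 else 0) ≤ t * D := by
  classical
  obtain ⟨ρ, hρ0, hρ1, hρ2⟩ : ∃ ρ : ℝ, 0 < ρ ∧ ρ ≤ 1 ∧ ρ ≤ t / (32 * (B + t)) :=
    ⟨min 1 (t / (32 * (B + t))), lt_min one_pos (by positivity), min_le_left _ _, min_le_right _ _⟩
  obtain ⟨z1, hz1⟩ := tail_small ha hρ0
  obtain ⟨z2, hz2⟩ := MT h2 h3 a (t / 16) B ha (by positivity) hB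
  refine ⟨max (max z1 z2) 2, fun z hz c hc φ hφ F hF hF0 D hD hL1 => ?_⟩
  have hzz1 : z1 ≤ z := ((le_max_left _ _).trans (le_max_left _ _)).trans hz
  have hzz2 : z2 ≤ z := ((le_max_right _ _).trans (le_max_left _ _)).trans hz
  have hzz3 : 2 ≤ z := (le_max_right _ _).trans hz
  obtain ⟨L2, hL2⟩ := hz2 z hzz2 c hc φ hφ F hF hF0 D hD hL1
  obtain ⟨L1, hL1⟩ := hL1
  obtain ⟨K, R, hK, hR, hb1, -, hb3, hb4⟩ := tf_bound hF
  obtain ⟨η, hη0, hη1, hη2⟩ : ∃ η : ℝ, 0 < η ∧ η ≤ 1 ∧ η ≤ t / (8 * B) :=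
    ⟨min 1 (t / (8 * B)), lt_min one_pos (by positivity), min_le_left _ _, min_le_right _ _⟩
  obtain ⟨L3, hL31, hL3⟩ := err_small a B0 R ha ((∏ p ∈ PR 1 z, p).divisors.card : ℝ)
    (Nat.cast_nonneg _) hB0 hR η hη0
  refine ⟨max (max L1 L2) L3, fun L hL s hs1 hs2 hs3 => ?_⟩
  have g1 : L1 ≤ L := ((le_max_left _ _).trans (le_max_left _ _)).trans hL
  have g2 : L2 ≤ L := ((le_max_right _ _).trans (le_max_left _ _)).trans hL
  have g3 : L3 ≤ L := (le_max_right _ _).trans hL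
  have hX : 0 < Real.exp L := Real.exp_pos L
  have hL3' := hL3 L g3 s hs1 hs2 hs3
  have hN1 : 1 ≤ ⌊Real.exp L⌋₊ := Nat.le_floor (by
    have := Real.add_one_le_exp L
    push_cast
    linarith)
  have hNX : ((⌊Real.exp L⌋₊ : ℕ) : ℝ) ≤ Real.exp L := Nat.floor_le hX.le
  generalize ⌊Real.exp L⌋₊ = N at hL3' hN1 hNX
  have hspos : 0 < s.re := by linarith
  have b2 : EAg φ F (Real.exp L) (wS φ (PR 2 z) c) ≤ D * B := hL1 L g1
  have hMT : ∀ N' : ℕ, (N' : ℝ) ≤ Real.exp L → EAg φ F (Real.exp L) (fun d => if Squarefree d then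
      wS φ (PR 2 z) c d * ‖TS z N' (φ.e * (d : ℤ)) s‖ ^ 2 else 0) ≤ t / 16 * D :=
    fun N' hN' => hL2 L g2 N' hN' s hs1
  have w0 : ∀ d, 0 ≤ wS φ (PR 2 z) c d := fun d => wS_nonneg φ (hPR2 z) (fun p _ => hc p) d
  generalize wS φ (PR 2 z) c = w at b2 hMT w0 ⊢
  -- abbreviations
  set Y : ℕ → ℕ → ℝ := fun r d => if Squarefree d then
    w d * ‖TS z (N / r ^ 2) (φ.e * (d : ℤ)) s‖ ^ 2 else 0 with hY
  set Y0 : ℕ → ℝ := fun d => if Squarefree d then
    w d * ‖TS z N (φ.e * (d : ℤ)) s‖ ^ 2 else 0 with hY0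
  have key : EAg φ F (Real.exp L) (fun d => if Squarefree d then
        w d * ‖GC (ch φ d) z s‖ ^ 2 else 0) ≤
      EAg φ F (Real.exp L) (fun d => (4 * Y0 d + (8 * ρ) * ∑ r ∈ Ioc z N,
        (r : ℝ) ^ (-(2 * a)) * (w d + Y r d)) + (2 * η) * w d) := by
    refine EAg_mono φ hF hF0 L fun d hA hFd => ?_
    have hsum0 : 0 ≤ ∑ r ∈ Ioc z N, (r : ℝ) ^ (-(2 * a)) * (w d + Y r d) := by
      refine Finset.sum_nonneg fun r _ => mul_nonneg (by positivity) (add_nonneg (w0 d) ?_)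
      simp only [hY]
      split_ifs
      · exact mul_nonneg (w0 d) (by positivity)
      · exact le_rfl
    by_cases hsq : Squarefree d
    swap
    · rw [if_neg hsq]
      have h1 : Y0 d = 0 := by simp only [hY0, if_neg hsq]
      rw [h1]
      have h2 := mul_nonneg (show (0 : ℝ) ≤ 8 * ρ by linarith) hsum0
      have h3 := mul_nonneg (show (0 : ℝ) ≤ 2 * η by linarith) (w0 d)
      linarith
    rw [if_pos hsq]
    have hd : d ∈ SFg φ := ⟨hA, hsq⟩
    have hdpos : 0 < (d : ℝ) / Real.exp L := by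
      by_contra hcon
      push Not at hcon
      exact hFd (hb4 _ hcon)
    have hd1 : 0 < d := by
      rcases Nat.eq_zero_or_pos d with h | h
      · rw [h] at hdpos; simp at hdpos
      · exact h
    have hd2 : (d : ℝ) ≤ R * Real.exp L := by
      by_contra hcon
      push Not at hcon
      exact hFd (hb3 _ (by rwa [lt_div_iff₀ hX]))
    have hr := r_bd hφ
    have hq1 : (1 : ℝ) ≤ ((φ.r * d : ℕ) : ℝ) := by
      have : 1 ≤ φ.r * d := Nat.mul_pos hr.1 hd1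
      exact_mod_cast this
    have hq2 : ((φ.r * d : ℕ) : ℝ) ≤ 8 * R * Real.exp L := by
      push_cast
      have : (φ.r : ℝ) ≤ 8 := by exact_mod_cast hr.2
      have hd3 : (0 : ℝ) < d := by exact_mod_cast hd1
      nlinarith
    set S' : ℂ := ∑ n ∈ (Ioc 1 N).filter (fun n => Ro z n),
      (js (φ.e * (d : ℤ)) n : ℂ) * (n : ℂ) ^ (-s) with hS'
    have hpt : ‖GC (ch φ d) z s - S'‖ ≤ η :=
      (pt h1 hφ hd hzz3 hN1 hspos).trans (hL3' _ hq1 hq2)
    have hG : ‖GC (ch φ d) z s‖ ^ 2 ≤ 2 * ‖S'‖ ^ 2 + 2 * η := by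
      have h6 : ‖GC (ch φ d) z s‖ ≤ ‖S'‖ + η := by
        have := norm_add_le (GC (ch φ d) z s - S') S'
        rw [sub_add_cancel] at this
        linarith
      have h7 : ‖GC (ch φ d) z s‖ ^ 2 ≤ (‖S'‖ + η) ^ 2 := pow_le_pow_left₀ (norm_nonneg _) h6 2
      nlinarith [sq_nonneg (‖S'‖ - η)]
    have h8 := h5 z N (φ.e * (d : ℤ)) a ρ s ha hs1 hρ0.le (hz1 z hzz1)
    rw [← hS'] at h8
    have h9 : w d * ‖S'‖ ^ 2 ≤ 2 * Y0 d + 4 * ρ * ∑ r ∈ Ioc z N,
        (r : ℝ) ^ (-(2 * a)) * (w d + Y r d) := by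
      refine (mul_le_mul_of_nonneg_left h8 (w0 d)).trans (le_of_eq ?_)
      simp only [hY0, hY, if_pos hsq]
      rw [mul_add, mul_left_comm (w d) (4 * ρ), Finset.mul_sum]
      congr 1
      · ring
      · congr 1
        refine Finset.sum_congr rfl fun r _ => ?_
        ring
    calc w d * ‖GC (ch φ d) z s‖ ^ 2 ≤ w d * (2 * ‖S'‖ ^ 2 + 2 * η) :=
          mul_le_mul_of_nonneg_left hG (w0 d)
      _ = 2 * (w d * ‖S'‖ ^ 2) + 2 * η * w d := by ring
      _ ≤ _ := by linarith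
  refine key.trans ?_
  rw [EAg_add φ hF L, EAg_add φ hF L, EAg_mul φ hF L, EAg_mul φ hF L, EAg_mul φ hF L,
    EAg_sum φ hF L]
  have b1 : EAg φ F (Real.exp L) Y0 ≤ t / 16 * D := hMT N hNX
  have b3 : ∀ r ∈ Ioc z N, EAg φ F (Real.exp L) (fun d => (r : ℝ) ^ (-(2 * a)) * (w d + Y r d)) ≤
      (r : ℝ) ^ (-(2 * a)) * (D * B + t / 16 * D) := by
    intro r hr
    rw [EAg_mul φ hF L, EAg_add φ hF L]
    have hr1 : ((N / r ^ 2 : ℕ) : ℝ) ≤ Real.exp L := by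
      have : N / r ^ 2 ≤ N := Nat.div_le_self _ _
      have : ((N / r ^ 2 : ℕ) : ℝ) ≤ N := by exact_mod_cast this
      linarith
    have b4 : EAg φ F (Real.exp L) (Y r) ≤ t / 16 * D := hMT (N / r ^ 2) hr1
    exact mul_le_mul_of_nonneg_left (add_le_add b2 b4) (by positivity)
  have b5 : ∑ r ∈ Ioc z N, EAg φ F (Real.exp L)
      (fun d => (r : ℝ) ^ (-(2 * a)) * (w d + Y r d)) ≤ ρ * (D * B + t / 16 * D) := by
    refine (Finset.sum_le_sum b3).trans ?_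
    rw [← Finset.sum_mul]
    exact mul_le_mul_of_nonneg_right (hz1 z hzz1 _ fun r hr => (Finset.mem_Ioc.1 hr).1)
      (by positivity)
  have b6 : 8 * ρ * (ρ * (D * B + t / 16 * D)) ≤ t / 4 * D := by
    have h1 : ρ * ρ ≤ t / (32 * (B + t)) := by nlinarith
    have h2 : D * B + t / 16 * D ≤ D * (B + t) := by nlinarith [mul_pos ht hD]
    calc 8 * ρ * (ρ * (D * B + t / 16 * D)) = 8 * (ρ * ρ) * (D * B + t / 16 * D) := by ring
      _ ≤ 8 * (t / (32 * (B + t))) * (D * (B + t)) := by gcongr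
      _ = t / 4 * D := by
          field_simp
          ring
  have b7 : 2 * η * EAg φ F (Real.exp L) w ≤ t / 4 * D := by
    calc 2 * η * EAg φ F (Real.exp L) w ≤ 2 * η * (D * B) :=
          mul_le_mul_of_nonneg_left b2 (by positivity)
      _ ≤ 2 * (t / (8 * B)) * (D * B) := by gcongr
      _ = t / 4 * D := by
          field_simp
          ring
  have b8 : 8 * ρ * ∑ r ∈ Ioc z N, EAg φ F (Real.exp L)
      (fun d => (r : ℝ) ^ (-(2 * a)) * (w d + Y r d)) ≤ t / 4 * D :=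
    (mul_le_mul_of_nonneg_left b5 (by positivity)).trans b6
  have htD : 0 < t * D := by positivity
  linarith

end

end Pool.Agent.H282RU
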