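import Pool.Agent.H282RU.Stm2
import Pool.Agent.W161.LF.Loc
import Pool.Agent.H423R2.RGL.CGF
import Pool.Agent.TH178.ZF.Fin
import Pool.Agent.H692R2.RZ2_FI3
import Pool.Agent.H692R2.RZ2_W0

set_option autoImplicit false

/-!
Universality on real segments and positivity of quadratic L-functions: one family.
-/

namespace Pool.Agent.H282RU

open Finset Filter Topology MeasureTheory Pool.Agent.H306R2.RZ Pool.Agent.H306R2.RG
open Pool.Agent.W169.QP (Na Mf cnt_mono cnt_union)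
open Pool.Agent.W161.LF (loc lv ld lv_sqf ld_pos FG_loc CG_loc)
open Pool.Agent.R318.QL (EF_eq)

noncomputable section

/-- the product of the Euler factor at `2` and of the L-function is close to the Euler product -/
def Close (a τ : ℝ) (φ : FD) (S : Finset ℕ) (c : ℕ → ℤ) (d : ℕ) : Prop :=
  ∀ σ : ℝ, a ≤ σ → σ ≤ 1 →
    |(1 - φ.η * (2 : ℝ) ^ (-σ)) * LLg φ d σ - EU S c (σ - 1 / 2)| ≤ τ * EU S c (σ - 1 / 2)

lemma PR_odd {z p : ℕ} (hp : p ∈ PR 2 z) : p.Prime ∧ Odd p := by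
  unfold PR at hp
  rw [Finset.mem_filter, Finset.mem_Ioc] at hp
  exact ⟨hp.2, hp.2.odd_of_ne_two (by omega)⟩

lemma EU_pos {z : ℕ} {c : ℕ → ℤ} (hc : ∀ p, c p = 1 ∨ c p = -1) {u : ℝ} (hu : 0 ≤ u) :
    0 < EU (PR 2 z) c u := by
  unfold EU
  refine Finset.prod_pos fun p hp => inv_pos.2 ?_
  have hp1 : (1 : ℝ) < p := by exact_mod_cast (PR_odd hp).1.one_lt
  have h1 : (p : ℝ) ^ (-(1 / 2 + u)) < 1 := Real.rpow_lt_one_of_one_lt_of_neg hp1 (by linarith)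
  have h2 : 0 < (p : ℝ) ^ (-(1 / 2 + u)) := Real.rpow_pos_of_pos (by linarith) _
  rcases hc p with h | h <;> rw [h] <;> push_cast <;> linarith

lemma lv_of_js {φ : FD} {p d : ℕ} (hp : p.Prime) {k : ℤ} (hk : k = 1 ∨ k = -1)
    (h : js (φ.e * (d : ℤ)) p = (k : ℝ)) : lv φ.e p d = k := by
  have hj : jacobiSym (φ.e * (d : ℤ)) p = k := by
    unfold js at h
    exact_mod_cast h
  have hnd : ¬ p ∣ d := by
    intro hd
    have h0 : jacobiSym (φ.e * (d : ℤ)) p = 0 := by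
      have : NeZero p := ⟨hp.ne_zero⟩
      rw [jacobiSym.eq_zero_iff_not_coprime]
      intro hg
      have h1 : (p : ℤ) ∣ φ.e * (d : ℤ) := Dvd.dvd.mul_left (Int.natCast_dvd_natCast.2 hd) _
      have h2 : (p : ℕ) ∣ (φ.e * (d : ℤ)).gcd p :=
        Int.dvd_gcd h1 (dvd_refl _) |> fun h => by exact_mod_cast h
      rw [hg] at h2
      exact hp.one_lt.ne' (Nat.dvd_one.1 h2)
    rw [h0] at hj
    rcases hk with h | h <;> omega
  have hf : d.factorization p = 0 := Nat.factorization_eq_zero_of_not_dvd hnd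
  unfold lv
  rw [hf]
  simpa using hj

lemma wS_avg (φ : FD) {F : ℝ → ℝ} (hF : TF F) (hF0 : ∀ x, 0 ≤ F x) {z : ℕ} {c : ℕ → ℤ}
    (hc : ∀ p, c p = 1 ∨ c p = -1) (L : ℝ) :
    EAg φ F (Real.exp L) (wS φ (PR 2 z) c) ≤
      EAg (loc φ (PR 2 z) c) F (1 * Real.exp L) (fun _ => 1) := by
  classical
  rw [one_mul]
  obtain ⟨U, hU⟩ := Pool.Agent.R318.QL.fin_supp F hF (Real.exp L) (Real.exp_pos L)
  rw [EF_eq φ F _ U hU, EF_eq (loc φ (PR 2 z) c) F _ U hU]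
  refine div_le_div_of_nonneg_right (Finset.sum_le_sum fun d _ => ?_) (Real.exp_pos L).le
  by_cases hA : φ.A d
  · rw [if_pos hA]
    by_cases hw : wS φ (PR 2 z) c d = 0
    · rw [hw, mul_zero]
      split_ifs
      · exact mul_nonneg (hF0 _) zero_le_one
      · exact le_rfl
    · have h1 := wS_ne_zero φ (fun p hp => PR_odd hp) (fun p _ => hc p) hw
      have hA' : (loc φ (PR 2 z) c).A d :=
        ⟨hA, fun p hp => lv_of_js (PR_odd hp).1 (hc p) (h1 p hp)⟩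
      rw [if_pos hA']
      exact mul_le_mul_of_nonneg_left (wS_le_one φ (fun p hp => PR_odd hp) (fun p _ => hc p) d)
        (hF0 _)
  · rw [if_neg hA]
    split_ifs
    · exact mul_nonneg (hF0 _) zero_le_one
    · exact le_rfl

lemma SF_sub (φ : FD) {z : ℕ} {c : ℕ → ℤ} : SFg (loc φ (PR 2 z) c) ⊆ CS φ (PR 2 z) c := by
  rintro d ⟨⟨h1, h2⟩, h3⟩
  refine ⟨h1, h3, fun p hp => ?_⟩
  have h4 := h2 p hp
  rw [lv_sqf (PR_odd hp).1 h3] at h4
  unfold js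
  rw [h4]

lemma exists_wt : ∃ (r κ : ℝ → ℝ) (K : ℝ), ST (1 / 80) (1 / 20) r ∧
    KP (1 / 1000) (1 / 2000) κ ∧ WT (fun y => r y * κ y) K := by
  obtain ⟨-, W2, W3⟩ := Pool.Agent.H692R2.RZ2W0.W0
  obtain ⟨κ, hκ⟩ := W2 (1 / 1000) (1 / 2000) (by norm_num) (by norm_num)
  obtain ⟨r, hr⟩ := W3 (1 / 80) (1 / 20) (by norm_num)
  have hsm : ContDiff ℝ 1 (fun y => r y * κ y) :=
    (hr.smooth.mul hκ.smooth).of_le (by exact_mod_cast le_top)
  have hsupp : HasCompactSupport (fun y => r y * κ y) := by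
    refine HasCompactSupport.intro (K := Set.Icc (-1) 1) isCompact_Icc fun y hy => ?_
    by_contra hne
    apply hy
    have h1 : κ y ≠ 0 := fun h => hne (by simp only [h, mul_zero])
    have h2 := hκ.supp y h1
    constructor
    · linarith [h2.1]
    · linarith [h2.2]
  obtain ⟨K, hK⟩ := ContDiff.lipschitzWith_of_hasCompactSupport hsupp hsm (by norm_num)
  refine ⟨r, κ, K, hr, hκ, ⟨?_, fun y => ?_, fun y y' _ _ => ?_, fun y hy => ?_⟩⟩
  · show r 0 * κ 0 = 1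
    rw [hr.one 0 (by norm_num), hκ.one 0 (by norm_num) (by norm_num), one_mul]
  · show |r y * κ y| ≤ 1
    rw [abs_mul, abs_of_nonneg (hr.nonneg y), abs_of_nonneg (hκ.nonneg y)]
    exact mul_le_one₀ (hr.le_one y) (hκ.nonneg y) (hκ.le_one y)
  · have := hK.dist_le_mul y y'
    rwa [Real.dist_eq, Real.dist_eq] at this
  · show r y * κ y = 0
    rw [hr.zero y hy, zero_mul]

/-- combination of the two approximations -/
lemma combine {A M E τ : ℝ} (hE : 0 < E) (hτ : 0 < τ)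
    (h1 : |A * M - 1| < min (τ / 4) (1 / 2)) (h2 : |M * E - 1| < min (τ / 4) (1 / 2)) :
    |A - E| ≤ τ * E := by
  have a1 := (lt_min_iff.1 h1).1
  have a3 := (lt_min_iff.1 h2).1
  have a4 := (lt_min_iff.1 h2).2
  obtain ⟨b1, b2⟩ := abs_lt.1 a1
  obtain ⟨b3, b4⟩ := abs_lt.1 a3
  obtain ⟨b5, b6⟩ := abs_lt.1 a4
  have hME : 1 / 2 < M * E := by linarith
  have hM : 0 < M := by
    by_contra hneg
    push Not at hneg
    have := mul_nonpos_of_nonpos_of_nonneg hneg hE.le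
    linarith
  -- `(A - E) M = (A M - 1) - (M E - 1)`
  have key : |A - E| * M ≤ τ / 2 := by
    have e : |A - E| * M = |(A * M - 1) - (M * E - 1)| := by
      have e' : (A * M - 1) - (M * E - 1) = (A - E) * M := by ring
      rw [e', abs_mul, abs_of_pos hM]
    rw [e, abs_le]
    constructor <;> linarith
  have h3 : τ / 2 ≤ τ * E * M := by nlinarith
  have h4 : |A - E| * M ≤ (τ * E) * M := key.trans h3
  exact le_of_mul_le_mul_right h4 hM

theorem famU (hPC : PC) (hPM : PM) (hPD : PD) (a : ℝ) (ha : 1 / 2 < a) (ha1 : a ≤ 1) (τ t : ℝ)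
    (hτ : 0 < τ) (ht : 0 < t) : ∃ z0 : ℕ, ∀ z : ℕ, z0 ≤ z → ∀ c : ℕ → ℤ,
    (∀ p, c p = 1 ∨ c p = -1) → ∀ φ, Fam φ → ∃ N : ℕ, ∀ X : ℕ, N ≤ X →
      ((SFg (loc φ (PR 2 z) c) ∩ {d | d ≤ X}).ncard : ℝ) ≤
        ((SFg (loc φ (PR 2 z) c) ∩ {d | d ≤ X} ∩ {d | Close a τ φ (PR 2 z) c d}).ncard : ℝ) +
          t * ((loc φ (PR 2 z) c).δ * X) := by
  obtain ⟨r, κ, K, hr, hκ, hW⟩ := exists_wt
  set τ1 : ℝ := min (τ / 4) (1 / 2) with hτ1
  have hτ10 : 0 < τ1 := lt_min (by positivity) (by norm_num)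
  have hu1 : 0 < a - 1 / 2 := by linarith
  have hu2 : a - 1 / 2 ≤ 1 / 2 := by linarith
  obtain ⟨z0, hz0⟩ := hPD _ K hW (a - 1 / 2) (t / 8) τ1 3 hu1 hu2 (by positivity) hτ10 (by norm_num)
  refine ⟨z0, fun z hz c hc φ hφ => ?_⟩
  have hSodd : ∀ p ∈ PR 2 z, p.Prime ∧ Odd p := fun p hp => PR_odd hp
  have hc' : ∀ p ∈ PR 2 z, c p = 0 ∨ c p = 1 ∨ c p = -1 := fun p _ => Or.inr (hc p)
  set ψ := loc φ (PR 2 z) c with hψ
  have hFG : FG ψ := FG_loc φ hφ (PR 2 z) hSodd c hc'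
  have hCG : CG ψ := CG_loc φ (LnkC.CGF φ hφ) (PR 2 z) c
  have hδ : 0 < ψ.δ := hFG.hδ
  set η : ℝ := min (1 / 2) (t * ψ.δ / 4) with hη
  have hη0 : 0 < η := lt_min (by norm_num) (by positivity)
  have hη1 : η < 1 := (min_le_left _ _).trans_lt (by norm_num)
  obtain ⟨F, hF, hF0, hF1, hFt⟩ := Pool.Agent.H692R2.RZ2FI3.FI3 η hη0 hη1
  -- the average of the indicator
  have hwS : ∃ L1 : ℝ, ∀ L : ℝ, L1 ≤ L →
      EAg φ F (Real.exp L) (wS φ (PR 2 z) c) ≤ ψ.δ * 3 := by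
    have h1 := hFG.ef1 F hF 1 one_pos
    have h2 : ψ.δ * Ft F 0 < ψ.δ * 3 := by
      refine mul_lt_mul_of_pos_left ?_ hδ
      linarith
    obtain ⟨L1, hL1⟩ := eventually_atTop.1 (h1.eventually (gt_mem_nhds h2))
    exact ⟨L1, fun L hL => (wS_avg φ hF hF0 hc L).trans (hL1 L hL).le⟩
  obtain ⟨L2, hL2⟩ := hz0 z hz c hc φ hφ F hF hF0 ψ.δ hδ hwS
  have hAdm : Adm2 (1 / 2 + 3 * (1 / 1000)) (1 / 20) := by constructor <;> norm_num
  obtain ⟨W1, -, -⟩ := Pool.Agent.H692R2.RZ2W0.W0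
  obtain ⟨ρ, hρ⟩ := W1 (1 / 1000) (by norm_num)
  have hr' : ST (1 / 20 / 4) (1 / 20) r := by
    have e : (1 / 20 / 4 : ℝ) = 1 / 80 := by norm_num
    rw [e]
    exact hr
  obtain ⟨C, c0, L3, hC, hc0, hL3⟩ := hPC ψ hFG hCG F hF hF0 (1 / 1000) (1 / 2000) (1 / 20)
    (by norm_num) (by norm_num) (by norm_num) (by norm_num) hAdm ρ r κ hρ hr' hκ τ1 hτ10
  -- the exponential bound
  have hexp : Tendsto (fun L : ℝ => C * Real.exp (-(c0 * ((a - 1 / 2) * L)))) atTop (𝓝 (C * 0)) := by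
    refine Tendsto.const_mul C (Real.tendsto_exp_neg_atTop_nhds_zero.comp ?_)
    exact (tendsto_id.const_mul_atTop hu1).const_mul_atTop hc0
  rw [mul_zero] at hexp
  have hev1 := hexp.eventually (gt_mem_nhds (show (0 : ℝ) < t * ψ.δ / 8 by positivity))
  obtain ⟨L4, hL4⟩ := eventually_atTop.1 hev1
  have hlog : Tendsto (fun X : ℕ => Real.log X) atTop atTop :=
    Real.tendsto_log_atTop.comp tendsto_natCast_atTop_atTop
  have hev := (((hlog.eventually (eventually_ge_atTop L2)).and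
    (hlog.eventually (eventually_ge_atTop L3))).and
    ((hlog.eventually (eventually_ge_atTop L4)).and
    (hlog.eventually (eventually_ge_atTop (1 / (a - 1 / 2)))))).and
    ((eventually_ge_atTop 2).and (hlog.eventually (eventually_ge_atTop 1)))
  rw [Filter.eventually_atTop] at hev
  obtain ⟨N, hN⟩ := hev
  refine ⟨N, fun X hX => ?_⟩
  obtain ⟨⟨⟨g2, g3⟩, ⟨g4, g5⟩⟩, g6, g7⟩ := hN X hX
  set L : ℝ := Real.log X with hLdef
  have hL0 : 0 < L := by linarith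
  have hXp : (0 : ℝ) < X := by
    have : 0 < X := by omega
    exact_mod_cast this
  set X0 : ℝ := (a - 1 / 2) * L with hX0
  have hX01 : 1 ≤ X0 := by
    rw [div_le_iff₀ hu1] at g5
    rw [hX0, mul_comm]
    exact g5
  have hX02 : X0 ≤ L / 2 := by
    rw [hX0]
    nlinarith
  set B1 : Set ℕ := {d | ∃ x : ℝ, X0 ≤ x ∧ x ≤ L / 2 ∧
      τ1 ≤ |(1 - ψ.η * (2 : ℝ) ^ (-(1 / 2 + x / L))) * LLg ψ d (1 / 2 + x / L) *
        Mf ψ L r κ d x - 1|} with hB1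
  set B2 : Set ℕ := {d | ∃ u : ℝ, a - 1 / 2 ≤ u ∧ u ≤ 1 / 2 ∧
      τ1 ≤ |MW φ L (fun y => r y * κ y) d u * EU (PR 2 z) c u - 1|} with hB2
  have p1 : cnt F L (SFg ψ ∩ B1) ≤ t * ψ.δ / 8 := (hL3 L g3 X0 hX01 hX02).trans (hL4 L g4).le
  have p2 : cnt F L (SFg ψ ∩ B2) ≤ t / 8 * ψ.δ :=
    (cnt_mono hF hF0 L (Set.inter_subset_inter_left _ (SF_sub φ))).trans (hL2 L g2)
  have p3 := Pool.Agent.TH178.ZF.bad_count' ψ hCG hF hF0 hF1 X g6 hη0
    {d | Close a τ φ (PR 2 z) c d} (B1 ∪ B2) (by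
      intro d hd _ hbad
      by_contra hnot
      apply hbad
      intro σ hσ0 hσ1
      have hx1 : X0 ≤ (σ - 1 / 2) * L := by
        rw [hX0]
        exact mul_le_mul_of_nonneg_right (by linarith) hL0.le
      have hx2 : (σ - 1 / 2) * L ≤ L / 2 := by nlinarith
      have e1 : 1 / 2 + (σ - 1 / 2) * L / L = σ := by
        rw [mul_div_cancel_right₀ _ hL0.ne']
        ring
      have e2 : (σ - 1 / 2) * L / L = σ - 1 / 2 := mul_div_cancel_right₀ _ hL0.ne'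
      have n1 : |(1 - φ.η * (2 : ℝ) ^ (-σ)) * LLg φ d σ *
          MW φ L (fun y => r y * κ y) d (σ - 1 / 2) - 1| < τ1 := by
        by_contra hge
        push Not at hge
        apply hnot
        left
        refine ⟨(σ - 1 / 2) * L, hx1, hx2, ?_⟩
        rw [e1, hPM ψ r κ L hL0 hr d _, e2]
        exact hge
      have n2 : |MW φ L (fun y => r y * κ y) d (σ - 1 / 2) * EU (PR 2 z) c (σ - 1 / 2) - 1| < τ1 := by
        by_contra hge
        push Not at hge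
        exact hnot (Or.inr ⟨σ - 1 / 2, by linarith, by linarith, hge⟩)
      exact combine (EU_pos hc (by linarith)) hτ n1 n2)
  have p4 : cnt F L (SFg ψ ∩ (B1 ∪ B2)) ≤ cnt F L (SFg ψ ∩ B1) + cnt F L (SFg ψ ∩ B2) := by
    rw [Set.inter_union_distrib_left]
    exact cnt_union hF hF0 L _ _
  refine p3.trans ?_
  have p5 : η * X + X * cnt F L (SFg ψ ∩ (B1 ∪ B2)) ≤ t * (ψ.δ * X) := by
    have h1 : η ≤ t * ψ.δ / 4 := min_le_right _ _
    have h2 : cnt F L (SFg ψ ∩ (B1 ∪ B2)) ≤ t * ψ.δ / 4 := by linarith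
    have h3 : η * X ≤ t * ψ.δ / 4 * X := mul_le_mul_of_nonneg_right h1 hXp.le
    have h4 : (X : ℝ) * cnt F L (SFg ψ ∩ (B1 ∪ B2)) ≤ X * (t * ψ.δ / 4) :=
      mul_le_mul_of_nonneg_left h2 hXp.le
    have h5 : 0 < t * ψ.δ * X := by positivity
    nlinarith
  linarith

end

end Pool.Agent.H282RU
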