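import Pool.Agent.H282RU.E4c
import Pool.Agent.H282RU.FL
import Pool.Agent.Helper240.ZU.D

/-!
Universality on compact sets: for most characters of a local class `L(s,χ)` is close to the finite
Euler product on a rectangle.
-/

set_option autoImplicit false

namespace Pool.Agent.H282RU

open Finset Filter Topology MeasureTheory Pool.Agent.H306R2.RZ Pool.Agent.H306R2.RG
open Pool.Agent.W161.LF
open Pool.Agent.H463R2.RGFIN (ch ch_spec mem_FS FS mem_le r_bd)
open Pool.Agent.R318.QL (EF_eq tf_bound fin_supp)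
open Pool.Agent.W169.QP (cnt_mono cnt_union)
open Pool.Agent.H228R2.RGTR (cnt_eq)

noncomputable section

/-- `L(s,χ)` times the finite Euler product is close to `1` on a rectangle -/
def ClC (a b B τ : ℝ) (φ : FD) (z d : ℕ) : Prop :=
  ∀ s : ℂ, a ≤ s.re → s.re ≤ b → |s.im| ≤ B → ‖GC (ch φ d) z s‖ ≤ τ

lemma GC_diff {φ : FD} (hφ : Fam φ) {d : ℕ} (hd : d ∈ SFg φ) (z : ℕ) :
    Differentiable ℂ (GC (ch φ d) z) := by
  obtain ⟨k1, k2, k3, k4⟩ := ch_spec hCGF hφ hd
  obtain ⟨k5, k6, k7, k8⟩ := k1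
  have e : GC (ch φ d) z = fun s => DirichletCharacter.LFunction (ch φ d).2 s *
      ∏ q ∈ PR 1 z, (1 - (ch φ d).2 (q : ZMod (ch φ d).1) * (q : ℂ) ^ (-s)) - 1 := by
    funext s
    exact GC_eq _ z s
  rw [e]
  refine ((DirichletCharacter.differentiable_LFunction k8).mul ?_).sub_const 1
  refine Differentiable.fun_finsetProd fun q hq => ?_
  refine (differentiable_const _).sub ((differentiable_const _).mul ?_)
  intro s
  exact (differentiableAt_id.neg).const_cpow
    (Or.inl (by exact_mod_cast ((mem_PR1 z q).1 hq).1.ne_zero))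

lemma rect_cpt (a b B : ℝ) : IsCompact (ZU.rect a b B) := by
  have h : ZU.rect a b B = Set.Icc a b ×ℂ Set.Icc (-B) B := by
    ext z
    simp only [ZU.rect, Set.mem_ofPred_eq, Complex.mem_reProdIm, Set.mem_Icc, abs_le]
    tauto
  rw [h]
  exact isCompact_Icc.reProdIm isCompact_Icc

/-- from mean squares to the counting function -/
lemma cnt_area {φ : FD} (hφ : Fam φ) {F : ℝ → ℝ} (hF : TF F) (hF0 : ∀ x, 0 ≤ F x) (L : ℝ)
    (z : ℕ) {c : ℕ → ℤ} (hc : ∀ p, c p = 1 ∨ c p = -1) {a b B a' b' B' C0 τ E : ℝ}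
    (hC0 : 0 < C0) (hτ : 0 < τ)
    (hsup : ∀ (g : ℂ → ℂ) (U : Set ℂ), IsOpen U → ZU.rect a' b' B' ⊆ U →
      DifferentiableOn ℂ g U → ∀ s ∈ ZU.rect a b B,
        ‖g s‖ ^ 2 ≤ C0 * ∫ w in ZU.rect a' b' B', ‖g w‖ ^ 2)
    (hE : ∀ s ∈ ZU.rect a' b' B', EAg φ F (Real.exp L) (fun d => if Squarefree d then
        wS φ (PR 2 z) c d * ‖GC (ch φ d) z s‖ ^ 2 else 0) ≤ E) :
    cnt F L (SFg (loc φ (PR 2 z) c) ∩ {d | ¬ ClC a b B τ φ z d}) ≤
      C0 / τ ^ 2 * (volume.real (ZU.rect a' b' B') * E) := by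
  classical
  obtain ⟨U, hU⟩ := fin_supp F hF (Real.exp L) (Real.exp_pos L)
  have hX : 0 < Real.exp L := Real.exp_pos L
  set R' : Set ℂ := ZU.rect a' b' B' with hR'
  have hRc : IsCompact R' := rect_cpt a' b' B'
  have hRm : MeasurableSet R' := hRc.measurableSet
  have w0 : ∀ d, 0 ≤ wS φ (PR 2 z) c d := fun d => wS_nonneg φ (hPR2 z) (fun p _ => hc p) d
  -- coefficients
  set co : ℕ → ℝ := fun d => if d ∈ SFg φ then F ((d : ℝ) / Real.exp L) * wS φ (PR 2 z) c d else 0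
    with hco
  have hco0 : ∀ d, 0 ≤ co d := by
    intro d
    simp only [hco]
    split_ifs
    · exact mul_nonneg (hF0 _) (w0 d)
    · exact le_rfl
  have hEA : ∀ s : ℂ, EAg φ F (Real.exp L) (fun d => if Squarefree d then
      wS φ (PR 2 z) c d * ‖GC (ch φ d) z s‖ ^ 2 else 0) =
      (∑ d ∈ U, co d * ‖GC (ch φ d) z s‖ ^ 2) / Real.exp L := by
    intro s
    rw [EF_eq φ F _ U hU]
    congr 1
    refine Finset.sum_congr rfl fun d _ => ?_
    simp only [hco]
    by_cases hA : φ.A d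
    · by_cases hsq : Squarefree d
      · rw [if_pos hA, if_pos hsq, if_pos (show d ∈ SFg φ from ⟨hA, hsq⟩)]
        ring
      · rw [if_pos hA, if_neg hsq, if_neg (show ¬ d ∈ SFg φ from fun h => hsq h.2)]
        ring
    · rw [if_neg hA, if_neg (show ¬ d ∈ SFg φ from fun h => hA h.1)]
      ring
  have hint : ∀ d ∈ U, IntegrableOn (fun s => co d * ‖GC (ch φ d) z s‖ ^ 2) R' := by
    intro d _
    by_cases hd : d ∈ SFg φ
    · exact ((((GC_diff hφ hd z).continuous.norm.pow 2).continuousOn).integrableOn_compact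
        hRc).const_mul _
    · have : (fun s => co d * ‖GC (ch φ d) z s‖ ^ 2) = fun _ => 0 := by
        funext s
        simp only [hco, if_neg hd, zero_mul]
      rw [this]
      exact integrableOn_zero
  have hJ : ∫ s in R', (∑ d ∈ U, co d * ‖GC (ch φ d) z s‖ ^ 2) / Real.exp L =
      (∑ d ∈ U, co d * ∫ s in R', ‖GC (ch φ d) z s‖ ^ 2) / Real.exp L := by
    rw [integral_div, integral_finsetSum U hint]
    congr 1
    refine Finset.sum_congr rfl fun d _ => ?_
    rw [integral_const_mul]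
  have hle : ∫ s in R', (∑ d ∈ U, co d * ‖GC (ch φ d) z s‖ ^ 2) / Real.exp L ≤
      volume.real R' * E := by
    have h1 : ∫ s in R', (∑ d ∈ U, co d * ‖GC (ch φ d) z s‖ ^ 2) / Real.exp L ≤
        ∫ _ in R', E := by
      refine setIntegral_mono_on ((integrable_finsetSum U hint).div_const _)
        (continuousOn_const.integrableOn_compact hRc) hRm ?_
      intro s hs
      rw [← hEA s]
      exact hE s hs
    refine h1.trans (le_of_eq ?_)
    rw [setIntegral_const, smul_eq_mul]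
  have hcnt : cnt F L (SFg (loc φ (PR 2 z) c) ∩ {d | ¬ ClC a b B τ φ z d}) ≤
      C0 / τ ^ 2 * ((∑ d ∈ U, co d * ∫ s in R', ‖GC (ch φ d) z s‖ ^ 2) / Real.exp L) := by
    rw [cnt_eq F L U hU, mul_div_assoc', Finset.mul_sum]
    refine div_le_div_of_nonneg_right (Finset.sum_le_sum fun d _ => ?_) hX.le
    have hI0 : 0 ≤ ∫ s in R', ‖GC (ch φ d) z s‖ ^ 2 :=
      integral_nonneg fun s => by positivity
    by_cases hd : d ∈ SFg (loc φ (PR 2 z) c) ∩ {d | ¬ ClC a b B τ φ z d}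
    · rw [Set.indicator_of_mem hd]
      obtain ⟨hd1, hd2⟩ := hd
      have hd3 := SF_sub φ hd1
      have hdS : d ∈ SFg φ := ⟨hd3.1, hd3.2.1⟩
      have hw1 : wS φ (PR 2 z) c d = 1 := wS_eq_one φ (hPR2 z) (fun p _ => hc p) hd3.2.2
      have hcd : co d = F ((d : ℝ) / Real.exp L) := by
        simp only [hco, if_pos hdS, hw1, mul_one]
      rw [hcd]
      have hd4 : ¬ ClC a b B τ φ z d := hd2
      unfold ClC at hd4
      push Not at hd4
      obtain ⟨s, s1, s2, s3, s4⟩ := hd4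
      have h5 := hsup (GC (ch φ d) z) Set.univ isOpen_univ (Set.subset_univ _)
        (GC_diff hφ hdS z).differentiableOn s ⟨s1, s2, s3⟩
      have h6 : τ ^ 2 ≤ C0 * ∫ w in R', ‖GC (ch φ d) z w‖ ^ 2 := by
        have : τ ^ 2 ≤ ‖GC (ch φ d) z s‖ ^ 2 := pow_le_pow_left₀ hτ.le s4.le 2
        linarith
      have h7 : 1 ≤ C0 / τ ^ 2 * ∫ w in R', ‖GC (ch φ d) z w‖ ^ 2 := by
        rw [div_mul_eq_mul_div, le_div_iff₀ (by positivity), one_mul]
        exact h6
      calc F ((d : ℝ) / Real.exp L) = F ((d : ℝ) / Real.exp L) * 1 := (mul_one _).symm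
        _ ≤ F ((d : ℝ) / Real.exp L) * (C0 / τ ^ 2 * ∫ w in R', ‖GC (ch φ d) z w‖ ^ 2) :=
            mul_le_mul_of_nonneg_left h7 (hF0 _)
        _ = _ := by ring
    · rw [Set.indicator_of_notMem hd]
      exact mul_nonneg (by positivity) (mul_nonneg (hco0 d) hI0)
  refine hcnt.trans ?_
  rw [← hJ]
  exact mul_le_mul_of_nonneg_left hle (by positivity)

end

end Pool.Agent.H282RU
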