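import Pool.Agent.Helper240.ZFM.Q5b

/-!
Universality on compact sets: approximation of real-symmetric functions by real polynomials
(from the theorem of Mergelyan).
-/

set_option autoImplicit false

open Complex Filter Topology Set

namespace Pool.Agent.H282RU

theorem mergelyan_real {K : Set ℂ} (hK : IsCompact K) (hKc : IsConnected Kᶜ)
    (hKs : ∀ z ∈ K, (starRingEnd ℂ) z ∈ K) (h : ℂ → ℂ) (hc : ContinuousOn h K)
    (hd : DifferentiableOn ℂ h (interior K))
    (hs : ∀ z ∈ K, h ((starRingEnd ℂ) z) = (starRingEnd ℂ) (h z)) (η : ℝ) (hη : 0 < η) :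
    ∃ q : ℂ → ℂ, Differentiable ℂ q ∧ (∀ s, q ((starRingEnd ℂ) s) = (starRingEnd ℂ) (q s)) ∧
      ∀ z ∈ K, ‖q z - h z‖ < η := by
  obtain ⟨p, hp⟩ := ZFM.mergelyan hK hKc h hc hd η hη
  have e : ∀ z : ℂ, (p.map (starRingEnd ℂ)).eval z = (starRingEnd ℂ) (p.eval ((starRingEnd ℂ) z)) := by
    intro z
    have h1 := Polynomial.eval₂_at_apply (p := p) (starRingEnd ℂ) ((starRingEnd ℂ) z)
    rw [Complex.conj_conj] at h1
    rw [Polynomial.eval_map, h1]
  refine ⟨fun z => (p.eval z + (p.map (starRingEnd ℂ)).eval z) / 2, ?_, ?_, ?_⟩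
  · exact (p.differentiable.add (p.map (starRingEnd ℂ)).differentiable).div_const 2
  · intro s
    simp only [e, map_div₀, map_add, Complex.conj_conj, map_ofNat]
    ring
  · intro z hz
    show ‖(p.eval z + (p.map (starRingEnd ℂ)).eval z) / 2 - h z‖ < η
    rw [e]
    have h1 := hp z hz
    have h2 := hp _ (hKs z hz)
    have h3 : ‖(starRingEnd ℂ) (p.eval ((starRingEnd ℂ) z)) - h z‖ < η := by
      have e2 : (starRingEnd ℂ) (p.eval ((starRingEnd ℂ) z)) - h z =
          (starRingEnd ℂ) (p.eval ((starRingEnd ℂ) z) - h ((starRingEnd ℂ) z)) := by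
        rw [map_sub, hs z hz, Complex.conj_conj]
      rw [e2, RCLike.norm_conj]
      exact h2
    have e3 : (p.eval z + (starRingEnd ℂ) (p.eval ((starRingEnd ℂ) z))) / 2 - h z =
        ((p.eval z - h z) + ((starRingEnd ℂ) (p.eval ((starRingEnd ℂ) z)) - h z)) / 2 := by ring
    rw [e3, norm_div, RCLike.norm_ofNat]
    have h4 := norm_add_le (p.eval z - h z) ((starRingEnd ℂ) (p.eval ((starRingEnd ℂ) z)) - h z)
    linarith

end Pool.Agent.H282RU
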