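import Pool.Agent.H282RU.E4d
import Pool.Agent.H282RU.Asm
import Pool.Agent.H282RU.MG

/-!
Universality on compact sets and positivity of quadratic L-functions: assembly.
-/

set_option autoImplicit false

namespace Pool.Agent.H282RU

open Finset Filter Topology MeasureTheory Pool.Agent.H306R2.RZ Pool.Agent.H306R2.RG
open Pool.Agent.W161.LF
open Pool.Agent.H463R2.RGFIN (ch ch_spec mem_FS FS mem_le r_bd)
open Pool.Agent.H306R2.RG.LnkC (RPC POS)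

noncomputable section

theorem famC (h1 : E1) (h2 : E2) (h3 : E3) (h5 : E5) (a b B : ℝ) (ha : 1 / 2 < a) (hab : a ≤ b)
    (hb : b < 1) (hB : 0 < B) (τ t : ℝ) (hτ : 0 < τ) (ht : 0 < t) :
    ∃ z0 : ℕ, ∀ z : ℕ, z0 ≤ z → ∀ c : ℕ → ℤ, (∀ p, c p = 1 ∨ c p = -1) →
    ∀ φ, Fam φ → ∃ N : ℕ, ∀ X : ℕ, N ≤ X →
      ((SFg (loc φ (PR 2 z) c) ∩ {d | d ≤ X}).ncard : ℝ) ≤
        ((SFg (loc φ (PR 2 z) c) ∩ {d | d ≤ X} ∩ {d | ClC a b B τ φ z d}).ncard : ℝ) +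
          t * ((loc φ (PR 2 z) c).δ * X) := by
  obtain ⟨C0, hC0, hsup⟩ := ZU.sup_le_area a b ((a + 1 / 2) / 2) ((b + 1) / 2) B (B + 1)
    (by linarith) hab (by linarith) hB (by linarith)
  obtain ⟨ar, har⟩ : ∃ ar : ℝ, ar = volume.real (ZU.rect ((a + 1 / 2) / 2) ((b + 1) / 2) (B + 1)) :=
    ⟨_, rfl⟩
  have har0 : 0 ≤ ar := by rw [har]; exact measureReal_nonneg
  obtain ⟨t1, ht10, ht1⟩ : ∃ t1 : ℝ, 0 < t1 ∧ C0 / τ ^ 2 * (ar * t1) ≤ t / 4 := by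
    refine ⟨t * τ ^ 2 / (4 * C0 * (ar + 1)), by positivity, ?_⟩
    have e : C0 / τ ^ 2 * (ar * (t * τ ^ 2 / (4 * C0 * (ar + 1)))) = t / 4 * (ar / (ar + 1)) := by
      field_simp
    rw [e]
    have : ar / (ar + 1) ≤ 1 := by
      rw [div_le_one (by positivity)]
      linarith
    nlinarith
  obtain ⟨z0, hz0⟩ := MS h1 h2 h3 h5 ((a + 1 / 2) / 2) (B + 1) t1 3 (by linarith) ht10 (by norm_num)
    (by linarith)
  refine ⟨z0, fun z hz c hc φ hφ => ?_⟩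
  have hSodd : ∀ p ∈ PR 2 z, p.Prime ∧ Odd p := fun p hp => PR_odd hp
  have hc' : ∀ p ∈ PR 2 z, c p = 0 ∨ c p = 1 ∨ c p = -1 := fun p _ => Or.inr (hc p)
  set ψ := loc φ (PR 2 z) c with hψ
  have hFG : FG ψ := FG_loc φ hφ (PR 2 z) hSodd c hc'
  have hCG : CG ψ := CG_loc φ (LnkC.CGF φ hφ) (PR 2 z) c
  have hδ : 0 < ψ.δ := hFG.hδ
  set η : ℝ := min (1 / 2) (t * ψ.δ / 4) with hη
  have hη0 : 0 < η := lt_min (by norm_num) (by positivity)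
  have hη1 : η < 1 := (min_le_left _ _).trans_lt (by norm_num)
  obtain ⟨F, hF, hF0, hF1, hFt⟩ := Pool.Agent.H692R2.RZ2FI3.FI3 η hη0 hη1
  have hwS : ∃ L1 : ℝ, ∀ L : ℝ, L1 ≤ L →
      EAg φ F (Real.exp L) (wS φ (PR 2 z) c) ≤ ψ.δ * 3 := by
    have h1 := hFG.ef1 F hF 1 one_pos
    have h2 : ψ.δ * Ft F 0 < ψ.δ * 3 := by
      refine mul_lt_mul_of_pos_left ?_ hδ
      linarith
    obtain ⟨L1, hL1⟩ := eventually_atTop.1 (h1.eventually (gt_mem_nhds h2))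
    exact ⟨L1, fun L hL => (wS_avg φ hF hF0 hc L).trans (hL1 L hL).le⟩
  obtain ⟨L2, hL2⟩ := hz0 z hz c hc φ hφ F hF hF0 ψ.δ hδ hwS
  have hlog : Tendsto (fun X : ℕ => Real.log X) atTop atTop :=
    Real.tendsto_log_atTop.comp tendsto_natCast_atTop_atTop
  have hev := (hlog.eventually (eventually_ge_atTop L2)).and (eventually_ge_atTop 2)
  rw [Filter.eventually_atTop] at hev
  obtain ⟨N, hN⟩ := hev
  refine ⟨N, fun X hX => ?_⟩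
  obtain ⟨g2, g6⟩ := hN X hX
  have hXp : (0 : ℝ) < X := by
    have : 0 < X := by omega
    exact_mod_cast this
  have p1 : cnt F (Real.log X) (SFg ψ ∩ {d | ¬ ClC a b B τ φ z d}) ≤ t * ψ.δ / 4 := by
    have h6 := cnt_area hφ hF hF0 (Real.log X) z hc hC0 hτ hsup (E := t1 * ψ.δ) (fun s hs =>
      hL2 _ g2 s hs.1 (by have := hs.2.1; linarith) hs.2.2)
    refine h6.trans ?_
    rw [← har]
    calc C0 / τ ^ 2 * (ar * (t1 * ψ.δ)) = (C0 / τ ^ 2 * (ar * t1)) * ψ.δ := by ring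
      _ ≤ t / 4 * ψ.δ := mul_le_mul_of_nonneg_right ht1 hδ.le
      _ = t * ψ.δ / 4 := by ring
  have p3 := Pool.Agent.TH178.ZF.bad_count' ψ hCG hF hF0 hF1 X g6 hη0
    {d | ClC a b B τ φ z d} {d | ¬ ClC a b B τ φ z d} (fun d _ _ hbad => hbad)
  refine p3.trans ?_
  have p5 : η * X + X * cnt F (Real.log X) (SFg ψ ∩ {d | ¬ ClC a b B τ φ z d}) ≤
      t * (ψ.δ * X) := by
    have h1 : η ≤ t * ψ.δ / 4 := min_le_right _ _
    have h3 : η * X ≤ t * ψ.δ / 4 * X := mul_le_mul_of_nonneg_right h1 hXp.le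
    have h4 : (X : ℝ) * cnt F (Real.log X) (SFg ψ ∩ {d | ¬ ClC a b B τ φ z d}) ≤
        X * (t * ψ.δ / 4) := mul_le_mul_of_nonneg_left p1 hXp.le
    have h5 : 0 < t * ψ.δ * X := by positivity
    nlinarith
  linarith

/-- proportion of the characters with positive L-function in a local class -/
theorem prop_J (φ : FD) (hφ : Fam φ) (S : Finset ℕ) (hS : ∀ p ∈ S, p.Prime ∧ Odd p) (c : ℕ → ℤ)
    (hc : ∀ p ∈ S, c p = 0 ∨ c p = 1 ∨ c p = -1) (J' : ℝ) (hJ' : 27 / 200 < J') :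
    ∃ N : ℕ, ∀ X : ℕ, N ≤ X →
      (1 - J') * ((SFg (loc φ S c) ∩ {d | d ≤ X}).ncard : ℝ) ≤
        ((SFg (loc φ S c) ∩ {d | d ≤ X} ∩
          {d | ∀ σ : ℝ, 0 < σ → σ < 1 → 0 < LLg φ d σ}).ncard : ℝ) := by
  have hAdm : ∃ δ θ : ℝ, 0 < δ ∧ δ < 1 / 8 ∧ (499 / 1000 : ℝ) < θ ∧ Adm2 (1 / 2 + 3 * δ) θ := by
    refine ⟨1 / 100000, 4995 / 10000, by norm_num, by norm_num, by norm_num, ?_⟩
    constructor <;> norm_num
  obtain ⟨N, hN⟩ := LnkB.FI4G (loc φ S c) (FG_loc φ hφ S hS c hc) (CG_loc φ (LnkC.CGF φ hφ) S c)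
      (DEN_loc φ hφ S hS c hc) (499 / 1000) (27 / 200) (by norm_num) hAdm
      (Pool.Agent.H423R2.RGL.OldN.NUM (499 / 1000) (27 / 200) (Or.inr (Or.inr ⟨rfl, rfl⟩)))
      J' hJ'
  exact ⟨N, fun X hX => hN X hX⟩

/-- proportion in one family -/
lemma fam_propC (h1 : E1) (h2 : E2) (h3 : E3) (h5 : E5) {a b B : ℝ} (ha : 1 / 2 < a) (hab : a ≤ b)
    (hb : b < 1) (hB : 0 < B) {τ : ℝ} (hτ : 0 < τ) {θ : ℝ} (hθ : θ < 865 / 1000) :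
    ∃ z0 : ℕ, ∀ z : ℕ, z0 ≤ z → ∀ c : ℕ → ℤ,
    (∀ p, c p = 1 ∨ c p = -1) → ∀ φ, Fam φ → ∃ N : ℕ, ∀ X : ℕ, N ≤ X →
      θ * ((SFg (loc φ (PR 2 z) c) ∩ {d | d ≤ X}).ncard : ℝ) ≤
        (((SFg (loc φ (PR 2 z) c) ∩ {d | d ≤ X}) ∩
          ({d | ∀ σ : ℝ, 0 < σ → σ < 1 → 0 < LLg φ d σ} ∩
            {d | ClC a b B τ φ z d})).ncard : ℝ) := by
  obtain ⟨z0, hz0⟩ := famC h1 h2 h3 h5 a b B ha hab hb hB τ ((865 / 1000 - θ) / 8) hτ (by linarith)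
  refine ⟨z0, fun z hz c hc φ hφ => ?_⟩
  have hSodd : ∀ p ∈ PR 2 z, p.Prime ∧ Odd p := fun p hp => PR_odd hp
  have hc' : ∀ p ∈ PR 2 z, c p = 0 ∨ c p = 1 ∨ c p = -1 := fun p _ => Or.inr (hc p)
  obtain ⟨N1, h1⟩ := hz0 z hz c hc φ hφ
  obtain ⟨N2, h2⟩ := prop_J φ hφ (PR 2 z) hSodd c hc' (27 / 200 + (865 / 1000 - θ) / 2)
    (by linarith)
  have hden := DEN_loc φ hφ (PR 2 z) hSodd c hc'
  set ψ := loc φ (PR 2 z) c with hψ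
  have hδ : 0 < ψ.δ := (FG_loc φ hφ (PR 2 z) hSodd c hc').hδ
  have hpi : (1 / 2 : ℝ) < 8 / Real.pi ^ 2 := by
    have h3 := Real.pi_lt_four
    have h4 := Real.pi_pos
    rw [lt_div_iff₀ (by positivity)]
    nlinarith
  have hlt : ψ.δ * (1 / 2) < ψ.δ * (8 / Real.pi ^ 2) := mul_lt_mul_of_pos_left hpi hδ
  obtain ⟨N3, h3⟩ := eventually_atTop.1 (hden.eventually (lt_mem_nhds hlt))
  refine ⟨max (max N1 N2) (max N3 1), fun X hX => ?_⟩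
  have hX1 : N1 ≤ X := ((le_max_left _ _).trans (le_max_left _ _)).trans hX
  have hX2 : N2 ≤ X := ((le_max_right _ _).trans (le_max_left _ _)).trans hX
  have hX3 : N3 ≤ X := ((le_max_left _ _).trans (le_max_right _ _)).trans hX
  have hX4 : 1 ≤ X := ((le_max_right _ _).trans (le_max_right _ _)).trans hX
  have hXp : (0 : ℝ) < X := by exact_mod_cast hX4
  have k1 := h1 X hX1
  have k2 := h2 X hX2
  have k3 := h3 X hX3
  rw [lt_div_iff₀ hXp] at k3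
  set A : Set ℕ := SFg ψ ∩ {d | d ≤ X} with hA
  set P : Set ℕ := {d | ∀ σ : ℝ, 0 < σ → σ < 1 → 0 < LLg φ d σ} with hP
  set Q : Set ℕ := {d | ClC a b B τ φ z d} with hQ
  have hAf : A.Finite := (Set.finite_Iic X).subset fun _ h => h.2
  have hAP : (A ∩ P).Finite := hAf.subset Set.inter_subset_left
  have hAQ : (A ∩ Q).Finite := hAf.subset Set.inter_subset_left
  have hsum := Set.ncard_inter_add_ncard_union (A ∩ P) (A ∩ Q) hAP hAQ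
  have hun : ((A ∩ P) ∪ (A ∩ Q)).ncard ≤ A.ncard :=
    Set.ncard_le_ncard (Set.union_subset Set.inter_subset_left Set.inter_subset_left) hAf
  have hin : (A ∩ P) ∩ (A ∩ Q) = A ∩ (P ∩ Q) := by
    ext d
    simp only [Set.mem_inter_iff]
    tauto
  rw [hin] at hsum
  have e1 : (((A ∩ P).ncard : ℕ) : ℝ) + ((A ∩ Q).ncard : ℝ) ≤
      ((A ∩ (P ∩ Q)).ncard : ℝ) + (A.ncard : ℝ) := by
    have : (A ∩ P).ncard + (A ∩ Q).ncard ≤ (A ∩ (P ∩ Q)).ncard + A.ncard := by omega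
    exact_mod_cast this
  have e2 : (865 / 1000 - θ) / 8 * (ψ.δ * X) ≤ (865 / 1000 - θ) / 8 * (2 * (A.ncard : ℝ)) :=
    mul_le_mul_of_nonneg_left (by linarith) (by linarith)
  have e3 : 0 ≤ (865 / 1000 - θ) * (A.ncard : ℝ) := mul_nonneg (by linarith) (Nat.cast_nonneg _)
  nlinarith

/-- `L(s,χ)` is close to `exp (h s)` on `K` -/
def APC (K : Set ℂ) (h : ℂ → ℂ) (ε : ℝ) (p : Σ N : ℕ, DirichletCharacter ℂ N) : Prop :=
  ∃ _ : NeZero p.1, ∀ s ∈ K, ‖DirichletCharacter.LFunction p.2 s - Complex.exp (h s)‖ < ε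

lemma exists_rect (K : Set ℂ) (hK : IsCompact K) (hKs : ∀ z ∈ K, 1 / 2 < z.re ∧ z.re < 1) :
    ∃ a b B : ℝ, 1 / 2 < a ∧ a ≤ b ∧ b < 1 ∧ 0 < B ∧
      ∀ z ∈ K, a ≤ z.re ∧ z.re ≤ b ∧ |z.im| ≤ B := by
  rcases K.eq_empty_or_nonempty with h | h
  · exact ⟨3 / 4, 3 / 4, 1, by norm_num, le_rfl, by norm_num, one_pos, by
      rw [h]; intro z hz; exact absurd hz (Set.notMem_empty z)⟩
  · obtain ⟨z1, hz1, hmin⟩ := hK.exists_isMinOn h Complex.continuous_re.continuousOn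
    obtain ⟨z2, hz2, hmax⟩ := hK.exists_isMaxOn h Complex.continuous_re.continuousOn
    obtain ⟨C, hC⟩ := hK.exists_bound_of_continuousOn (f := fun z : ℂ => z.im)
      Complex.continuous_im.continuousOn
    refine ⟨z1.re, z2.re, max C 1, (hKs _ hz1).1, hmin hz2, (hKs _ hz2).2,
      lt_max_of_lt_right one_pos, ?_⟩
    intro z hz
    exact ⟨hmin hz, hmax hz, (hC z hz).trans (le_max_left _ _)⟩

/-- closeness to the Euler product implies the approximation -/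
lemma apc_of_cl {a b B : ℝ} {K : Set ℂ} (hK : ∀ z ∈ K, a ≤ z.re ∧ z.re ≤ b ∧ |z.im| ≤ B)
    (ha : 1 / 2 < a) {h q : ℂ → ℂ} {ε G : ℝ} (hG : ∀ s ∈ K, ‖Complex.exp (q s)‖ ≤ G)
    (hG0 : 0 ≤ G) (hε : 0 < ε) (hε1 : ε ≤ 1)
    (hqh : ∀ s ∈ K, ‖Complex.exp (q s) - Complex.exp (h s)‖ < ε / 4) {z : ℕ} {c : ℕ → ℤ}
    (happ : ∀ s : ℂ, a ≤ s.re → s.re ≤ b → |s.im| ≤ B →
      ‖(∏ p ∈ PR 1 z, (1 - ((c p : ℤ) : ℂ) * (p : ℂ) ^ (-s)))⁻¹ - Complex.exp (q s)‖ < ε / 4)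
    (hc : ∀ p, c p = 1 ∨ c p = -1) {φ : FD} (hφ : Fam φ) {d : ℕ} (hd : d ∈ SFg φ)
    (hval : ∀ p ∈ PR 1 z, (ch φ d).2 (p : ZMod (ch φ d).1) = ((c p : ℤ) : ℂ))
    (hcl : ClC a b B (ε / (4 * (G + 1))) φ z d) : APC K h ε (ch φ d) := by
  obtain ⟨k1, k2, k3, k4⟩ := ch_spec hCGF hφ hd
  refine ⟨k3, fun s hs => ?_⟩
  obtain ⟨s1, s2, s3⟩ := hK s hs
  have h1 := hcl s s1 s2 s3
  rw [GC_eq] at h1
  have e1 : ∏ p ∈ PR 1 z, (1 - (ch φ d).2 (p : ZMod (ch φ d).1) * (p : ℂ) ^ (-s)) =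
      ∏ p ∈ PR 1 z, (1 - ((c p : ℤ) : ℂ) * (p : ℂ) ^ (-s)) :=
    Finset.prod_congr rfl fun p hp => by rw [hval p hp]
  rw [e1] at h1
  have hP0 : ∏ p ∈ PR 1 z, (1 - ((c p : ℤ) : ℂ) * (p : ℂ) ^ (-s)) ≠ 0 := by
    refine Finset.prod_ne_zero_iff.2 fun p hp h0 => ?_
    have hpp := ((mem_PR1 z p).1 hp).1
    have h2 : ‖((c p : ℤ) : ℂ) * (p : ℂ) ^ (-s)‖ < 1 := by
      have hcn : ‖((c p : ℤ) : ℂ)‖ = 1 := by rcases hc p with h | h <;> rw [h] <;> simp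
      rw [norm_mul, hcn, one_mul, Complex.norm_natCast_cpow_of_pos hpp.pos, Complex.neg_re]
      exact Real.rpow_lt_one_of_one_lt_of_neg (by exact_mod_cast hpp.one_lt) (by linarith)
    rw [← sub_eq_zero.1 h0] at h2
    simp at h2
  have h3 := happ s s1 s2 s3
  have h4 := hqh s hs
  have h5 := hG s hs
  generalize ∏ p ∈ PR 1 z, (1 - ((c p : ℤ) : ℂ) * (p : ℂ) ^ (-s)) = P at h1 hP0 h3
  generalize DirichletCharacter.LFunction (ch φ d).2 s = Ls at h1 ⊢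
  have h6 : ‖P⁻¹‖ ≤ G + 1 := by
    have := norm_add_le (P⁻¹ - Complex.exp (q s)) (Complex.exp (q s))
    rw [sub_add_cancel] at this
    linarith
  have h7 : ‖Ls - P⁻¹‖ ≤ ε / 4 := by
    have e2 : Ls - P⁻¹ = (Ls * P - 1) * P⁻¹ := by
      field_simp
    rw [e2, norm_mul]
    calc ‖Ls * P - 1‖ * ‖P⁻¹‖ ≤ ε / (4 * (G + 1)) * (G + 1) :=
          mul_le_mul h1 h6 (norm_nonneg _) (by positivity)
      _ = ε / 4 := by field_simp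
  calc ‖Ls - Complex.exp (h s)‖ = ‖(Ls - P⁻¹) + ((P⁻¹ - Complex.exp (q s)) +
        (Complex.exp (q s) - Complex.exp (h s)))‖ := by
        congr 1
        ring
    _ ≤ ‖Ls - P⁻¹‖ + ‖(P⁻¹ - Complex.exp (q s)) + (Complex.exp (q s) - Complex.exp (h s))‖ :=
        norm_add_le _ _
    _ ≤ ‖Ls - P⁻¹‖ + (‖P⁻¹ - Complex.exp (q s)‖ + ‖Complex.exp (q s) - Complex.exp (h s)‖) := by
        gcongr
        exact norm_add_le _ _
    _ < ε := by linarith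

theorem mainC (h1 : E1) (h2 : E2) (h3 : E3) (h5 : E5) (h6 : E6) (K : Set ℂ) (hK : IsCompact K)
    (hKs : ∀ z ∈ K, 1 / 2 < z.re ∧ z.re < 1) (hKc : IsConnected Kᶜ)
    (hKsym : ∀ z ∈ K, (starRingEnd ℂ) z ∈ K) (h : ℂ → ℂ) (hc : ContinuousOn h K)
    (hd : DifferentiableOn ℂ h (interior K))
    (hs : ∀ z ∈ K, h ((starRingEnd ℂ) z) = (starRingEnd ℂ) (h z)) (ε : ℝ) (hε : 0 < ε)
    (s : ℤ) (y : ℕ) (c0 : ℕ → ℤ) (hc0 : ∀ p, c0 p = 1 ∨ c0 p = -1) (θ : ℝ)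
    (hθ : θ < 865 / 1000) :
    ∃ (z : ℕ) (c : ℕ → ℤ), y ≤ z ∧ (∀ p, c p = 1 ∨ c p = -1) ∧ (∀ p, p ≤ y → c p = c0 p) ∧
    (∃ N : ℕ, ∀ X : ℕ, N ≤ X →
      θ * ((RPC ∩ (CL (PR 1 z) c s ∩ {p | p.1 ≤ X})).ncard : ℝ) ≤
        ((RPC ∩ ((CL (PR 1 z) c s ∩ {p | p.1 ≤ X}) ∩
          {p | POS p ∧ APC K h ε p})).ncard : ℝ)) := by
  classical
  obtain ⟨a, b, B, ha, hab, hb, hB, hrect⟩ := exists_rect K hK hKs
  -- reduction to `ε ≤ 1`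
  obtain ⟨ε', hε', hε'1, hε'2⟩ : ∃ ε' : ℝ, 0 < ε' ∧ ε' ≤ 1 ∧ ε' ≤ ε :=
    ⟨min 1 ε, lt_min one_pos hε, min_le_left _ _, min_le_right _ _⟩
  obtain ⟨G0, hG0⟩ := hK.exists_bound_of_continuousOn hc.cexp
  have hG00 : 0 ≤ max G0 0 := le_max_right _ _
  have hG : ∀ σ ∈ K, ‖Complex.exp (h σ)‖ ≤ max G0 0 := fun σ hσ => (hG0 σ hσ).trans (le_max_left _ _)
  generalize max G0 0 = G at hG00 hG
  -- polynomial approximation
  obtain ⟨η, hη, hη1, hη2⟩ : ∃ η : ℝ, 0 < η ∧ η ≤ 1 ∧ G * (2 * η) < ε' / 4 := by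
    refine ⟨min 1 (ε' / (8 * (G + 1)) / 2), by positivity, min_le_left _ _, ?_⟩
    have q1 : min 1 (ε' / (8 * (G + 1)) / 2) ≤ ε' / (8 * (G + 1)) / 2 := min_le_right _ _
    have q2 : G * (2 * min 1 (ε' / (8 * (G + 1)) / 2)) ≤ G * (2 * (ε' / (8 * (G + 1)) / 2)) := by
      gcongr
    have q3 : G * (2 * (ε' / (8 * (G + 1)) / 2)) = ε' / 8 * (G / (G + 1)) := by
      field_simp
    have q4 : G / (G + 1) ≤ 1 := by
      rw [div_le_one (by positivity)]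
      linarith
    have q5 : ε' / 8 * (G / (G + 1)) ≤ ε' / 8 * 1 := by gcongr
    linarith
  obtain ⟨q, hq1, hq2, hq3⟩ := mergelyan_real hK hKc hKsym h hc hd hs η hη
  have hqh : ∀ σ ∈ K, ‖Complex.exp (q σ) - Complex.exp (h σ)‖ < ε' / 4 := by
    intro σ hσ
    have e : Complex.exp (q σ) - Complex.exp (h σ) =
        Complex.exp (h σ) * (Complex.exp (q σ - h σ) - 1) := by
      rw [mul_sub, mul_one, ← Complex.exp_add]
      congr 2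
      ring
    rw [e, norm_mul]
    have h7 : ‖Complex.exp (q σ - h σ) - 1‖ ≤ 2 * η := by
      refine (Complex.norm_exp_sub_one_le ((hq3 σ hσ).le.trans hη1)).trans ?_
      have := (hq3 σ hσ).le
      linarith
    calc ‖Complex.exp (h σ)‖ * ‖Complex.exp (q σ - h σ) - 1‖ ≤ G * (2 * η) :=
          mul_le_mul (hG σ hσ) h7 (norm_nonneg _) hG00
      _ < ε' / 4 := hη2
  have hGq : ∀ σ ∈ K, ‖Complex.exp (q σ)‖ ≤ G + 1 := by
    intro σ hσ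
    have h7 := norm_add_le (Complex.exp (q σ) - Complex.exp (h σ)) (Complex.exp (h σ))
    rw [sub_add_cancel] at h7
    have h8 := hqh σ hσ
    have h9 := hG σ hσ
    linarith
  have hτ : 0 < ε' / (4 * (G + 1 + 1)) := by positivity
  obtain ⟨z0, hz0⟩ := fam_propC h1 h2 h3 h5 ha hab hb hB hτ hθ
  obtain ⟨z, c, hz, hcs, hcc, happ⟩ := h6 a b B ha hab hb hB q hq1 hq2 (ε' / 4) (by positivity)
    (max y (max z0 2)) c0 hc0
  have hz0' : y ≤ z := (le_max_left _ _).trans hz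
  have hz1 : z0 ≤ z := ((le_max_left _ _).trans (le_max_right _ _)).trans hz
  have hz2 : 2 ≤ z := ((le_max_right _ _).trans (le_max_right _ _)).trans hz
  refine ⟨z, c, hz0', hcs, fun p hp => hcc p (hp.trans (le_max_left _ _)), ?_⟩
  have hS : ∀ p ∈ PR 1 z, p.Prime := fun p hp => (Finset.mem_filter.1 hp).2
  have hfin1 : ∀ (φ : FD) (X : ℕ), {d | FM (PR 1 z) c s φ ∧ d ∈ SFg (loc φ ((PR 1 z).erase 2) c) ∩
      {d | d ≤ X / φ.r}}.Finite := fun φ X =>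
    (Set.finite_Iic (X / φ.r)).subset fun _ h => h.2.2
  have hfin2 : ∀ (φ : FD) (hφ : Fam φ) (X : ℕ), {d | d ∈ SFg φ ∧
      ch φ d ∈ ((CL (PR 1 z) c s ∩ {p | p.1 ≤ X}) ∩ {p | POS p ∧ APC K h ε p})}.Finite :=
    fun φ hφ X => (set_eq φ hφ (PR 1 z) hS c s X ▸ hfin1 φ X :
      {d | d ∈ SFg φ ∧ ch φ d ∈ CL (PR 1 z) c s ∩ {p | p.1 ≤ X}}.Finite).subset
        fun _ h => ⟨h.1, h.2.1⟩
  have A1 : ∀ X : ℕ, _ := fun X => sum_fam (CL (PR 1 z) c s ∩ {p | p.1 ≤ X}) (fun φ hφ => by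
    rw [set_eq φ hφ (PR 1 z) hS c s X]
    exact hfin1 φ X)
  have A2 : ∀ X : ℕ, _ := fun X => sum_fam ((CL (PR 1 z) c s ∩ {p | p.1 ≤ X}) ∩
    {p | POS p ∧ APC K h ε p}) (fun φ hφ => hfin2 φ hφ X)
  have h' : ∀ φ : FD, ∃ N : ℕ, Fam φ → ∀ X : ℕ, N ≤ X →
      θ * ((SFg (loc φ (PR 2 z) c) ∩ {d | d ≤ X}).ncard : ℝ) ≤
        (((SFg (loc φ (PR 2 z) c) ∩ {d | d ≤ X}) ∩
          ({d | ∀ σ : ℝ, 0 < σ → σ < 1 → 0 < LLg φ d σ} ∩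
            {d | ClC a b B (ε' / (4 * (G + 1 + 1))) φ z d})).ncard : ℝ) := by
    intro φ
    by_cases hφ : Fam φ
    · obtain ⟨N, hN⟩ := hz0 z hz1 c hcs φ hφ
      exact ⟨N, fun _ => hN⟩
    · exact ⟨0, fun hh => absurd hh hφ⟩
  choose Nf hNf using h'
  refine ⟨∑ φ ∈ FS, 8 * Nf φ, fun X hX => ?_⟩
  rw [(A1 X).2, (A2 X).2]
  push_cast
  rw [Finset.mul_sum]
  refine Finset.sum_le_sum fun φ hφ => ?_
  have hφ' := (mem_FS φ).1 hφ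
  rw [set_eq φ hφ' (PR 1 z) hS c s X, PR_erase]
  by_cases hFM : FM (PR 1 z) c s φ
  · simp only [hFM, true_and, Set.ofPred_mem_eq]
    have h8 : 8 * Nf φ ≤ X :=
      (Finset.single_le_sum (f := fun φ => 8 * Nf φ) (fun _ _ => Nat.zero_le _) hφ).trans hX
    have hNX : Nf φ ≤ X / φ.r := by
      rw [Nat.le_div_iff_mul_le (r_bd hφ').1]
      have := (r_bd hφ').2
      nlinarith
    refine (hNf φ hφ' (X / φ.r) hNX).trans ?_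
    have hsub : (SFg (loc φ (PR 2 z) c) ∩ {d | d ≤ X / φ.r}) ∩
          ({d | ∀ σ : ℝ, 0 < σ → σ < 1 → 0 < LLg φ d σ} ∩
            {d | ClC a b B (ε' / (4 * (G + 1 + 1))) φ z d}) ⊆
        {d | d ∈ SFg φ ∧ ch φ d ∈ ((CL (PR 1 z) c s ∩ {p | p.1 ≤ X}) ∩
          {p | POS p ∧ APC K h ε p})} := by
      rintro d ⟨hd1, hd2, hd3⟩
      have hmem : d ∈ {d | d ∈ SFg φ ∧ ch φ d ∈ CL (PR 1 z) c s ∩ {p | p.1 ≤ X}} := by
        rw [set_eq φ hφ' (PR 1 z) hS c s X, PR_erase]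
        exact ⟨hFM, hd1⟩
      obtain ⟨hdS, hdC⟩ := hmem
      have hap := apc_of_cl hrect ha hGq (by linarith) hε' hε'1 hqh happ hcs hφ' hdS hdC.1.2 hd3
      obtain ⟨n1, n2⟩ := hap
      exact ⟨hdS, hdC, (ch_pos φ hφ' hdS).2 hd2, ⟨n1, fun σ hσ => (n2 σ hσ).trans_le hε'2⟩⟩
    exact_mod_cast Set.ncard_le_ncard hsub (hfin2 φ hφ' X)
  · simp [hFM]

end

end Pool.Agent.H282RU
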