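import Pool.Agent.Helper240.ZU.B5a

/-!
Universality on compact sets: rounding of real coefficients to signs, and density with real
coefficients.
-/

set_option autoImplicit false

open Complex Filter Topology Set MeasureTheory ZU

namespace Pool.Agent.H282RU.E6p

/-- rounding real coefficients in `[-1,1]` to signs -/
theorem rnd (R : Set ℂ) (hR : IsCompact R) (u : ℕ → ℂ → ℂ) (hu : ∀ n, ContinuousOn (u n) R)
    (F : Finset ℕ) (l : ℕ → ℝ) (hl : ∀ n, |l n| ≤ 1) :
    ∃ c : ℕ → ℤ, (∀ n, c n = 1 ∨ c n = -1) ∧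
      ∫ s in R, ‖∑ n ∈ F, (((c n : ℤ) : ℂ) - ((l n : ℝ) : ℂ)) * u n s‖ ^ 2 ≤
        ∑ n ∈ F, ∫ s in R, ‖u n s‖ ^ 2 := by
  classical
  induction F using Finset.induction_on with
  | empty => exact ⟨fun _ => 1, fun _ => Or.inl rfl, by simp⟩
  | insert m F hm ih =>
    obtain ⟨c, hc, hint⟩ := ih
    set v : ℂ → ℂ := fun s => ∑ n ∈ F, (((c n : ℤ) : ℂ) - ((l n : ℝ) : ℂ)) * u n s with hv
    have hvc : ContinuousOn v R := by
      apply continuousOn_finsetSum
      intro n _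
      exact continuousOn_const.mul (hu n)
    obtain ⟨x, hx⟩ : ∃ x : ℝ, x = l m := ⟨_, rfl⟩
    have hx1 : |x| ≤ 1 := by rw [hx]; exact hl m
    obtain ⟨hx2, hx3⟩ := abs_le.1 hx1
    have hcu : ∀ y : ℝ, ContinuousOn (fun s => v s + ((y : ℝ) : ℂ) * u m s) R := fun y =>
      hvc.add (continuousOn_const.mul (hu m))
    have i1 : ∀ y : ℝ, IntegrableOn (fun s => ‖v s + ((y : ℝ) : ℂ) * u m s‖ ^ 2) R := fun y =>
      ((hcu y).norm.pow 2).integrableOn_compact hR
    have i3 : IntegrableOn (fun s => ‖v s‖ ^ 2) R := (hvc.norm.pow 2).integrableOn_compact hR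
    have i4 : IntegrableOn (fun s => ‖u m s‖ ^ 2) R :=
      ((hu m).norm.pow 2).integrableOn_compact hR
    have hsum : (1 + x) / 2 * (∫ s in R, ‖v s + ((1 - x : ℝ) : ℂ) * u m s‖ ^ 2) +
        (1 - x) / 2 * (∫ s in R, ‖v s + ((-1 - x : ℝ) : ℂ) * u m s‖ ^ 2) ≤
        (∫ s in R, ‖v s‖ ^ 2) + ∫ s in R, ‖u m s‖ ^ 2 := by
      rw [← integral_const_mul, ← integral_const_mul, ← integral_add ((i1 _).const_mul _)
        ((i1 _).const_mul _), ← integral_add i3 i4]
      apply integral_mono (((i1 _).const_mul _).add ((i1 _).const_mul _)) (i3.add i4)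
      intro s
      show (1 + x) / 2 * ‖v s + ((1 - x : ℝ) : ℂ) * u m s‖ ^ 2 +
        (1 - x) / 2 * ‖v s + ((-1 - x : ℝ) : ℂ) * u m s‖ ^ 2 ≤ ‖v s‖ ^ 2 + ‖u m s‖ ^ 2
      have e : ∀ w : ℂ, ‖w‖ ^ 2 = w.re ^ 2 + w.im ^ 2 := by
        intro w
        rw [← Complex.normSq_eq_norm_sq, Complex.normSq_apply]
        ring
      rw [e, e, e (v s), e (u m s)]
      simp only [Complex.add_re, Complex.add_im, Complex.re_ofReal_mul, Complex.im_ofReal_mul]
      have h0 : 0 ≤ x ^ 2 * ((u m s).re ^ 2 + (u m s).im ^ 2) := by positivity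
      nlinarith
    have hfin : ∀ b : ℤ, (b = 1 ∨ b = -1) →
        (∫ s in R, ‖v s + (((b : ℝ) - x : ℝ) : ℂ) * u m s‖ ^ 2) ≤
          (∫ s in R, ‖v s‖ ^ 2) + (∫ s in R, ‖u m s‖ ^ 2) →
        ∃ c : ℕ → ℤ, (∀ n, c n = 1 ∨ c n = -1) ∧
          ∫ s in R, ‖∑ n ∈ insert m F, (((c n : ℤ) : ℂ) - ((l n : ℝ) : ℂ)) * u n s‖ ^ 2 ≤
            ∑ n ∈ insert m F, ∫ s in R, ‖u n s‖ ^ 2 := by
      intro b hb hle
      refine ⟨Function.update c m b, ?_, ?_⟩
      · intro n
        by_cases h : n = m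
        · rw [h, Function.update_self]; exact hb
        · rw [Function.update_of_ne h]; exact hc n
      · have e : ∀ s, ∑ n ∈ insert m F, (((Function.update c m b n : ℤ) : ℂ) -
            ((l n : ℝ) : ℂ)) * u n s = v s + (((b : ℝ) - x : ℝ) : ℂ) * u m s := by
          intro s
          rw [Finset.sum_insert hm, Function.update_self, add_comm]
          congr 1
          · apply Finset.sum_congr rfl
            intro n hn
            have : n ≠ m := fun h => hm (h ▸ hn)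
            rw [Function.update_of_ne this]
          · rw [hx]
            push_cast
            rfl
        simp only [e]
        rw [Finset.sum_insert hm]
        linarith
    by_cases hcase : (∫ s in R, ‖v s + ((1 - x : ℝ) : ℂ) * u m s‖ ^ 2) ≤
        (∫ s in R, ‖v s‖ ^ 2) + (∫ s in R, ‖u m s‖ ^ 2)
    · apply hfin 1 (Or.inl rfl)
      simpa using hcase
    · apply hfin (-1) (Or.inr rfl)
      push Not at hcase
      have h2 : (∫ s in R, ‖v s + ((-1 - x : ℝ) : ℂ) * u m s‖ ^ 2) ≤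
          (∫ s in R, ‖v s‖ ^ 2) + (∫ s in R, ‖u m s‖ ^ 2) := by
        by_contra hcon
        push Not at hcon
        generalize (∫ s in R, ‖v s + ((1 - x : ℝ) : ℂ) * u m s‖ ^ 2) = I1 at hsum hcase
        generalize (∫ s in R, ‖v s + ((-1 - x : ℝ) : ℂ) * u m s‖ ^ 2) = I2 at hsum hcon
        generalize (∫ s in R, ‖v s‖ ^ 2) + (∫ s in R, ‖u m s‖ ^ 2) = I3 at hsum hcase hcon
        rcases le_total I1 I2 with h | h
        · have := mul_nonneg (show 0 ≤ (1 - x) / 2 by linarith) (sub_nonneg.2 h)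
          nlinarith
        · have := mul_nonneg (show 0 ≤ (1 + x) / 2 by linarith) (sub_nonneg.2 h)
          nlinarith
      simpa using h2

/-- conjugation maps the rectangle to itself -/
theorem conj_rect (a b B : ℝ) : (fun s : ℂ => (starRingEnd ℂ) s) ⁻¹' (rect a b B) = rect a b B := by
  ext s
  simp only [rect, Set.mem_preimage, Set.mem_ofPred_eq, Complex.conj_re, Complex.conj_im, abs_neg]

theorem int_conj (a b B : ℝ) (f : ℂ → ℝ) :
    ∫ s in rect a b B, f ((starRingEnd ℂ) s) = ∫ s in rect a b B, f s := by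
  have h1 : MeasurePreserving (fun s : ℂ => (starRingEnd ℂ) s) volume volume :=
    (Complex.conjLIE : ℂ ≃ₗᵢ[ℝ] ℂ).measurePreserving
  have h2 : MeasurableEmbedding (fun s : ℂ => (starRingEnd ℂ) s) :=
    (Complex.conjLIE : ℂ ≃ₗᵢ[ℝ] ℂ).toHomeomorph.measurableEmbedding
  have h3 := h1.setIntegral_preimage_emb h2 f (rect a b B)
  rw [conj_rect] at h3
  exact h3

/-- density with real coefficients -/
theorem lin_dense_real (σ1 σ2 B : ℝ) (h1 : 1 / 2 < σ1) (h12 : σ1 < σ2) (h2 : σ2 < 1) (hB : 0 < B)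
    (X : ℕ) (g : ℂ → ℂ) (U : Set ℂ) (hU : IsOpen U) (hRU : rect σ1 σ2 B ⊆ U)
    (hg : DifferentiableOn ℂ g U)
    (hsym : ∀ s ∈ rect σ1 σ2 B, g ((starRingEnd ℂ) s) = (starRingEnd ℂ) (g s))
    (ε : ℝ) (hε : 0 < ε) :
    ∃ (Y : ℕ) (l : ℕ → ℝ), X < Y ∧ (∀ n, |l n| ≤ 1) ∧
      ∫ s in rect σ1 σ2 B,
        ‖g s - ∑ p ∈ (Finset.Ioc X Y).filter Nat.Prime, ((l p : ℝ) : ℂ) * (p : ℂ) ^ (-s)‖ ^ 2
          < ε := by
  obtain ⟨Y, α, hXY, hα, hA⟩ := lin_dense σ1 σ2 B h1 h12 h2 hB X g U hU hRU hg ε hε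
  refine ⟨Y, fun n => (α n).re, hXY, fun n => (Complex.abs_re_le_norm _).trans (hα n), ?_⟩
  set F : Finset ℕ := (Finset.Ioc X Y).filter Nat.Prime with hF
  set R : Set ℂ := rect σ1 σ2 B with hR
  have hRc : IsCompact R := ZU.J_b5a.rect_compact_l457 σ1 σ2 B
  have hRm : MeasurableSet R := hRc.measurableSet
  set A : ℂ → ℂ := fun s => g s - ∑ p ∈ F, α p * (p : ℂ) ^ (-s) with hAdef
  have hFpos : ∀ n ∈ F, n ≠ 0 := fun n hn => (Finset.mem_filter.mp hn).2.ne_zero
  have hAc : ContinuousOn A R := by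
    refine (hg.continuousOn.mono hRU).sub ?_
    apply Continuous.continuousOn
    apply continuous_finsetSum
    intro n hn
    exact continuous_const.mul (ZU.J_b5a.cpow_cont_l457 n (hFpos n hn))
  have hcj : ContinuousOn (fun s => A ((starRingEnd ℂ) s)) R := by
    refine hAc.comp Complex.continuous_conj.continuousOn ?_
    intro s hs
    have := conj_rect σ1 σ2 B
    rw [← hR] at this
    rw [← this] at hs
    exact hs
  have i1 : IntegrableOn (fun s => ‖A s‖ ^ 2) R := (hAc.norm.pow 2).integrableOn_compact hRc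
  have i2 : IntegrableOn (fun s => ‖A ((starRingEnd ℂ) s)‖ ^ 2) R :=
    (hcj.norm.pow 2).integrableOn_compact hRc
  have hpt : ∀ s ∈ R, g s - ∑ p ∈ F, (((α p).re : ℝ) : ℂ) * (p : ℂ) ^ (-s) =
      (A s + (starRingEnd ℂ) (A ((starRingEnd ℂ) s))) / 2 := by
    intro s hs
    have e1 : (starRingEnd ℂ) (A ((starRingEnd ℂ) s)) =
        g s - ∑ p ∈ F, (starRingEnd ℂ) (α p) * (p : ℂ) ^ (-s) := by
      simp only [hAdef, map_sub, map_sum, map_mul]
      rw [hsym s hs, Complex.conj_conj]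
      congr 1
      refine Finset.sum_congr rfl fun p hp => ?_
      congr 1
      have hp0 : (p : ℂ) ≠ 0 := by exact_mod_cast hFpos p hp
      rw [Complex.cpow_def_of_ne_zero hp0, Complex.cpow_def_of_ne_zero hp0, ← Complex.exp_conj,
        map_mul, map_neg, Complex.conj_conj, ← Complex.natCast_log, Complex.conj_ofReal]
    rw [e1]
    simp only [hAdef]
    have e2 : ∀ p ∈ F, (((α p).re : ℝ) : ℂ) * (p : ℂ) ^ (-s) =
        (α p * (p : ℂ) ^ (-s) + (starRingEnd ℂ) (α p) * (p : ℂ) ^ (-s)) / 2 := by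
      intro p _
      rw [← add_mul, Complex.add_conj]
      push_cast
      ring
    rw [Finset.sum_congr rfl e2, ← Finset.sum_div, Finset.sum_add_distrib]
    ring
  have hle : ∫ s in R, ‖g s - ∑ p ∈ F, (((α p).re : ℝ) : ℂ) * (p : ℂ) ^ (-s)‖ ^ 2 ≤
      ∫ s in R, (1 / 2 * ‖A s‖ ^ 2 + 1 / 2 * ‖A ((starRingEnd ℂ) s)‖ ^ 2) := by
    refine setIntegral_mono_on ?_ ((i1.const_mul _).add (i2.const_mul _)) hRm ?_
    · refine ContinuousOn.integrableOn_compact hRc ?_
      refine ContinuousOn.pow (ContinuousOn.norm ?_) 2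
      refine (hg.continuousOn.mono hRU).sub ?_
      apply Continuous.continuousOn
      apply continuous_finsetSum
      intro n hn
      exact continuous_const.mul (ZU.J_b5a.cpow_cont_l457 n (hFpos n hn))
    · intro s hs
      rw [hpt s hs, norm_div, RCLike.norm_ofNat]
      have h3 := norm_add_le (A s) ((starRingEnd ℂ) (A ((starRingEnd ℂ) s)))
      rw [RCLike.norm_conj] at h3
      have h4 : (‖A s + (starRingEnd ℂ) (A ((starRingEnd ℂ) s))‖ / 2) ^ 2 ≤
          ((‖A s‖ + ‖A ((starRingEnd ℂ) s)‖) / 2) ^ 2 := by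
        gcongr
      nlinarith [sq_nonneg (‖A s‖ - ‖A ((starRingEnd ℂ) s)‖)]
  refine lt_of_le_of_lt hle ?_
  rw [integral_add (i1.const_mul _) (i2.const_mul _), integral_const_mul, integral_const_mul,
    int_conj σ1 σ2 B (fun s => ‖A s‖ ^ 2)]
  have : 1 / 2 * ∫ s in R, ‖A s‖ ^ 2 = 1 / 2 * ∫ s in rect σ1 σ2 B, ‖A s‖ ^ 2 := rfl
  linarith

end Pool.Agent.H282RU.E6p
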