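import Pool.Agent.H282RU.E6a
import Pool.Agent.Helper240.ZU.D
import Pool.Agent.Helper240.ZU.C1

/-!
Universality on compact sets: density of the signed sums over primes in the supremum norm.
-/

set_option autoImplicit false

open Complex Filter Topology Set MeasureTheory ZU

namespace Pool.Agent.H282RU.E6p

/-- density with signs, in the supremum norm -/
theorem sign_dense (a b a' b' B B' : ℝ) (h0 : 1 / 2 < a') (h1 : a' < a) (h2 : a ≤ b)
    (h3 : b < b') (h3' : b' < 1) (h4 : 0 < B) (h5 : B < B') :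
    ∃ C : ℝ, 0 < C ∧ ∀ (X : ℕ) (g : ℂ → ℂ) (U : Set ℂ), IsOpen U → rect a' b' B' ⊆ U →
      DifferentiableOn ℂ g U →
      (∀ s ∈ rect a' b' B', g ((starRingEnd ℂ) s) = (starRingEnd ℂ) (g s)) →
      ∀ ε : ℝ, 0 < ε → ∃ (Y : ℕ) (c : ℕ → ℤ), X < Y ∧ (∀ n, c n = 1 ∨ c n = -1) ∧
        ∀ s ∈ rect a b B,
          ‖g s - ∑ p ∈ (Finset.Ioc X Y).filter Nat.Prime, ((c p : ℤ) : ℂ) * (p : ℂ) ^ (-s)‖ ≤
            ε + C * √(tail a' X) := by
  obtain ⟨C0, hC0, hsup⟩ := sup_le_area a b a' b' B B' h1 h2 h3 h4 h5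
  set R : Set ℂ := rect a' b' B' with hR
  have hRc : IsCompact R := ZU.J_b5a.rect_compact_l457 a' b' B'
  have hRm : MeasurableSet R := hRc.measurableSet
  have hRf : volume R ≠ ⊤ := hRc.measure_lt_top.ne
  set ar : ℝ := volume.real R with har
  have har0 : 0 ≤ ar := measureReal_nonneg
  refine ⟨√(2 * C0 * ar) + 1, by positivity, ?_⟩
  intro X g U hU hRU hg hsym ε hε
  obtain ⟨Y, l, hXY, hl, hA⟩ := lin_dense_real a' b' B' h0 (by linarith) h3' (by linarith) X g U hU
    hRU hg hsym (ε ^ 2 / (2 * C0)) (by positivity)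
  set F : Finset ℕ := (Finset.Ioc X Y).filter Nat.Prime with hF
  have hFpos : ∀ n ∈ F, n ≠ 0 := by
    intro n hn
    exact (Finset.mem_filter.mp hn).2.ne_zero
  set u : ℕ → ℂ → ℂ := fun n s => if n = 0 then 0 else (n : ℂ) ^ (-s) with hu
  have hucont : ∀ n, Continuous (u n) := by
    intro n
    by_cases hn : n = 0
    · simp only [hu, hn, if_true]
      exact continuous_const
    · simp only [hu, hn, if_false]
      exact ZU.J_b5a.cpow_cont_l457 n hn
  have huF : ∀ n ∈ F, ∀ s, u n s = (n : ℂ) ^ (-s) := by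
    intro n hn s
    simp only [hu, hFpos n hn, if_false]
  obtain ⟨c, hc, hD⟩ := rnd R hRc u (fun n => (hucont n).continuousOn) F l hl
  refine ⟨Y, c, hXY, hc, ?_⟩
  obtain ⟨_, htail⟩ := tail_tendsto a' h0
  have ht0 : 0 ≤ tail a' X := by
    have := htail X ∅ (by simp)
    simpa using this
  -- the tail bound
  have hDs : ∑ n ∈ F, ∫ s in R, ‖u n s‖ ^ 2 ≤ ar * tail a' X := by
    have h1 : ∀ n ∈ F, ∫ s in R, ‖u n s‖ ^ 2 ≤ ar * (n : ℝ) ^ (-(2 * a')) := by
      intro n hn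
      have hc : ∫ s in R, (n : ℝ) ^ (-(2 * a')) = ar * (n : ℝ) ^ (-(2 * a')) := by
        rw [setIntegral_const, smul_eq_mul]
      rw [← hc]
      refine setIntegral_mono_on ?_ ?_ hRm ?_
      · exact ((hucont n).norm.pow 2).continuousOn.integrableOn_compact hRc
      · exact continuousOn_const.integrableOn_compact hRc
      · intro s hs
        rw [huF n hn]
        exact ZU.J_b5a.cpow_sq_l457 n (Nat.pos_of_ne_zero (hFpos n hn)) a' s hs.1
    refine (Finset.sum_le_sum h1).trans ?_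
    rw [← Finset.mul_sum]
    apply mul_le_mul_of_nonneg_left _ har0
    apply htail
    intro n hn
    exact (Finset.mem_Ioc.mp (Finset.mem_filter.mp hn).1).1
  set A : ℂ → ℂ := fun s => g s - ∑ p ∈ F, ((l p : ℝ) : ℂ) * (p : ℂ) ^ (-s) with hAdef
  set D : ℂ → ℂ := fun s => ∑ n ∈ F, (((c n : ℤ) : ℂ) - ((l n : ℝ) : ℂ)) * u n s with hDdef
  set H : ℂ → ℂ := fun s => g s - ∑ p ∈ F, ((c p : ℤ) : ℂ) * (p : ℂ) ^ (-s) with hHdef
  have hHAD : ∀ s, H s = A s - D s := by
    intro s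
    have h1 : D s = ∑ n ∈ F, (((c n : ℤ) : ℂ) - ((l n : ℝ) : ℂ)) * (n : ℂ) ^ (-s) := by
      simp only [hDdef]
      apply Finset.sum_congr rfl
      intro n hn
      rw [huF n hn]
    rw [h1]
    simp only [hHdef, hAdef]
    rw [sub_sub, ← Finset.sum_add_distrib]
    congr 1
    apply Finset.sum_congr rfl
    intro n _
    ring
  have hsumc : ∀ γ : ℕ → ℂ, Continuous (fun s : ℂ => ∑ p ∈ F, γ p * (p : ℂ) ^ (-s)) := by
    intro γ
    apply continuous_finsetSum
    intro n hn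
    exact continuous_const.mul (ZU.J_b5a.cpow_cont_l457 n (hFpos n hn))
  have hgc : ContinuousOn g R := hg.continuousOn.mono hRU
  have hAc : ContinuousOn A R := hgc.sub (hsumc fun n => ((l n : ℝ) : ℂ)).continuousOn
  have hDc : ContinuousOn D R := by
    apply Continuous.continuousOn
    apply continuous_finsetSum
    intro n hn
    exact continuous_const.mul (hucont n)
  have hHc : ContinuousOn H R := hgc.sub (hsumc fun n => ((c n : ℤ) : ℂ)).continuousOn
  have hHd : DifferentiableOn ℂ H U := by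
    apply DifferentiableOn.sub hg
    intro s _
    apply DifferentiableAt.differentiableWithinAt
    apply DifferentiableAt.fun_sum
    intro n hn
    apply DifferentiableAt.const_mul
    exact (differentiable_neg s).const_cpow (Or.inl (by exact_mod_cast hFpos n hn))
  have hAi : IntegrableOn (fun s => ‖A s‖ ^ 2) R := (hAc.norm.pow 2).integrableOn_compact hRc
  have hDi : IntegrableOn (fun s => ‖D s‖ ^ 2) R := (hDc.norm.pow 2).integrableOn_compact hRc
  have hHi : IntegrableOn (fun s => ‖H s‖ ^ 2) R := (hHc.norm.pow 2).integrableOn_compact hRc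
  have hH2 : ∫ s in R, ‖H s‖ ^ 2 ≤ 2 * (ε ^ 2 / (2 * C0)) + 2 * (ar * tail a' X) := by
    have h1 : ∫ s in R, ‖H s‖ ^ 2 ≤ ∫ s in R, (2 * ‖A s‖ ^ 2 + 2 * ‖D s‖ ^ 2) := by
      refine setIntegral_mono_on hHi ((hAi.const_mul 2).add (hDi.const_mul 2)) hRm ?_
      intro s _
      rw [hHAD s]
      have h2 := norm_sub_le (A s) (D s)
      have h3 := norm_nonneg (A s - D s)
      nlinarith [sq_nonneg (‖A s‖ - ‖D s‖), norm_nonneg (A s), norm_nonneg (D s)]
    refine h1.trans ?_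
    rw [integral_add (hAi.const_mul 2) (hDi.const_mul 2), integral_const_mul, integral_const_mul]
    have h4 : ∫ s in R, ‖D s‖ ^ 2 ≤ ar * tail a' X := hD.trans hDs
    have h5 : ∫ s in R, ‖A s‖ ^ 2 ≤ ε ^ 2 / (2 * C0) := hA.le
    linarith
  intro s hs
  have h6 := hsup H U hU hRU hHd s hs
  have h7 : ‖H s‖ ^ 2 ≤ ε ^ 2 + 2 * C0 * ar * tail a' X := by
    refine h6.trans ?_
    refine (mul_le_mul_of_nonneg_left hH2 hC0.le).trans (le_of_eq ?_)
    field_simp
  have h8 : (√(2 * C0 * ar)) ^ 2 = 2 * C0 * ar := Real.sq_sqrt (by positivity)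
  have h9 : (√(tail a' X)) ^ 2 = tail a' X := Real.sq_sqrt ht0
  have h10 : 0 ≤ √(2 * C0 * ar) := Real.sqrt_nonneg _
  have h11 : 0 ≤ √(tail a' X) := Real.sqrt_nonneg _
  have h12 : ‖H s‖ ≤ ε + (√(2 * C0 * ar)) * √(tail a' X) := by
    apply ZU.J_b5a.le_of_sq_le_sq_l457 _ (by positivity)
    refine h7.trans ?_
    have h13 : (ε + √(2 * C0 * ar) * √(tail a' X)) ^ 2
      = ε ^ 2 + 2 * ε * (√(2 * C0 * ar) * √(tail a' X))
        + (√(2 * C0 * ar)) ^ 2 * (√(tail a' X)) ^ 2 := by ring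
    rw [h13, h8, h9]
    have h14 : 0 ≤ 2 * ε * (√(2 * C0 * ar) * √(tail a' X)) := by positivity
    linarith
  have h15 : ‖H s‖ ≤ ε + (√(2 * C0 * ar) + 1) * √(tail a' X) := by
    nlinarith
  exact h15

end Pool.Agent.H282RU.E6p
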