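import Mathlib

set_option autoImplicit false

/-!
Universality on real segments by signed sums over primes: statements.
-/

namespace Pool.Agent.H282RU

noncomputable section

/-- `σ ↦ exp (-x σ)` on `[a,b]` -/
def ev (a b x : ℝ) : C(Set.Icc a b, ℝ) :=
  ⟨fun σ => Real.exp (-(x * (σ : ℝ))), by fun_prop⟩

/-- the primes in `(z0, z]` -/
def PR (z0 z : ℕ) : Finset ℕ := (Finset.Ioc z0 z).filter Nat.Prime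

/-- uniqueness of Laplace transforms -/
def J1 : Prop := ∀ (a b β C x0 : ℝ) (Λ : C(Set.Icc a b, ℝ) →L[ℝ] ℝ), 0 < a → a ≤ b → b < β →
  (∀ x : ℝ, x0 ≤ x → |Λ (ev a b x)| ≤ C * Real.exp (-(β * x))) → Λ = 0

/-- from one point in each interval of length `δ` to all points -/
def J2 : Prop := ∀ (a b β β' : ℝ), 0 < a → a ≤ b → b ≤ 1 → 0 < β' → β' < β → ∃ δ : ℝ, 0 < δ ∧
  ∀ Λ : C(Set.Icc a b, ℝ) →L[ℝ] ℝ,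
    (∃ u0 : ℝ, ∀ u : ℝ, u0 ≤ u →
      ∃ ξ : ℝ, u ≤ ξ ∧ ξ ≤ u + δ ∧ |Λ (ev a b ξ)| ≤ Real.exp (-(β * ξ))) →
    ∃ C x0 : ℝ, ∀ x : ℝ, x0 ≤ x → |Λ (ev a b x)| ≤ C * Real.exp (-(β' * x))

/-- primes in `(exp u, exp (u + δ)]` -/
def J3 : Prop := ∀ δ η : ℝ, 0 < δ → 0 < η → ∃ u0 : ℝ, ∀ u : ℝ, u0 ≤ u →
  Real.exp ((1 - η) * u) ≤ ((PR ⌊Real.exp u⌋₊ ⌊Real.exp (u + δ)⌋₊).card : ℝ)

/-- density of the real combinations with bounded coefficients -/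
def J4 : Prop := ∀ a b : ℝ, 0 < a → a ≤ b → b < 1 → ∀ f : ℝ → ℝ, ContinuousOn f (Set.Icc a b) →
  ∀ ε : ℝ, 0 < ε → ∀ z0 : ℕ, ∃ (z : ℕ) (l : ℕ → ℝ), z0 ≤ z ∧ (∀ p, |l p| ≤ 1) ∧
    ∀ σ ∈ Set.Icc a b, |∑ p ∈ PR z0 z, l p * (p : ℝ) ^ (-σ) - f σ| < ε

/-- rounding to signs -/
def J5 : Prop := ∀ a b : ℝ, 1 / 2 < a → a ≤ b → ∀ ε : ℝ, 0 < ε → ∃ Z : ℕ, ∀ (z0 z : ℕ) (l : ℕ → ℝ),
  Z ≤ z0 → (∀ p, |l p| ≤ 1) → ∃ c : ℕ → ℤ, (∀ p, c p = 1 ∨ c p = -1) ∧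
    ∀ σ ∈ Set.Icc a b, |∑ p ∈ PR z0 z, ((c p : ℝ) - l p) * (p : ℝ) ^ (-σ)| < ε

/-- every positive continuous function is approximated by a finite Euler product with signs -/
def J6 : Prop := ∀ a b : ℝ, 1 / 2 < a → a ≤ b → b < 1 → ∀ g : ℝ → ℝ,
  ContinuousOn g (Set.Icc a b) → (∀ σ ∈ Set.Icc a b, 0 < g σ) → ∀ ε : ℝ, 0 < ε → ∀ z0 : ℕ,
  ∃ (z : ℕ) (c : ℕ → ℤ), z0 ≤ z ∧ (∀ p, c p = 1 ∨ c p = -1) ∧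
    ∀ σ ∈ Set.Icc a b, |∏ p ∈ PR 1 z, (1 - (c p : ℝ) * (p : ℝ) ^ (-σ))⁻¹ - g σ| < ε

end

end Pool.Agent.H282RU
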