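import Pool.Agent.H282RU.Stm
import Pool.Agent.H282RU.SM
import Pool.Agent.W169.QP.Stm

set_option autoImplicit false

/-!
Universality on real segments and positivity of quadratic L-functions: statements.
-/

namespace Pool.Agent.H282RU

open Finset Filter Topology MeasureTheory Pool.Agent.H306R2.RZ Pool.Agent.H306R2.RG
open Pool.Agent.W169.QP (Na Mf)

noncomputable section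

/-- the mollifier at `1/2 + u` with weight `W (log n / L)` -/
def MW (φ : FD) (L : ℝ) (W : ℝ → ℝ) (d : ℕ) (u : ℝ) : ℝ :=
  ∑ n ∈ range (⌊Real.exp (L / 20)⌋₊ + 1),
    (((ArithmeticFunction.moebius n : ℤ) : ℝ) / Real.sqrt n * W (Real.log n / L) *
      Real.exp (-(u * Real.log n))) * jo φ d n

/-- weights -/
structure WT (W : ℝ → ℝ) (K : ℝ) : Prop where
  zero : W 0 = 1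
  bd : ∀ y, |W y| ≤ 1
  lip : ∀ y y', 0 ≤ y → 0 ≤ y' → |W y - W y'| ≤ K * |y - y'|
  supp : ∀ y, 1 / 20 ≤ y → W y = 0

/-- the `d` of the family with `(e d | p) = c p` for `p ∈ S` -/
def CS (φ : FD) (S : Finset ℕ) (c : ℕ → ℤ) : Set ℕ :=
  {d | φ.A d ∧ Squarefree d ∧ ∀ p ∈ S, js (φ.e * (d : ℤ)) p = ((c p : ℤ) : ℝ)}

/-- the finite Euler product at `1/2 + u` -/
def EU (S : Finset ℕ) (c : ℕ → ℤ) (u : ℝ) : ℝ :=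
  ∏ p ∈ S, (1 - ((c p : ℤ) : ℝ) * (p : ℝ) ^ (-(1 / 2 + u)))⁻¹

/-- rough part of the mollifier: `n` coprime to `2` and to the primes of `S` -/
def Rg (φ : FD) (S : Finset ℕ) (L : ℝ) (W : ℝ → ℝ) (d : ℕ) (u : ℝ) : ℝ :=
  ∑ n ∈ (range (⌊Real.exp (L / 20)⌋₊ + 1)).filter (fun n => Odd n ∧ ∀ p ∈ S, ¬ p ∣ n),
    (((ArithmeticFunction.moebius n : ℤ) : ℝ) / Real.sqrt n * W (Real.log n / L) *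
      Real.exp (-(u * Real.log n))) * jo φ d n

/-- difference of the rough parts -/
def Dg (φ : FD) (S : Finset ℕ) (L : ℝ) (W : ℝ → ℝ) (a d : ℕ) (u : ℝ) : ℝ :=
  ∑ n ∈ (range (⌊Real.exp (L / 20)⌋₊ + 1)).filter (fun n => Odd n ∧ ∀ p ∈ S, ¬ p ∣ n),
    (((ArithmeticFunction.moebius n : ℤ) : ℝ) / Real.sqrt n *
      (W (Real.log (a * n) / L) - W (Real.log n / L)) *
      Real.exp (-(u * Real.log n))) * jo φ d n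

/-- the Markov inequality with a supremum over a parameter -/
def S_core : Prop := ∀ (φ : FD) (F : ℝ → ℝ), TF F → (∀ x, 0 ≤ F x) →
  ∀ (L X0 Y C c0 c1 : ℝ), 0 < C → 0 < c0 → 0 < c1 → X0 ≤ Y → ∀ A : Set ℕ, (∀ d ∈ A, φ.A d) →
  ∀ u v : ℕ → ℝ → ℝ,
  (∀ x, X0 ≤ x → x ≤ Y → EAg φ F (Real.exp L) (fun d => u d x ^ 2) ≤ C * Real.exp (-(c0 * x))) →
  (∀ x, X0 ≤ x → x ≤ Y → EAg φ F (Real.exp L) (fun d => v d x ^ 2) ≤ C * Real.exp (-(c0 * x))) →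
  (∀ d ∈ A, F ((d : ℝ) / Real.exp L) ≠ 0 → ∃ x0, X0 ≤ x0 ∧ x0 ≤ Y ∧
    c1 ^ 2 ≤ u d Y ^ 2 + ∫ x in x0..Y, 2 * |u d x| * |v d x|) →
  cnt F L A ≤ (C + 2 * C / c0) / c1 ^ 2 * Real.exp (-(c0 * X0))

def S_TR1G : Prop := ∀ φ : FD, FG φ → ∀ F : ℝ → ℝ, TF F → (∀ x, 0 ≤ F x) → ∀ δ e θ : ℝ,
  0 < δ → δ ≤ 1 / 64 → 0 < e → e ≤ θ / 100 → Adm2 (1 / 2 + 3 * δ) θ →
  ∀ ρ r κ : ℝ → ℝ, RH δ ρ → ST (θ / 4) θ r → KP δ e κ →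
  ∃ C c0 L0 : ℝ, 0 < C ∧ 0 < c0 ∧ ∀ L : ℝ, L0 ≤ L → ∀ x : ℝ, 1 ≤ x → x ≤ L / 2 →
    EAg φ F (Real.exp L) (fun d => Gug φ L ρ r κ d x ^ 2) ≤ C * Real.exp (-(c0 * x)) ∧
    EAg φ F (Real.exp L) (fun d => Gu1g φ L ρ r κ d x ^ 2) ≤ C * Real.exp (-(c0 * x))

def S_C8G : Prop := ∀ φ : FD, FG φ → ∀ F : ℝ → ℝ, TF F → ∃ c1 c2 b L0 : ℝ, 0 < c1 ∧ 0 < b ∧
  ∀ L : ℝ, L0 ≤ L → ∀ d : ℕ, F ((d : ℝ) / Real.exp L) ≠ 0 → |beg φ L d| ≤ b / L ∧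
    ∀ x : ℝ, 0 ≤ x → x ≤ L / 2 → c1 ≤ KEg φ L d x ∧ KEg φ L d x ≤ c2

def S_ftc : Prop := ∀ φ : FD, FG φ → CG φ → ∀ L : ℝ, 4 ≤ L → ∀ δ e θ : ℝ,
  ∀ ρ r κ : ℝ → ℝ, RH δ ρ → ST (θ / 4) θ r → KP δ e κ →
  ∀ d : ℕ, d ∈ SFg φ → ∀ x0 : ℝ, 1 ≤ x0 → x0 ≤ L / 2 →
    Gug φ L ρ r κ d x0 ^ 2 ≤ Gug φ L ρ r κ d (L / 2) ^ 2 +
      ∫ x in x0..(L / 2), 2 * |Gug φ L ρ r κ d x| * |Gu1g φ L ρ r κ d x|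

/-- `L` times the mollifier is close to `1` -/
def PC : Prop := ∀ φ : FD, FG φ → CG φ → ∀ F : ℝ → ℝ, TF F → (∀ x, 0 ≤ F x) → ∀ δ e θ : ℝ,
  0 < δ → δ ≤ 1 / 64 → 0 < e → e ≤ θ / 100 → Adm2 (1 / 2 + 3 * δ) θ →
  ∀ ρ r κ : ℝ → ℝ, RH δ ρ → ST (θ / 4) θ r → KP δ e κ → ∀ τ : ℝ, 0 < τ →
  ∃ C c0 L0 : ℝ, 0 < C ∧ 0 < c0 ∧ ∀ L : ℝ, L0 ≤ L → ∀ X0 : ℝ, 1 ≤ X0 → X0 ≤ L / 2 →
    cnt F L (SFg φ ∩ {d | ∃ x : ℝ, X0 ≤ x ∧ x ≤ L / 2 ∧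
      τ ≤ |(1 - φ.η * (2 : ℝ) ^ (-(1 / 2 + x / L))) * LLg φ d (1 / 2 + x / L) *
        Mf φ L r κ d x - 1|}) ≤ C * Real.exp (-(c0 * X0))

/-- the mollifier as a finite sum -/
def PM : Prop := ∀ (φ : FD) (r κ : ℝ → ℝ) (L : ℝ), 0 < L → ST (1 / 80) (1 / 20) r →
  ∀ (d : ℕ) (x : ℝ), Mf φ L r κ d x = MW φ L (fun y => r y * κ y) d (x / L)

/-- algebraic identity -/
def PD1 : Prop := ∀ (φ : FD) (S : Finset ℕ) (c : ℕ → ℤ), (∀ p ∈ S, p.Prime ∧ Odd p) →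
  (∀ p ∈ S, c p = 1 ∨ c p = -1) → ∀ (W : ℝ → ℝ) (K L : ℝ), 0 < L → WT W K →
  ∀ d ∈ CS φ S c, ∀ u : ℝ, 0 ≤ u →
    MW φ L W d u * EU S c u = Rg φ S L W d u + EU S c u * ∑ T ∈ S.powerset,
      (∏ p ∈ T, -(((c p : ℤ) : ℝ) * (p : ℝ) ^ (-(1 / 2 + u)))) * Dg φ S L W (∏ p ∈ T, p) d u

/-- the rough part is close to `1` -/
def PD2 : Prop := ∀ (W : ℝ → ℝ) (K : ℝ), WT W K → ∀ u1 t τ B : ℝ, 0 < u1 → u1 ≤ 1 / 2 → 0 < t →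
  0 < τ → 0 < B → ∃ z0 : ℕ, ∀ z : ℕ, z0 ≤ z → ∀ c : ℕ → ℤ, (∀ p, c p = 1 ∨ c p = -1) →
  ∀ φ : FD, Fam φ → ∀ F : ℝ → ℝ, TF F → (∀ x, 0 ≤ F x) → ∀ D : ℝ, 0 < D →
  (∃ L1 : ℝ, ∀ L : ℝ, L1 ≤ L → EAg φ F (Real.exp L) (wS φ (PR 2 z) c) ≤ D * B) →
  ∃ L0 : ℝ, ∀ L : ℝ, L0 ≤ L →
    cnt F L (CS φ (PR 2 z) c ∩ {d | ∃ u : ℝ, u1 ≤ u ∧ u ≤ 1 / 2 ∧
      τ ≤ |Rg φ (PR 2 z) L W d u - 1|}) ≤ t * D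

/-- the differences are small -/
def PD3 : Prop := ∀ (W : ℝ → ℝ) (K : ℝ), WT W K → ∀ u1 t τ : ℝ, 0 < u1 → u1 ≤ 1 / 2 → 0 < t →
  0 < τ → ∀ S : Finset ℕ, (∀ p ∈ S, p.Prime ∧ Odd p) → ∀ c : ℕ → ℤ, (∀ p, c p = 1 ∨ c p = -1) →
  ∀ φ : FD, Fam φ → ∀ F : ℝ → ℝ, TF F → (∀ x, 0 ≤ F x) → ∀ a : ℕ, 0 < a →
  ∃ L0 : ℝ, ∀ L : ℝ, L0 ≤ L →
    cnt F L (CS φ S c ∩ {d | ∃ u : ℝ, u1 ≤ u ∧ u ≤ 1 / 2 ∧ τ ≤ |Dg φ S L W a d u|}) ≤ t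

/-- the mollifier times the finite Euler product is close to `1` -/
def PD : Prop := ∀ (W : ℝ → ℝ) (K : ℝ), WT W K → ∀ u1 t τ B : ℝ, 0 < u1 → u1 ≤ 1 / 2 → 0 < t →
  0 < τ → 0 < B → ∃ z0 : ℕ, ∀ z : ℕ, z0 ≤ z → ∀ c : ℕ → ℤ, (∀ p, c p = 1 ∨ c p = -1) →
  ∀ φ : FD, Fam φ → ∀ F : ℝ → ℝ, TF F → (∀ x, 0 ≤ F x) → ∀ D : ℝ, 0 < D →
  (∃ L1 : ℝ, ∀ L : ℝ, L1 ≤ L → EAg φ F (Real.exp L) (wS φ (PR 2 z) c) ≤ D * B) →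
  ∃ L0 : ℝ, ∀ L : ℝ, L0 ≤ L →
    cnt F L (CS φ (PR 2 z) c ∩ {d | ∃ u : ℝ, u1 ≤ u ∧ u ≤ 1 / 2 ∧
      τ ≤ |MW φ L W d u * EU (PR 2 z) c u - 1|}) ≤ t * D

end

end Pool.Agent.H282RU
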